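import Pool.Agent.Work.MP_31144c_an.Defs

-- merged part: Pool.Agent.Work.MP_31144c_an.WDefs
section
/-! Working definitions (paper proof: h61_31144c.md in the team store). -/

namespace Pool.Agent.Work.MP_31144c_an

open Set Filter Topology MeasureTheory Complex
open scoped BigOperators

/-- `u` is the real part of an analytic function near `z`. -/
def Harm (u : ℂ → ℝ) (z : ℂ) : Prop :=
  ∃ g : ℂ → ℂ, AnalyticAt ℂ g z ∧ ∀ᶠ w in 𝓝 z, u w = (g w).re

/-- Poisson kernel of the upper half plane. -/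
noncomputable def pk (z : ℂ) (t : ℝ) : ℝ := z.im / (Real.pi * ((t - z.re) ^ 2 + z.im ^ 2))

/-- Poisson integral. -/
noncomputable def Po (φ : ℝ → ℝ) (z : ℂ) : ℝ := ∫ t, pk z t * φ t

/-- Truncated cone at the real point `θ`. -/
def cone (θ C h : ℝ) : Set ℂ := {w | ‖w - θ‖ < C * w.im ∧ w.im < h}

/-- Union of the cones over `E`. -/
def reg (E : Set ℝ) (C h : ℝ) : Set ℂ := {w | ∃ θ ∈ E, w ∈ cone θ C h}

/-- The barrier. -/
noncomputable def Bar (E : Set ℝ) (C h : ℝ) (z : ℂ) : ℝ :=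
  (1 - Po (E.indicator 1) z) / (min (C - 1) 1 / 4) + z.im / h

/-- A limit exists within every cone at `θ`. -/
def NT {X : Type} [TopologicalSpace X] (u : ℂ → X) (θ : ℝ) : Prop :=
  ∀ C : ℝ, 1 < C → ∃ L, Tendsto u (𝓝[cone θ C 1] θ) (𝓝 L)

/-- Scales of a Cantor set of positive logarithmic capacity. -/
structure Scale (l : ℕ → ℝ) : Prop where
  pos : ∀ j, 0 < l j
  sep : ∀ j, 4 * l (j + 1) ≤ l j
  sum : Summable fun j => (1 / 2 : ℝ) ^ j * |Real.log (l j)|

/-- Shifted scales. -/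
def sh (j : ℕ) (l : ℕ → ℝ) : ℕ → ℝ := fun i => l (i + j)

/-- The point of the Cantor set with address `ε`. -/
noncomputable def cx (l : ℕ → ℝ) (ε : ℕ → Bool) : ℝ := ∑' j, if ε j then l j else 0

/-- The Cantor set. -/
def Kc (l : ℕ → ℝ) : Set ℂ := range fun ε => ((cx l ε : ℝ) : ℂ)

/-- Two bounded harmonic functions off `K` vanishing at infinity without common zero. -/
def Sep (K : Set ℂ) : Prop :=
  IsCompact K ∧ ∃ (v₁ v₂ : ℂ → ℝ) (B : ℝ),
    (∀ w, w ∉ K → Harm v₁ w ∧ Harm v₂ w ∧ |v₁ w| ≤ B ∧ |v₂ w| ≤ B ∧ (v₁ w ≠ 0 ∨ v₂ w ≠ 0)) ∧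
      Tendsto v₁ (Bornology.cobounded ℂ) (𝓝 0) ∧ Tendsto v₂ (Bornology.cobounded ℂ) (𝓝 0)

open Classical in
/-- Indicator of a proposition. -/
noncomputable def ind (p : Prop) : ℝ := if p then 1 else 0

/-- Unit steps whose law is invariant under the quarter turn. -/
structure Step {D : Type} [Fintype D] (e : D → ℂ) : Prop where
  ne : Nonempty D
  nrm : ∀ d, ‖e d‖ = 1
  rot : ∀ φ : ℂ → ℝ, 𝔼 d, φ (I * e d) = 𝔼 d, φ (e d)

/-- Expectation over `n` independent steps. -/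
noncomputable def Ex {D : Type} [Fintype D] (e : D → ℂ) : ℕ → (List ℂ → ℝ) → ℝ
  | 0, Φ => Φ []
  | n + 1, Φ => 𝔼 d, Ex e n fun l => Φ (e d :: l)

/-- Position after `s` steps. -/
noncomputable def pos (l : List ℂ) (s : ℕ) : ℂ := (l.take s).sum

/-- Number of positive times at which the walk started at `x` is in the disc of radius `ρ`. -/
noncomputable def occ (ρ : ℝ) : ℂ → List ℂ → ℝ
  | _, [] => 0
  | x, a :: l => ind (‖x + a‖ ≤ ρ) + occ ρ (x + a) l

/-- Probability that the walk started at `x` is in the disc of radius `ρ` at time `n`. -/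
noncomputable def Pr {D : Type} [Fintype D] (e : D → ℂ) (n : ℕ) (x : ℂ) (ρ : ℝ) : ℝ :=
  Ex e n fun l => ind (‖x + l.sum‖ ≤ ρ)

/-- The unit cell of a point. -/
noncomputable def cell (y : ℂ) : ℤ × ℤ := (⌊y.re⌋, ⌊y.im⌋)

/-- The last position lies in a cell not visited before. -/
def New (l : List ℂ) : Prop := ∀ s < l.length, cell (pos l s) ≠ cell l.sum

/-- The gauge of the planar Brownian path. -/
noncomputable def h0 (d : ℝ) : ℝ :=
  d ^ 2 * (Real.log (1 / d) * Real.log (Real.log (Real.log (1 / d))))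

/-- The rescaled thickened path has a cover by small discs of cost at most `κ`. -/
def Cov (n : ℕ) (η κ : ℝ) (l : List ℂ) : Prop :=
  ∃ (F : Finset ℕ) (c : ℕ → ℂ) (R : ℕ → ℝ), (∀ i ∈ F, 0 < R i ∧ R i ≤ η) ∧
    ∑ i ∈ F, h0 (2 * R i) ≤ κ ∧
      ∀ s < n ^ 2, Metric.closedBall (pos l s / n) (6 / n) ⊆ ⋃ i ∈ F, Metric.closedBall (c i) (R i)

/-- Roots of unity. -/
noncomputable def rt (m d : ℕ) : ℂ := exp (2 * Real.pi * I * d / m)

/-- Steps read off the base `m` digits of `y`. -/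
noncomputable def dl (m : ℕ) : ℕ → ℝ → List ℂ
  | 0, _ => []
  | N + 1, y => rt m ⌊m * Int.fract y⌋₊ :: dl m N (m * y)

/-- A lacunary series. -/
noncomputable def lac (a : ℕ → ℝ) (ν : ℕ → ℕ) (z : ℂ) : ℂ := ∑' k, (a k : ℂ) * z ^ ν k

/-- First index of the block `b`. -/
def st (n : ℕ → ℕ) (b : ℕ) : ℕ := ∑ i ∈ Finset.range b, n i ^ 2

/-- The block of the index `k`. -/
def blk (n : ℕ → ℕ) (k : ℕ) : ℕ := Nat.findGreatest (fun b => st n b ≤ k) k

/-- The exponents. -/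
def nu (n m : ℕ → ℕ) : ℕ → ℕ
  | 0 => 1
  | k + 1 => nu n m k * m (blk n k)

/-- The example. -/
noncomputable def fex (n m : ℕ → ℕ) : ℂ → ℂ := lac (fun k => 1 / (n (blk n k) : ℝ)) (nu n m)

/-- Partial sums of the example. -/
noncomputable def psum (n m : ℕ → ℕ) (P : ℂ) (k : ℕ) : ℂ :=
  ∑ i ∈ Finset.range k, ((1 / (n (blk n i) : ℝ) : ℝ) : ℂ) * P ^ nu n m i

/-- The steps of the block `b` at the boundary point `exp (2 π i x)`. -/
noncomputable def bl (n m : ℕ → ℕ) (b : ℕ) (x : ℝ) : List ℂ :=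
  dl (m b) (n b ^ 2) (nu n m (st n b) * x)

/-- Admissible block parameters. -/
structure Par (n m : ℕ → ℕ) : Prop where
  mono : Monotone n
  big : ∀ b, b + 1 ≤ n b
  dvd : ∀ b, 4 ∣ m b
  m1 : ∀ b, 7 * n b ^ 2 ≤ m b
  m2 : ∀ b, (b + 1) * n (b + 1) ≤ m b

end Pool.Agent.Work.MP_31144c_an
end

-- merged part: Pool.Agent.Work.MP_31144c_an.Cone
section
/-! Cones, and the passage between the disc and the half plane.
PLAN. `cone_to_stolz`: `‖exp (w I) - exp (θ I)‖ = ‖exp ((w - θ) I) - 1‖ ≤ ‖w - θ‖ (1 + ‖w - θ‖)` (`Complex.norm_exp_sub_one_sub_id_le`),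
`‖exp (w I)‖ = exp (- im w)`, `1 - exp (-y) ≥ y (1 - y)`; take `C₁ = (1 + C) / 2`. `typeA_of_NT`: for `z` near `P = exp (θ I)` put
`w z = θ - I log (z / P)`; `exp (w z * I) = z`, `w z → θ`, `‖w z - θ‖ ≤ 2 ‖z - P‖` (`Complex.norm_log_one_add_half_le_self`),
`im (w z) = - log ‖z‖ ≥ 1 - ‖z‖`, so `w z ∈ cone θ (2 C) 1` eventually within the Stolz angle.
`mem_vals`: choose `z k` with `f (z k) = w`, `0 < ‖z k - P‖ < 1 / (k + 1)`; pass to a subsequence with strictly decreasing distance, inside `δ`. -/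

namespace Pool.Agent.Work.MP_31144c_an

open Set Filter Topology MeasureTheory Complex

variable {θ C h : ℝ} {E : Set ℝ} {w : ℂ}

theorem Cone_im_le (z : ℂ) (θ : ℝ) : z.im ≤ ‖z - θ‖ := by
  have h : (z - θ).im ≤ ‖z - θ‖ := (le_abs_self _).trans (abs_im_le_norm _)
  simpa using h

theorem im_pos_of_cone (hC : 0 < C) (hw : w ∈ cone θ C h) : 0 < w.im := by
  have h1 : 0 < C * w.im := (norm_nonneg _).trans_lt hw.1
  exact (mul_pos_iff_of_pos_left hC).mp h1

theorem isOpen_cone (θ C h : ℝ) : IsOpen (cone θ C h) := by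
  have h1 : IsOpen {w : ℂ | ‖w - θ‖ < C * w.im} := isOpen_lt (by fun_prop) (by fun_prop)
  have h2 : IsOpen {w : ℂ | w.im < h} := isOpen_lt (by fun_prop) (by fun_prop)
  exact h1.inter h2

theorem convex_cone (θ C h : ℝ) : Convex ℝ (cone θ C h) := by
  rw [convex_iff_forall_pos]
  intro x hx y hy a b ha hb hab
  have e : a • x + b • y - θ = a • (x - θ) + b • (y - θ) := by
    have : (θ : ℂ) = a • (θ : ℂ) + b • (θ : ℂ) := by rw [← add_smul, hab, one_smul]
    rw [smul_sub, smul_sub]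
    linear_combination -this
  have e2 : (a • x + b • y).im = a * x.im + b * y.im := by simp
  have h1 := mul_lt_mul_of_pos_left hx.1 ha
  have h2 := mul_lt_mul_of_pos_left hy.1 hb
  have h3 := mul_lt_mul_of_pos_left hx.2 ha
  have h4 := mul_lt_mul_of_pos_left hy.2 hb
  refine ⟨?_, ?_⟩
  · rw [e, e2]
    refine (norm_add_le _ _).trans_lt ?_
    rw [norm_smul, norm_smul, Real.norm_of_nonneg ha.le, Real.norm_of_nonneg hb.le]
    linarith
  · rw [e2]
    have : a * h + b * h = h := by rw [← add_mul, hab, one_mul]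
    linarith

theorem cone_mono {C' h' : ℝ} (hC : 0 < C) (h1 : C ≤ C') (h2 : h ≤ h') :
    cone θ C h ⊆ cone θ C' h' := by
  intro w hw
  exact ⟨hw.1.trans_le (mul_le_mul_of_nonneg_right h1 (im_pos_of_cone hC hw).le),
    hw.2.trans_le h2⟩

theorem vert_mem_cone (hC : 1 < C) {y : ℝ} (h0 : 0 < y) (hy : y < h) :
    (θ : ℂ) + y * I ∈ cone θ C h := by
  have e1 : ‖(θ : ℂ) + y * I - θ‖ = y := by
    rw [add_sub_cancel_left, norm_mul, norm_I, mul_one, norm_real, Real.norm_of_nonneg h0.le]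
  have e2 : ((θ : ℂ) + y * I).im = y := by simp
  refine ⟨?_, ?_⟩
  · rw [e1, e2]
    nlinarith
  · rw [e2]
    exact hy

theorem eventually_cone (hC : 0 < C) {p : ℂ → Prop} :
    (∀ᶠ z in 𝓝[cone θ C 1] θ, p z) ↔ ∃ N : ℕ, ∀ z ∈ cone θ C (1 / (N + 1)), p z := by
  rw [eventually_nhdsWithin_iff, Metric.eventually_nhds_iff]
  constructor
  · rintro ⟨ε, hε, hp⟩
    obtain ⟨N, hN⟩ := exists_nat_one_div_lt (div_pos hε hC)
    refine ⟨N, fun z hz => hp ?_ (cone_mono hC le_rfl ?_ hz)⟩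
    · rw [dist_eq_norm]
      have h1 := (lt_div_iff₀' hC).mp (hz.2.trans hN)
      exact hz.1.trans h1
    · rw [div_le_one (by positivity)]
      linarith [Nat.cast_nonneg (α := ℝ) N]
  · rintro ⟨N, hp⟩
    refine ⟨1 / (N + 1), by positivity, fun z hz hc => hp z ⟨hc.1, ?_⟩⟩
    rw [dist_eq_norm] at hz
    exact (Cone_im_le z θ).trans_lt hz

theorem Cone_vert (hC : 1 < C) :
    Tendsto (fun k : ℕ => (θ : ℂ) + ((1 / (k + 1) : ℝ) : ℂ) * I) atTop (𝓝[cone θ C 1] θ) := by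
  rw [tendsto_nhdsWithin_iff]
  constructor
  · have h1 : Continuous fun y : ℝ => (θ : ℂ) + (y : ℂ) * I := by fun_prop
    have h2 := (h1.tendsto 0).comp tendsto_one_div_add_atTop_nhds_zero_nat
    simpa only [Function.comp_def, ofReal_zero, zero_mul, add_zero] using h2
  · filter_upwards [eventually_gt_atTop 0] with k hk
    refine vert_mem_cone hC (by positivity) ?_
    have : (0 : ℝ) < k := Nat.cast_pos.mpr hk
    rw [div_lt_one (by positivity)]
    linarith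

theorem neBot_cone (hC : 1 < C) : (𝓝[cone θ C 1] (θ : ℂ)).NeBot := by
  exact (Cone_vert hC).neBot

theorem tendsto_vert (hC : 1 < C) :
    Tendsto (fun k : ℕ => (θ : ℂ) + ((1 / (k + 1) : ℝ) : ℂ) * I) atTop (𝓝[cone θ C 1] θ) := by
  exact Cone_vert hC

theorem isOpen_reg (E : Set ℝ) (C h : ℝ) : IsOpen (reg E C h) := by
  have e : reg E C h = ⋃ θ ∈ E, cone θ C h := by
    ext w
    simp [reg]
  rw [e]
  exact isOpen_biUnion fun θ _ => isOpen_cone θ C h

theorem isBounded_reg (hE : Bornology.IsBounded E) (hC : 0 < C) (h : ℝ) :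
    Bornology.IsBounded (reg E C h) := by
  obtain ⟨R, hR⟩ := hE.exists_norm_le
  rw [isBounded_iff_forall_norm_le]
  refine ⟨C * h + R, ?_⟩
  rintro w ⟨θ, hθ, hw⟩
  have h1 : ‖w‖ ≤ ‖w - θ‖ + ‖(θ : ℂ)‖ := norm_le_norm_sub_add _ _
  have h2 := hR θ hθ
  have h3 := mul_lt_mul_of_pos_left hw.2 hC
  rw [norm_real] at h1
  linarith [hw.1]

theorem shift_mem_reg (hC : 1 < C) (hw : w ∈ reg E C h) {ε : ℝ} (h0 : 0 ≤ ε) (hε : ε ≤ h) :
    w + ε * I ∈ reg E C (2 * h) := by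
  obtain ⟨θ, hθ, h1, h2⟩ := hw
  have e2 : (w + ε * I).im = w.im + ε := by simp
  refine ⟨θ, hθ, ?_, ?_⟩
  · rw [e2, add_sub_right_comm]
    refine (norm_add_le _ _).trans_lt ?_
    rw [norm_mul, norm_I, mul_one, norm_real, Real.norm_of_nonneg h0]
    nlinarith
  · rw [e2]
    linarith

theorem real_of_closure_reg (hE : IsClosed E) (hC : 0 < C) (hw : w ∈ closure (reg E C h))
    (h0 : w.im ≤ 0) : ∃ θ ∈ E, w = θ := by
  have hc : IsClosed ((fun x : ℝ => (x : ℂ)) '' E) :=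
    isometry_ofReal.isClosedEmbedding.isClosedMap E hE
  have hm : w ∈ closure ((fun x : ℝ => (x : ℂ)) '' E) := by
    rw [Metric.mem_closure_iff] at hw ⊢
    intro ε hε
    obtain ⟨z, ⟨θ, hθ, hz⟩, hd⟩ := hw (ε / (C + 1)) (by positivity)
    refine ⟨θ, ⟨θ, hθ, rfl⟩, ?_⟩
    rw [dist_comm, dist_eq_norm] at hd
    have h1 : (z - w).im ≤ ‖z - w‖ := (le_abs_self _).trans (abs_im_le_norm _)
    rw [sub_im] at h1
    have h2 : ‖w - θ‖ ≤ ‖w - z‖ + ‖z - θ‖ := norm_sub_le_norm_sub_add_norm_sub _ _ _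
    rw [norm_sub_rev w z] at h2
    rw [lt_div_iff₀ (by positivity)] at hd
    have h3 : C * z.im ≤ C * ‖z - w‖ := mul_le_mul_of_nonneg_left (by linarith) hC.le
    rw [dist_eq_norm]
    linarith [hz.1]
  rw [hc.closure_eq] at hm
  obtain ⟨θ, hθ, e⟩ := hm
  exact ⟨θ, hθ, e.symm⟩

theorem isClosed_omit (C h : ℝ) (p : ℂ → Prop) : IsClosed {θ : ℝ | ∀ z ∈ cone θ C h, p z} := by
  have e : {θ : ℝ | ∀ z ∈ cone θ C h, p z} =
      ⋂ z ∈ {z : ℂ | z.im < h ∧ ¬ p z}, {θ : ℝ | C * z.im ≤ ‖z - θ‖} := by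
    ext θ
    simp only [mem_ofPred_eq, mem_iInter]
    constructor
    · intro H z hz
      exact not_lt.mp fun h1 => hz.2 (H z ⟨h1, hz.1⟩)
    · intro H z hz
      by_contra hp
      exact absurd hz.1 (not_lt.mpr (H z ⟨hz.2, hp⟩))
  rw [e]
  exact isClosed_biInter fun z _ => isClosed_le (by fun_prop) (by fun_prop)

theorem cone_to_stolz (hC : 1 < C) {δ : ℝ} (hδ : 0 < δ) : ∃ C₁ h : ℝ, 1 < C₁ ∧ 0 < h ∧
    ∀ θ : ℝ, ∀ w ∈ cone θ C₁ h, exp (w * I) ∈ stolz (exp (θ * I)) C δ := by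
  obtain ⟨B, hB⟩ : ∃ B, B = (1 + C) / 2 := ⟨_, rfl⟩
  have hB1 : 1 < B := by linarith
  have hBC : B < C := by linarith
  obtain ⟨h, h0, h1, h2, h3⟩ : ∃ h : ℝ, 0 < h ∧ h * (B ^ 2 + C) ≤ C - B ∧ h * B ≤ 1 ∧
      h * (2 * B) ≤ δ := by
    have : 0 < C - B := by linarith
    refine ⟨min ((C - B) / (B ^ 2 + C)) (min (1 / B) (δ / (2 * B))), by positivity, ?_, ?_, ?_⟩
    · exact (le_div_iff₀ (by positivity)).mp (min_le_left _ _)
    · exact (le_div_iff₀ (by positivity)).mp ((min_le_right _ _).trans (min_le_left _ _))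
    · exact (le_div_iff₀ (by positivity)).mp ((min_le_right _ _).trans (min_le_right _ _))
  refine ⟨B, h, hB1, h0, fun θ w hw => ?_⟩
  have hy := im_pos_of_cone (by linarith) hw
  obtain ⟨hr, hyh⟩ := hw
  have hr0 := norm_nonneg (w - θ)
  have hrh : ‖w - θ‖ < h * B := by nlinarith
  have hn : ‖(w - θ) * I‖ = ‖w - θ‖ := by rw [norm_mul, norm_I, mul_one]
  have hd : ‖exp (w * I) - exp (θ * I)‖ ≤ ‖w - θ‖ * (1 + ‖w - θ‖) := by
    have e : exp (w * I) - exp (θ * I) = exp (θ * I) * (exp ((w - θ) * I) - 1) := by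
      rw [mul_sub, ← exp_add, mul_one]
      ring_nf
    have h4 := norm_exp_sub_one_sub_id_le (x := (w - θ) * I) (by rw [hn]; linarith)
    have h5 := norm_le_norm_sub_add (exp ((w - θ) * I) - 1) ((w - θ) * I)
    rw [hn] at h4 h5
    rw [e, norm_mul, norm_exp_ofReal_mul_I, one_mul]
    nlinarith
  have he : ‖exp (w * I)‖ = Real.exp (-w.im) := by
    rw [norm_exp]
    simp
  have hb : Real.exp (-w.im) ≤ 1 - w.im * (1 - w.im) := by
    have h4 := Real.add_one_le_exp w.im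
    rw [Real.exp_neg, inv_le_iff_one_le_mul₀ (Real.exp_pos _)]
    have h5 : 0 < 1 - w.im * (1 - w.im) := by nlinarith [sq_nonneg (w.im - 1 / 2)]
    nlinarith [mul_le_mul_of_nonneg_left h4 h5.le, pow_pos hy 3]
  refine ⟨?_, hd.trans_lt ?_, hd.trans_lt (by nlinarith)⟩
  · rw [he, ← Real.exp_zero]
    exact Real.exp_lt_exp.mpr (by linarith)
  · rw [he]
    have h4 : ‖w - θ‖ * (1 + ‖w - θ‖) < B * w.im * (1 + h * B) :=
      mul_lt_mul'' hr (by linarith) hr0 (by linarith)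
    have h5 : B * (1 + h * B) ≤ C * (1 - w.im) := by nlinarith
    have h6 := mul_le_mul_of_nonneg_left h5 hy.le
    have h7 : C * (w.im * (1 - w.im)) ≤ C * (1 - Real.exp (-w.im)) :=
      mul_le_mul_of_nonneg_left (by linarith) (by linarith)
    nlinarith

theorem typeA_of_NT {f : ℂ → ℂ} (h : NT (fun w => f (exp (w * I))) θ) : TypeA f (exp (θ * I)) := by
  intro C δ hC _
  obtain ⟨L, hL⟩ := h (2 * C) (by linarith)
  obtain ⟨P, hP⟩ : ∃ P, P = exp (θ * I) := ⟨_, rfl⟩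
  have hP1 : ‖P‖ = 1 := by rw [hP, norm_exp_ofReal_mul_I]
  have hP0 : P ≠ 0 := by rw [hP]; exact exp_ne_zero _
  rw [← hP]
  have hnear : ∀ᶠ z in 𝓝[stolz P C δ] P, ‖z - P‖ < 1 / 2 := by
    refine mem_nhdsWithin_of_mem_nhds ?_
    have := Metric.ball_mem_nhds P (show (0 : ℝ) < 1 / 2 by norm_num)
    simpa only [Metric.ball, dist_eq_norm] using this
  have hz0 : ∀ z, ‖z - P‖ < 1 / 2 → z ≠ 0 := fun z hz h0 => by
    rw [h0, zero_sub, norm_neg, hP1] at hz
    norm_num at hz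
  have hg : ∀ z, ‖z - P‖ < 1 / 2 → ‖(θ - I * log (z / P)) - θ‖ ≤ 3 / 2 * ‖z - P‖ := fun z hz => by
    have e : z / P = 1 + (z - P) / P := by field_simp; ring
    have e2 : ‖(z - P) / P‖ = ‖z - P‖ := by rw [norm_div, hP1, div_one]
    rw [sub_sub_cancel_left, norm_neg, norm_mul, norm_I, one_mul, e, ← e2]
    exact norm_log_one_add_half_le_self (by rw [e2]; exact hz.le)
  have ht : Tendsto (fun z => θ - I * log (z / P)) (𝓝[stolz P C δ] P)
      (𝓝[cone θ (2 * C) 1] θ) := by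
    rw [tendsto_nhdsWithin_iff]
    constructor
    · rw [tendsto_iff_norm_sub_tendsto_zero]
      have h1 : Tendsto (fun z => 3 / 2 * ‖z - P‖) (𝓝[stolz P C δ] P) (𝓝 0) := by
        refine tendsto_nhdsWithin_of_tendsto_nhds ?_
        have : Continuous fun z : ℂ => 3 / 2 * ‖z - P‖ := by fun_prop
        simpa using this.tendsto P
      exact squeeze_zero' (Eventually.of_forall fun _ => norm_nonneg _) (hnear.mono hg) h1
    · filter_upwards [hnear, self_mem_nhdsWithin] with z hz hs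
      have h1 := hg z hz
      have h2 : (θ - I * log (z / P)).im = -Real.log ‖z‖ := by
        simp [log_re, hP1]
      have h3 := Real.log_le_sub_one_of_pos (norm_pos_iff.mpr (hz0 z hz))
      have h4 := Cone_im_le (θ - I * log (z / P)) θ
      refine ⟨?_, by linarith⟩
      rw [h2]
      have h5 := hs.1
      have h6 := hs.2.1
      nlinarith
  refine ⟨L, (hL.comp ht).congr' ?_⟩
  filter_upwards [hnear] with z hz
  have e : (θ - I * log (z / P)) * I = θ * I + log (z / P) := by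
    linear_combination (-log (z / P)) * I_mul_I
  simp only [Function.comp]
  rw [e, exp_add, ← hP, exp_log (div_ne_zero (hz0 z hz) hP0), mul_div_cancel₀ _ hP0]

theorem mem_vals {f : ℂ → ℂ} {P : ℂ} (hP : ‖P‖ = 1) {C' δ : ℝ} (hC : C' ≤ C) (hδ : 0 < δ)
    (h : ∀ k : ℕ, w ∈ f '' stolz P C' (1 / (k + 1))) : w ∈ vals f P (stolz P C δ) := by
  have h1 : ∀ ε : ℝ, ∃ z, 0 < ε → z ∈ stolz P C δ ∧ f z = w ∧ 0 < ‖z - P‖ ∧ ‖z - P‖ < ε := by
    intro ε
    by_cases hε : 0 < ε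
    · obtain ⟨k, hk⟩ := exists_nat_one_div_lt (lt_min hε hδ)
      obtain ⟨z, hz, hf⟩ := h k
      have h2 := hz.2.2.trans hk
      refine ⟨z, fun _ => ⟨⟨hz.1, hz.2.1.trans_le (mul_le_mul_of_nonneg_right hC ?_),
        h2.trans_le (min_le_right _ _)⟩, hf, ?_, h2.trans_le (min_le_left _ _)⟩⟩
      · linarith [hz.1]
      · refine norm_pos_iff.mpr (sub_ne_zero.mpr fun e => ?_)
        have := hz.1
        rw [e, hP] at this
        exact lt_irrefl _ this
    · exact ⟨0, fun h => absurd h hε⟩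
  choose F hF using h1
  obtain ⟨r, hr0, hr⟩ : ∃ r : ℕ → ℝ, r 0 = 1 ∧ ∀ k, r (k + 1) = ‖F (r k) - P‖ / 2 :=
    ⟨fun k => Nat.rec 1 (fun _ x => ‖F x - P‖ / 2) k, rfl, fun _ => rfl⟩
  have hpos : ∀ k, 0 < r k := fun k => by
    induction k with
    | zero => rw [hr0]; exact one_pos
    | succ k ih => rw [hr]; exact half_pos (hF _ ih).2.2.1
  have hle : ∀ k, r k ≤ (1 / 2) ^ k := fun k => by
    induction k with
    | zero => rw [hr0, pow_zero]
    | succ k ih => rw [hr, pow_succ]; linarith [(hF _ (hpos k)).2.2.2]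
  have hanti : StrictAnti fun k => ‖F (r k) - P‖ := strictAnti_nat_of_succ_lt fun k => by
    have h2 := (hF _ (hpos (k + 1))).2.2.2
    have h3 := hr k
    have h4 := (hF _ (hpos k)).2.2.1
    linarith
  refine ⟨fun k => F (r k), fun a b hab => hanti.injective ?_, fun k => (hF _ (hpos k)).1, ?_,
    fun k => (hF _ (hpos k)).2.1⟩
  · exact congrArg (fun z => ‖z - P‖) hab
  · rw [tendsto_iff_norm_sub_tendsto_zero]
    exact squeeze_zero (fun _ => norm_nonneg _) (fun k => (hF _ (hpos k)).2.2.2.le.trans (hle k))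
      (tendsto_pow_atTop_nhds_zero_of_lt_one (by norm_num) (by norm_num))

theorem vals_subset (f : ℂ → ℂ) (P : ℂ) (C δ : ℝ) {δ' : ℝ} (h : 0 < δ') :
    vals f P (stolz P C δ) ⊆ f '' stolz P C δ' := by
  rintro w ⟨z, -, hz, ht, hf⟩
  obtain ⟨k, hk⟩ := (ht.eventually (Metric.ball_mem_nhds P h)).exists
  rw [dist_eq_norm] at hk
  exact ⟨z k, ⟨(hz k).1, (hz k).2.1, hk⟩, hf k⟩

end Pool.Agent.Work.MP_31144c_an
end
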