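import Pool.Agent.Work.MP_31144c_an.Cone

-- merged part: Pool.Agent.Work.MP_31144c_an.Harm
section
/-! Real parts of analytic functions.
PLAN. `Harm.log_norm`: near `z`, `log ‖g w‖ = re (log (g w / g z) + log ‖g z‖)`, `AnalyticAt.clog`.
`maxprin`: if `u z₀ > 0`, the set `A = {z ∈ U | u z₀ ≤ u z}` is compact (closed in the compact closure of `U`, since near frontier
points `u ≤ u z₀ / 2`); the set of maximum points of `u` on `A` is compact and nonempty, take one with the largest real part; `u` has a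
local maximum there, so `‖exp (g w)‖` has one, so `u` is locally constant (`Complex.eventually_eq_of_isLocalMax_norm`), move right.
`analyticAt_integral`: `hasDerivAt_integral_of_dominated_loc_of_deriv_le` at every point of the ball, `DifferentiableOn.analyticAt`. -/

namespace Pool.Agent.Work.MP_31144c_an

open Set Filter Topology MeasureTheory Complex

variable {u v : ℂ → ℝ} {z : ℂ}

theorem Harm.continuousAt (h : Harm u z) : ContinuousAt u z := by
  obtain ⟨g, hg, e⟩ := h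
  exact (continuous_re.continuousAt.comp hg.continuousAt).congr (EventuallyEq.symm e)

theorem Harm.congr (h : Harm u z) (e : u =ᶠ[𝓝 z] v) : Harm v z := by
  obtain ⟨g, hg, e'⟩ := h
  exact ⟨g, hg, by filter_upwards [e, e'] with w a b using a ▸ b⟩

theorem Harm.add (hu : Harm u z) (hv : Harm v z) : Harm (fun w => u w + v w) z := by
  obtain ⟨f, hf, e⟩ := hu
  obtain ⟨g, hg, e'⟩ := hv
  exact ⟨fun w => f w + g w, hf.add hg, by filter_upwards [e, e'] with w a b using by simp [a, b]⟩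

theorem Harm.sub (hu : Harm u z) (hv : Harm v z) : Harm (fun w => u w - v w) z := by
  obtain ⟨f, hf, e⟩ := hu
  obtain ⟨g, hg, e'⟩ := hv
  exact ⟨fun w => f w - g w, hf.sub hg, by filter_upwards [e, e'] with w a b using by simp [a, b]⟩

theorem Harm.neg (hu : Harm u z) : Harm (fun w => -u w) z := by
  obtain ⟨f, hf, e⟩ := hu
  exact ⟨fun w => -f w, hf.neg, by filter_upwards [e] with w a using by simp [a]⟩

theorem Harm.const_mul (c : ℝ) (hu : Harm u z) : Harm (fun w => c * u w) z := by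
  obtain ⟨f, hf, e⟩ := hu
  exact ⟨fun w => c * f w, analyticAt_const.mul hf, by
    filter_upwards [e] with w a using by simp [a]⟩

theorem Harm.div_const (hu : Harm u z) (c : ℝ) : Harm (fun w => u w / c) z := by
  simpa only [div_eq_inv_mul] using hu.const_mul c⁻¹

theorem harm_const (c : ℝ) (z : ℂ) : Harm (fun _ => c) z := by
  exact ⟨fun _ => c, analyticAt_const, .of_forall fun _ => rfl⟩

theorem harm_re {g : ℂ → ℂ} (hg : AnalyticAt ℂ g z) : Harm (fun w => (g w).re) z := by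
  exact ⟨g, hg, .of_forall fun _ => rfl⟩

theorem harm_im {g : ℂ → ℂ} (hg : AnalyticAt ℂ g z) : Harm (fun w => (g w).im) z := by
  exact ⟨fun w => -I * g w, analyticAt_const.mul hg, .of_forall fun _ => by simp⟩

theorem Harm.comp {g : ℂ → ℂ} (hu : Harm u (g z)) (hg : AnalyticAt ℂ g z) :
    Harm (fun w => u (g w)) z := by
  obtain ⟨f, hf, e⟩ := hu
  exact ⟨fun w => f (g w), hf.comp hg, hg.continuousAt.eventually e⟩

theorem harm_log_norm {g : ℂ → ℂ} (hg : AnalyticAt ℂ g z) (h0 : g z ≠ 0) :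
    Harm (fun w => Real.log ‖g w‖) z := by
  refine ⟨fun w => log (g w / g z) + (Real.log ‖g z‖ : ℝ),
    ((hg.div_const).clog (by simp [h0])).add analyticAt_const, ?_⟩
  filter_upwards [hg.continuousAt.eventually_ne h0] with w hw
  rw [add_re, log_re, ofReal_re, norm_div, Real.log_div (by simpa) (by simpa), sub_add_cancel]

theorem Harm_locmax (h : Harm u z) (hm : IsLocalMax u z) : ∀ᶠ w in 𝓝 z, u w = u z := by
  obtain ⟨g, hg, e⟩ := h
  have e0 := e.self_of_nhds
  have := norm_eventually_eq_of_isLocalMax (f := fun w => exp (g w))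
    (hg.cexp.eventually_analyticAt.mono fun _ h => h.differentiableAt) (by
      filter_upwards [e, hm] with w a b
      simp only [Function.comp, norm_exp, ← a, ← e0]
      exact Real.exp_le_exp.2 b)
  filter_upwards [e, this] with w a b
  rwa [norm_exp, norm_exp, Real.exp_eq_exp, ← a, ← e0] at b

theorem maxprin {U : Set ℂ} (hU : IsOpen U) (hb : Bornology.IsBounded U) (hu : ∀ z ∈ U, Harm u z)
    (hf : ∀ ζ ∈ frontier U, ∀ ε : ℝ, 0 < ε → ∀ᶠ z in 𝓝[U] ζ, u z ≤ ε) : ∀ z ∈ U, u z ≤ 0 := by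
  have hc : ∀ a ∈ U, 0 < u a → IsCompact {z ∈ U | u a ≤ u z} := fun a _ h0 => by
    refine Metric.isCompact_of_isClosed_isBounded (isClosed_of_closure_subset fun ζ hζ => ?_)
      (hb.subset fun _ h => h.1)
    have fr := mem_closure_iff_frequently.1 hζ
    by_cases h : ζ ∈ U
    · exact ⟨h, ge_of_tendsto_of_frequently (hu ζ h).continuousAt (fr.mono fun _ h => h.2)⟩
    · have := eventually_nhdsWithin_iff.1 (hf ζ (hU.frontier_eq ▸
        ⟨closure_mono (fun _ h => h.1) hζ, h⟩) _ (half_pos h0))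
      obtain ⟨w, w1, w2⟩ := (fr.and_eventually this).exists
      linarith only [h0, w1, w2, w1.2, w2 w1.1]
  intro a ha
  by_contra! h0
  obtain ⟨b, hb', hm⟩ := (hc a ha h0).exists_isMaxOn ⟨a, ha, le_rfl⟩
    fun w hw => (hu w hw.1).continuousAt.continuousWithinAt
  have hK := hc b hb'.1 (h0.trans_le hb'.2)
  have ho : IsOpen {z ∈ U | u b ≤ u z} := isOpen_iff_mem_nhds.2 fun w hw => by
    have := Harm_locmax (hu w hw.1) (by
      filter_upwards [hU.mem_nhds hw.1] with y hy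
      rcases le_total (u a) (u y) with h | h
      · exact le_trans (hm ⟨hy, h⟩) hw.2
      · exact h.trans (hb'.2.trans hw.2))
    filter_upwards [hU.mem_nhds hw.1, this] with y y1 y2 using ⟨y1, y2 ▸ hw.2⟩
  exact noncompact_univ ℂ (IsClopen.eq_univ ⟨hK.isClosed, ho⟩ ⟨b, hb'.1, le_rfl⟩ ▸ hK)

theorem analyticAt_integral {X : Type} [MeasurableSpace X] (μ : Measure X) {G G' : ℂ → X → ℂ}
    {r : ℝ} (hr : 0 < r) {bd : X → ℝ} (hi : ∀ w ∈ Metric.ball z r, Integrable (G w) μ)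
    (hm : ∀ w ∈ Metric.ball z r, AEStronglyMeasurable (G' w) μ) (hbd : Integrable bd μ)
    (hle : ∀ x, ∀ w ∈ Metric.ball z r, ‖G' w x‖ ≤ bd x)
    (hd : ∀ x, ∀ w ∈ Metric.ball z r, HasDerivAt (fun w => G w x) (G' w x) w) :
    AnalyticAt ℂ (fun w => ∫ x, G w x ∂μ) z := by
  refine DifferentiableOn.analyticAt (s := Metric.ball z r) (fun w hw => ?_)
    (Metric.ball_mem_nhds z hr)
  have hs := Metric.isOpen_ball.mem_nhds hw
  exact (hasDerivAt_integral_of_dominated_loc_of_deriv_le hs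
    (mem_of_superset hs fun y hy => (hi y hy).1) (hi w hw) (hm w hw) (.of_forall hle) hbd
    (.of_forall hd)).2.differentiableAt.differentiableWithinAt

end Pool.Agent.Work.MP_31144c_an
end

-- merged part: Pool.Agent.Work.MP_31144c_an.Pois
section
/-! The Poisson integral of the upper half plane.
PLAN. `integral_pk`: `integral_univ_inv_one_add_sq`, `integral_comp_mul_left`-type change of variables. `harm_Po`: `pk w t = re ((π I)⁻¹ * (t - w)⁻¹)`,
`analyticAt_integral` on the ball of radius `im z / 2`, `integral_re`/`reCLM.integral_comp_comm`.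
`Po_est`: `Po φ z - c = ∫ pk (φ - c)`; pointwise `pk z t |φ t - c| ≤ 1_{[θ-ρ,θ+ρ]} |φ t - c| / (π y) + M (4 y / ρ) pk ⟨x, ρ/2⟩ t`,
because for `|t - x| ≥ σ = ρ/2`, `pk z t ≤ (2 y / σ) pk ⟨x, σ⟩ t`.
`fatou`: at Lebesgue points (`IsUnifLocDoublingMeasure.ae_tendsto_average_norm_sub` or `Besicovitch`/`VitaliFamily.ae_tendsto_average_norm_sub`, or
`Real.tendsto_Icc_vitaliFamily_*`) `|φ θ| ≤ M`; take `ρ = L * im z` with `L ≥ 2 C` large. `Po_cont`: take `ρ` fixed and use `∫ pk = 1` on the near part.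
`Po_gap`: the interval `|t - re z| < k im z`, `k = min (C - 1) 1`, misses `E` and `pk z t ≥ 1 / (2 π im z)` on it; `1 / π ≥ 1 / 4`. -/

namespace Pool.Agent.Work.MP_31144c_an

open Set Filter Topology MeasureTheory Complex

variable {z : ℂ} {φ ψ : ℝ → ℝ}

theorem Pois_eq (hz : 0 < z.im) : pk z = ProbabilityTheory.cauchyPDFReal z.re ⟨z.im, hz.le⟩ := by
  funext t
  rw [ProbabilityTheory.cauchyPDFReal_def, pk, div_eq_mul_inv, mul_inv, mul_left_comm, mul_assoc]
  rfl

theorem Pois_le (hz : 0 < z.im) (t : ℝ) : pk z t ≤ 1 / (Real.pi * z.im) := by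
  rw [pk, div_le_div_iff₀ (by positivity) (by positivity)]
  linarith only [mul_nonneg Real.pi_pos.le (sq_nonneg (t - z.re)), sq_nonneg (t - z.re)]

theorem pk_nonneg (hz : 0 ≤ z.im) (t : ℝ) : 0 ≤ pk z t := by
  unfold pk
  positivity

theorem integrable_pk (hz : 0 < z.im) : Integrable (pk z) := by
  rw [Pois_eq hz]
  exact ProbabilityTheory.integrable_cauchyPDFReal _

theorem integral_pk (hz : 0 < z.im) : ∫ t, pk z t = 1 := by
  rw [Pois_eq hz]
  exact ProbabilityTheory.integral_cauchyPDFReal_eq_one _ fun h => hz.ne' (congrArg Subtype.val h)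

theorem memLp_pk (hz : 0 < z.im) : MemLp (pk z) 2 := by
  have h := integrable_pk hz
  rw [memLp_two_iff_integrable_sq h.aestronglyMeasurable]
  simp only [sq]
  exact h.mul_bdd h.aestronglyMeasurable (ae_of_all _ fun t =>
    (Real.norm_of_nonneg (pk_nonneg hz.le t)).trans_le (Pois_le hz t))

theorem integrable_pk_mul (hz : 0 < z.im) (hm : AEStronglyMeasurable φ) {M : ℝ}
    (hb : ∀ᵐ t, |φ t| ≤ M) : Integrable fun t => pk z t * φ t := by
  exact (integrable_pk hz).mul_bdd hm hb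

theorem abs_Po_le (hz : 0 < z.im) (hm : AEStronglyMeasurable φ) {M : ℝ} (hb : ∀ᵐ t, |φ t| ≤ M) :
    |Po φ z| ≤ M := by
  have h := norm_integral_le_of_norm_le (f := fun t => pk z t * φ t)
    ((integrable_pk hz).mul_const M) (hb.mono fun t ht => by
      rw [norm_mul, Real.norm_of_nonneg (pk_nonneg hz.le t)]
      exact mul_le_mul_of_nonneg_left ht (pk_nonneg hz.le t))
  rwa [integral_mul_const, integral_pk hz, one_mul] at h

theorem harm_Po (hz : 0 < z.im) (hi : Integrable φ) : Harm (Po φ) z := by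
  have r0 := half_pos hz
  have h1 : ∀ w ∈ Metric.ball z (z.im / 2), ∀ t : ℝ, z.im / 2 ≤ ‖(t : ℂ) - w‖ := fun w hw t => by
    have a1 := abs_le.1 ((abs_im_le_norm (w - z)).trans (mem_ball_iff_norm.1 hw).le)
    have a2 := abs_le.1 (abs_im_le_norm ((t : ℂ) - w))
    simp only [sub_im, ofReal_im] at a1 a2
    linarith only [a1, a2, a1.1, a2.1]
  have h2 : ∀ w ∈ Metric.ball z (z.im / 2), ∀ t : ℝ, (t : ℂ) - w ≠ 0 := fun w hw t =>
    norm_pos_iff.1 (r0.trans_le (h1 w hw t))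
  have h3 : ∀ w ∈ Metric.ball z (z.im / 2), ∀ (n : ℕ) (t : ℝ),
      ‖-I / Real.pi * ((t : ℂ) - w)⁻¹ ^ n‖ ≤ ‖-I / Real.pi‖ * (z.im / 2)⁻¹ ^ n := fun w hw n t => by
    rw [norm_mul, norm_pow, norm_inv]
    gcongr
    exact h1 w hw t
  have h4 : ∀ w ∈ Metric.ball z (z.im / 2), ∀ n : ℕ,
      Integrable fun t : ℝ => -I / Real.pi * ((t : ℂ) - w)⁻¹ ^ n * φ t := fun w hw n =>
    hi.ofReal.bdd_mul (Measurable.aestronglyMeasurable (by fun_prop)) (ae_of_all _ (h3 w hw n))
  refine ⟨_, analyticAt_integral volume r0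
    (G := fun w (t : ℝ) => -I / Real.pi * ((t : ℂ) - w)⁻¹ ^ 1 * φ t)
    (G' := fun w (t : ℝ) => -I / Real.pi * ((t : ℂ) - w)⁻¹ ^ 2 * φ t) (fun w hw => h4 w hw 1)
    (fun w hw => (h4 w hw 2).aestronglyMeasurable)
    (hi.norm.const_mul (‖-I / Real.pi‖ * (z.im / 2)⁻¹ ^ 2)) (fun t w hw => ?_)
    fun t w hw => ?_, ?_⟩
  · rw [norm_mul, norm_real]
    exact mul_le_mul_of_nonneg_right (h3 w hw 2 t) (norm_nonneg _)
  · simp only [pow_one]
    refine (((((hasDerivAt_id w).const_sub (t : ℂ)).inv (h2 w hw t)).const_mul _).mul_const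
      _).congr_deriv ?_
    simp
  · filter_upwards [Metric.ball_mem_nhds z r0] with w hw
    refine Eq.trans (integral_congr_ae (ae_of_all _ fun t => ?_))
      (reCLM.integral_comp_comm (h4 w hw 1))
    have e : normSq ((t : ℂ) - w) = (t - w.re) ^ 2 + w.im ^ 2 := by
      rw [normSq_apply]; simp; ring
    simp only [reCLM_apply, pow_one, re_mul_ofReal, pk, ← e]
    congr 1
    rw [mul_re, div_ofReal_re, div_ofReal_im, inv_re, inv_im]
    simp
    ring

theorem Pois_sub (hz : 0 < z.im) (hm : AEStronglyMeasurable φ) {M c : ℝ}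
    (hb : ∀ᵐ t, |φ t - c| ≤ M) : Po φ z - c = ∫ t, pk z t * (φ t - c) := by
  have h1 := integrable_pk_mul (φ := fun t => φ t - c) hz (hm.sub aestronglyMeasurable_const) hb
  have h2 := (integrable_pk hz).mul_const c
  have h3 : Po φ z = ∫ t, (pk z t * (φ t - c) + pk z t * c) :=
    integral_congr_ae (ae_of_all _ fun t => by ring)
  rw [h3, integral_add h1 h2, integral_mul_const, integral_pk hz]
  ring

theorem Po_est (hz : 0 < z.im) (hm : AEStronglyMeasurable φ) {M c θ ρ : ℝ} (hρ : 0 < ρ)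
    (hb : ∀ᵐ t, |φ t - c| ≤ M) (hx : |z.re - θ| ≤ ρ / 2) :
    |Po φ z - c| ≤ (∫ t in Icc (θ - ρ) (θ + ρ), pk z t * |φ t - c|) + M * (4 * z.im / ρ) := by
  have s0 : 0 < (⟨z.re, ρ / 2⟩ : ℂ).im := half_pos hρ
  have h1 := (integrable_pk_mul hz (hm.sub aestronglyMeasurable_const) hb).abs
  simp only [abs_mul, abs_of_nonneg (pk_nonneg hz.le _)] at h1
  have h2 := (integrable_pk s0).const_mul (M * (4 * z.im / ρ))
  have h3 := h1.indicator (measurableSet_Icc (a := θ - ρ) (b := θ + ρ))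
  have h := norm_integral_le_of_norm_le (f := fun t => pk z t * (φ t - c)) (h3.add h2)
    (hb.mono fun t ht => by
      have M0 := (abs_nonneg _).trans ht
      have p0 := pk_nonneg s0.le t
      rw [norm_mul, Real.norm_of_nonneg (pk_nonneg hz.le t), Real.norm_eq_abs, Pi.add_apply]
      by_cases h : t ∈ Icc (θ - ρ) (θ + ρ)
      · rw [indicator_of_mem h]
        exact le_add_of_nonneg_right (by positivity)
      · rw [indicator_of_notMem h, zero_add, mul_assoc, mul_comm]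
        refine mul_le_mul ht ?_ (pk_nonneg hz.le t) M0
        have a1 := abs_le.1 hx
        have a2 : (ρ / 2) ^ 2 ≤ (t - z.re) ^ 2 := by
          rw [mem_Icc, not_and_or, not_le, not_le] at h
          rcases h with h | h <;> linarith only [hρ, a1, h, a1.1, a1.2, mul_nonneg_of_nonpos_of_nonpos (le_of_lt (Mathlib.Tactic.Linarith.sub_neg_of_lt hρ)) (Mathlib.Tactic.Linarith.sub_nonpos_of_le a1.left), mul_pos_of_neg_of_neg (Mathlib.Tactic.Linarith.sub_neg_of_lt hρ) (Mathlib.Tactic.Linarith.sub_neg_of_lt h), mul_nonneg_of_nonpos_of_nonpos (Mathlib.Tactic.Linarith.sub_nonpos_of_le a1.left) (Mathlib.Tactic.Linarith.sub_nonpos_of_le a1.left), mul_nonneg_of_nonpos_of_nonpos (Mathlib.Tactic.Linarith.sub_nonpos_of_le a1.left) (le_of_lt (Mathlib.Tactic.Linarith.sub_neg_of_lt h)), mul_pos_of_neg_of_neg (Mathlib.Tactic.Linarith.sub_neg_of_lt h) (Mathlib.Tactic.Linarith.sub_neg_of_lt h), mul_nonneg_of_nonpos_of_nonpos (le_of_lt (Mathlib.Tactic.Linarith.sub_neg_of_lt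 hρ)) (Mathlib.Tactic.Linarith.sub_nonpos_of_le a1.right), mul_nonneg_of_nonpos_of_nonpos (Mathlib.Tactic.Linarith.sub_nonpos_of_le a1.right) (Mathlib.Tactic.Linarith.sub_nonpos_of_le a1.right), mul_nonneg_of_nonpos_of_nonpos (Mathlib.Tactic.Linarith.sub_nonpos_of_le a1.right) (le_of_lt (Mathlib.Tactic.Linarith.sub_neg_of_lt h))]
        simp only [pk]
        rw [← mul_div_assoc, show 4 * z.im / ρ * (ρ / 2) = 2 * z.im by field_simp; ring,
          div_le_div_iff₀ (by positivity) (by positivity)]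
        linarith only [a2, hz, mul_le_mul_of_nonneg_left a2 (mul_pos hz Real.pi_pos).le,
          mul_nonneg (mul_pos hz Real.pi_pos).le (sq_nonneg z.im), sq_nonneg z.im])
  simp only [Pi.add_apply] at h
  rwa [integral_add h3 h2, integral_indicator measurableSet_Icc, integral_const_mul,
    integral_pk s0, mul_one, ← Pois_sub hz hm hb] at h

theorem fatou (hm : AEStronglyMeasurable φ) {M : ℝ} (hb : ∀ᵐ t, |φ t| ≤ M) :
    ∀ᵐ θ : ℝ, ∀ C : ℝ, 0 < C → Tendsto (Po φ) (𝓝[cone θ C 1] θ) (𝓝 (φ θ)) := by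
  have hl : LocallyIntegrable φ := (memLp_top_of_bound hm M hb).locallyIntegrable le_top
  filter_upwards [IsUnifLocDoublingMeasure.ae_tendsto_average_norm_sub volume hl 1, hb]
    with θ h1 h2 C hC
  have M0 := (abs_nonneg _).trans h2
  have hb2 : ∀ᵐ t, |φ t - φ θ| ≤ 2 * M := hb.mono fun t ht =>
    (abs_sub _ _).trans (by linarith only [h2, ht])
  have c0 : ∀ w ∈ cone θ C 1, 0 < w.im := fun w hw =>
    (mul_pos_iff_of_pos_left hC).1 ((norm_nonneg _).trans_lt hw.1)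
  refine Metric.tendsto_nhds.2 fun ε hε => ?_
  obtain ⟨L, l1, l2⟩ : ∃ L : ℝ, 2 * C ≤ L ∧ 16 * M / ε < L :=
    ⟨2 * C + 16 * M / ε, le_add_of_nonneg_right (by positivity), by linarith only [hC]⟩
  have L0 : 0 < L := by linarith only [hC, l1]
  have t1 : Tendsto (fun w : ℂ => L * w.im) (𝓝[cone θ C 1] θ) (𝓝[>] 0) :=
    tendsto_nhdsWithin_iff.2 ⟨((continuous_const.mul continuous_im).tendsto' _ _
      (by simp)).mono_left nhdsWithin_le_nhds,
      eventually_nhdsWithin_of_forall fun w hw => mul_pos L0 (c0 w hw)⟩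
  have t2 := (h1 (fun _ => θ) _ t1 (eventually_nhdsWithin_of_forall fun w hw =>
    Metric.mem_closedBall_self (by have := c0 w hw; positivity))).const_mul (2 * L / Real.pi)
  rw [mul_zero] at t2
  filter_upwards [t2.eventually_lt_const (half_pos hε), self_mem_nhdsWithin] with w h3 hw
  have y0 := c0 w hw
  have r0 := mul_pos L0 y0
  have h4 := Po_est y0 hm r0 hb2 (θ := θ) (by
    have := (abs_re_le_norm (w - θ)).trans hw.1.le
    rw [sub_re, ofReal_re] at this
    linarith only [this, l1, y0, mul_nonneg_of_nonpos_of_nonpos (Mathlib.Tactic.Linarith.sub_nonpos_of_le l1) (le_of_lt (Mathlib.Tactic.Linarith.sub_neg_of_lt y0))])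
  have h5 : ∫ t in Icc (θ - L * w.im) (θ + L * w.im), pk w t * |φ t - φ θ| ≤
      ∫ t in Icc (θ - L * w.im) (θ + L * w.im), 1 / (Real.pi * w.im) * ‖φ t - φ θ‖ :=
    integral_mono_of_nonneg (ae_of_all _ fun t => mul_nonneg (pk_nonneg y0.le t) (abs_nonneg _))
      (((hl.integrableOn_isCompact isCompact_Icc).sub (integrable_const _)).norm.const_mul _)
      (ae_of_all _ fun t => mul_le_mul_of_nonneg_right (Pois_le y0 t) (abs_nonneg _))
  rw [Real.closedBall_eq_Icc, setAverage_eq, Real.volume_real_Icc_of_le (by linarith only [r0]),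
    smul_eq_mul, ← mul_assoc, show 2 * L / Real.pi * (θ + L * w.im - (θ - L * w.im))⁻¹ =
      1 / (Real.pi * w.im) by
        rw [show θ + L * w.im - (θ - L * w.im) = 2 * L * w.im by ring]; field_simp] at h3
  rw [integral_const_mul] at h5
  have h6 : 2 * M * (4 * w.im / (L * w.im)) < ε / 2 := by
    rw [mul_div_mul_right _ _ y0.ne', ← mul_div_assoc, div_lt_iff₀ L0]
    rw [div_lt_iff₀ hε] at l2
    linarith only [l2]
  rw [Real.dist_eq]
  linarith only [h3, h4, h5, h6]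

theorem Po_cont (hm : AEStronglyMeasurable φ) {M : ℝ} (hb : ∀ t, |φ t| ≤ M) {θ : ℝ}
    (hc : ContinuousAt φ θ) : Tendsto (Po φ) (𝓝[{w | 0 < w.im}] θ) (𝓝 (φ θ)) := by
  have hb2 : ∀ᵐ t, |φ t - φ θ| ≤ 2 * M := ae_of_all _ fun t =>
    (abs_sub _ _).trans (by linarith only [hb, hb t, hb θ])
  refine Metric.tendsto_nhds.2 fun ε hε => ?_
  obtain ⟨ρ, r0, hρ⟩ := Metric.nhds_basis_closedBall.eventually_iff.1
    (Metric.tendsto_nhds.1 hc _ (half_pos hε))
  have t1 : Tendsto (fun w : ℂ => 2 * M * (4 * w.im / ρ)) (𝓝 θ) (𝓝 0) :=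
    Continuous.tendsto' (by fun_prop) _ _ (by simp)
  have t2 : Tendsto (fun w : ℂ => |w.re - θ|) (𝓝 θ) (𝓝 0) :=
    Continuous.tendsto' (by fun_prop) _ _ (by simp)
  filter_upwards [nhdsWithin_le_nhds (t1.eventually_lt_const (half_pos hε)),
    nhdsWithin_le_nhds (t2.eventually_le_const (half_pos r0)), self_mem_nhdsWithin]
    with w h1 h2 hw
  have h3 := Po_est hw hm r0 hb2 h2
  have h4 := (integrable_pk hw).mul_const (ε / 2)
  have h5 : ∫ t in Icc (θ - ρ) (θ + ρ), pk w t * |φ t - φ θ| ≤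
      ∫ t in Icc (θ - ρ) (θ + ρ), pk w t * (ε / 2) :=
    integral_mono_of_nonneg (ae_of_all _ fun t => mul_nonneg (pk_nonneg hw.le t) (abs_nonneg _))
      h4.integrableOn ((ae_restrict_mem measurableSet_Icc).mono fun t ht =>
        mul_le_mul_of_nonneg_left (hρ (Real.closedBall_eq_Icc ▸ ht)).le (pk_nonneg hw.le t))
  have h6 := setIntegral_le_integral (s := Icc (θ - ρ) (θ + ρ)) h4
    (ae_of_all _ fun t => mul_nonneg (pk_nonneg hw.le t) (half_pos hε).le)
  rw [integral_mul_const (ε / 2) (μ := volume), integral_pk hw, one_mul] at h6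
  rw [Real.dist_eq]
  exact h3.trans_lt (by linarith only [h1, h5, h6, show 2 * M * (4 * w.im / ρ) < ε / 2 from h1])

theorem Po_gap {E : Set ℝ} (hE : MeasurableSet E) {C : ℝ} (hC : 1 < C) (hz : 0 < z.im)
    (h : ∀ θ ∈ E, C * z.im ≤ ‖z - θ‖) : min (C - 1) 1 / 4 ≤ 1 - Po (E.indicator 1) z := by
  have k0 : 0 < min (C - 1) 1 := lt_min (by linarith) one_pos
  have k1 := min_le_left (C - 1) 1
  have k2 := min_le_right (C - 1) 1
  generalize min (C - 1) 1 = k at *
  have r0 := mul_pos k0 hz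
  have hb : ∀ t, |E.indicator (1 : ℝ → ℝ) t - 1| ≤ 1 := fun t => by
    by_cases ht : t ∈ E <;> simp [ht]
  have hm : AEStronglyMeasurable (E.indicator (1 : ℝ → ℝ)) :=
    aestronglyMeasurable_const.indicator hE
  have h1 := integral_mono (g := fun t => -(pk z t * (E.indicator 1 t - 1)))
    ((integrableOn_const (C := 1 / (2 * Real.pi * z.im)) (μ := volume)
      (s := Ioo (z.re - k * z.im) (z.re + k * z.im)) measure_Ioo_lt_top.ne).integrable_indicator
      measurableSet_Ioo)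
    (integrable_pk_mul hz (hm.sub aestronglyMeasurable_const) (ae_of_all _ hb)).neg fun t => by
      by_cases ht : t ∈ Ioo (z.re - k * z.im) (z.re + k * z.im)
      · have a1 : |z.re - t| < k * z.im := abs_lt.2 ⟨by linarith only [ht, ht.2], by linarith [ht.1]⟩
        have a2 : t ∉ E := fun hE => by
          have := (h t hE).trans (norm_le_abs_re_add_abs_im _)
          rw [sub_re, sub_im, ofReal_re, ofReal_im, sub_zero, abs_of_pos hz] at this
          linarith only [a1, this, hz, k1, mul_nonneg_of_nonpos_of_nonpos (le_of_lt (Mathlib.Tactic.Linarith.sub_neg_of_lt hz)) (Mathlib.Tactic.Linarith.sub_nonpos_of_le k1)]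
        have a3 : (t - z.re) ^ 2 ≤ z.im ^ 2 :=
          sq_le_sq' (by linarith only [ht, hz, k2, ht.1, mul_nonneg_of_nonpos_of_nonpos (le_of_lt (Mathlib.Tactic.Linarith.sub_neg_of_lt hz)) (Mathlib.Tactic.Linarith.sub_nonpos_of_le k2)]) (by linarith only [ht, hz, k2, ht.2, mul_nonneg_of_nonpos_of_nonpos (le_of_lt (Mathlib.Tactic.Linarith.sub_neg_of_lt hz)) (Mathlib.Tactic.Linarith.sub_nonpos_of_le k2)])
        simp only [indicator_of_mem ht, indicator_of_notMem a2, zero_sub, mul_neg, neg_neg, mul_one]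
        rw [pk, div_le_div_iff₀ (by positivity) (by positivity)]
        linarith only [a3, mul_le_mul_of_nonneg_left a3 Real.pi_pos.le]
      · have := pk_nonneg hz.le t
        by_cases ht2 : t ∈ E <;> simp [ht, ht2, this]
  rw [integral_neg, ← Pois_sub hz hm (ae_of_all _ hb), integral_indicator measurableSet_Ioo,
    setIntegral_const, Real.volume_real_Ioo_of_le (by linarith only [r0]), smul_eq_mul, neg_sub] at h1
  refine le_trans ?_ h1
  rw [show z.re + k * z.im - (z.re - k * z.im) = 2 * k * z.im by ring, mul_one_div,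
    div_le_div_iff₀ (by norm_num) (by positivity)]
  linarith only [r0, mul_le_mul_of_nonneg_left Real.pi_le_four r0.le]

end Pool.Agent.Work.MP_31144c_an
end

-- merged part: Pool.Agent.Work.MP_31144c_an.Comp
section
/-! Comparison, and the theorems of Calderon and Privalov (steps A1-A3 of the paper).
PLAN. `comp`: `maxprin` on `reg E C h` for `Po φ - 2 M Bar - u`. Frontier points with `im ≤ 0` are points of `E` (`real_of_closure_reg`, `Po_cont`,
`Bar ≥ 0`); at the others `Bar` is continuous with value `≥ 1` (`Po_gap`). `weak_limit`: `WeakDual.isCompact_closedBall` in `Lp ℝ 2`,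
`IsCompact.ultrafilter_le_nhds` for `hyperfilter ℕ`, `InnerProductSpace.toDual`; the bound by testing with indicators
(`AEFinStronglyMeasurable.ae_nonneg_of_forall_setIntegral_nonneg` or `ae_nonneg_of_forall_setIntegral_nonneg_of_sigmaFinite`).
`bar_tendsto`: `fatou` for the indicator of `E`, `Po_gap`. `calderon`: `φ k = indicator {t | t + ε k I ∈ reg E C h} (u (t + ε k I))`, `ε k = h / 2 / (k + 1)`,
`comp` with `h / 2` for `u (· + ε k I)` and its negative. `privalov`: the same with `min u M` and `ε k = 1 / (k + 1)`, dominated convergence for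
`indicator E₂ (φ k) ≤ φ k`. -/

namespace Pool.Agent.Work.MP_31144c_an

open Set Filter Topology MeasureTheory Complex

variable {E : Set ℝ} {C h : ℝ} {u : ℂ → ℝ}

theorem Comp_im_pos (hC : 1 < C) {z : ℂ} (hz : z ∈ reg E C h) : 0 < z.im := by
  obtain ⟨θ, -, hθ⟩ := hz
  exact im_pos_of_cone (by linarith only [hC]) hθ

theorem Comp_ind_meas (hE : MeasurableSet E) : AEStronglyMeasurable (E.indicator (1 : ℝ → ℝ)) :=
  aestronglyMeasurable_const.indicator hE

theorem Comp_ind_bd (E : Set ℝ) (t : ℝ) : |E.indicator (1 : ℝ → ℝ) t| ≤ 1 := by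
  by_cases ht : t ∈ E <;> simp [ht]

theorem Comp_gap_pos (hC : 1 < C) : 0 < min (C - 1) 1 / 4 := by
  have : 0 < min (C - 1) 1 := lt_min (by linarith only [hC]) one_pos
  positivity

theorem Comp_first_nonneg (hE : MeasurableSet E) (hC : 1 < C) {z : ℂ} (hz : 0 < z.im) :
    0 ≤ (1 - Po (E.indicator 1) z) / (min (C - 1) 1 / 4) := by
  have h1 := abs_Po_le hz (Comp_ind_meas hE) (Eventually.of_forall (Comp_ind_bd E))
  exact div_nonneg (by linarith only [h1, le_abs_self (Po (E.indicator 1) z)]) (Comp_gap_pos hC).le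

theorem Comp_bar_nonneg (hE : MeasurableSet E) (hC : 1 < C) (hh : 0 < h) {z : ℂ} (hz : 0 < z.im) :
    0 ≤ Bar E C h z :=
  add_nonneg (Comp_first_nonneg hE hC hz) (div_nonneg hz.le hh.le)

theorem Comp_bar_ge (hE : MeasurableSet E) (hC : 1 < C) (hh : 0 < h) {z : ℂ} (hz : 0 < z.im)
    (hn : z ∉ reg E C h) : 1 ≤ Bar E C h z := by
  unfold Bar
  by_cases hy : z.im < h
  · have h1 : ∀ θ ∈ E, C * z.im ≤ ‖z - θ‖ := fun θ hθ => by
      by_contra hlt
      exact hn ⟨θ, hθ, lt_of_not_ge hlt, hy⟩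
    have h2 := (one_le_div (Comp_gap_pos hC)).2 (Po_gap hE hC hz h1)
    have h3 : 0 ≤ z.im / h := div_nonneg hz.le hh.le
    linarith only [h2, h3]
  · have h2 := Comp_first_nonneg hE hC hz
    have h3 : 1 ≤ z.im / h := (one_le_div hh).2 (le_of_not_gt hy)
    linarith only [h2, h3]

theorem Comp_harm_bar (hE : IsCompact E) (C h : ℝ) {z : ℂ} (hz : 0 < z.im) : Harm (Bar E C h) z := by
  have hi : Integrable (E.indicator (1 : ℝ → ℝ)) :=
    (integrable_indicator_iff hE.measurableSet).2 (integrableOn_const hE.measure_lt_top.ne)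
  exact (((harm_const 1 z).sub (harm_Po hz hi)).div_const _).add
    ((harm_im analyticAt_id).div_const h)

theorem Comp_shift (hC : 1 < C) {z : ℂ} (hz : z ∈ reg E C (h / 2)) {ε : ℝ} (h0 : 0 ≤ ε)
    (hε : ε ≤ h / 2) : z + ε * I ∈ reg E C h := by
  have := shift_mem_reg hC hz h0 hε
  rwa [show 2 * (h / 2) = h by ring] at this

theorem Comp_slice (hC : 1 < C) {M R ε : ℝ} (hM : 0 ≤ M) {w : ℂ → ℝ}
    (hw : ∀ z ∈ reg E C h, ContinuousAt w z ∧ |w z| ≤ M) (h0 : 0 < ε) (hε : ε < h)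
    (hR : reg E C h ⊆ Metric.closedBall 0 R) :
    ∃ φ : ℝ → ℝ, AEStronglyMeasurable φ ∧ (∀ t, |φ t| ≤ M) ∧ (∀ t, t ∉ Icc (-R) R → φ t = 0) ∧
      Integrable φ ∧ (∀ θ ∈ E, ContinuousAt φ θ ∧ φ θ = w (θ + ε * I)) ∧
      ((∀ z ∈ reg E C h, 0 ≤ w z) → ∀ t, 0 ≤ φ t) := by
  have hc : Continuous fun t : ℝ => (t : ℂ) + ε * I := by fun_prop
  set S : Set ℝ := {t : ℝ | (t : ℂ) + ε * I ∈ reg E C h} with hS
  have hSo : IsOpen S := (isOpen_reg E C h).preimage hc
  have hca : ∀ t ∈ S, ContinuousAt (fun t : ℝ => w (t + ε * I)) t := fun t ht =>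
    ContinuousAt.comp (f := fun t : ℝ => (t : ℂ) + ε * I) (hw _ ht).1 hc.continuousAt
  have hm : AEStronglyMeasurable (S.indicator fun t : ℝ => w (t + ε * I)) :=
    (aestronglyMeasurable_indicator_iff hSo.measurableSet).2
      (ContinuousOn.aestronglyMeasurable (fun t ht => (hca t ht).continuousWithinAt)
        hSo.measurableSet)
  have hb : ∀ t, |S.indicator (fun t : ℝ => w (t + ε * I)) t| ≤ M := fun t => by
    by_cases ht : t ∈ S
    · rw [indicator_of_mem ht]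
      exact (hw _ ht).2
    · rw [indicator_of_notMem ht, abs_zero]
      exact hM
  have hz : ∀ t, t ∉ Icc (-R) R → S.indicator (fun t : ℝ => w (t + ε * I)) t = 0 := fun t ht => by
    refine indicator_of_notMem (fun hs => ht ?_) _
    have h1 : ‖(t : ℂ) + ε * I‖ ≤ R := by simpa using hR hs
    have h2 := abs_re_le_norm ((t : ℂ) + ε * I)
    have h3 : ((t : ℂ) + ε * I).re = t := by simp
    rw [h3] at h2
    exact abs_le.1 (h2.trans h1)
  refine ⟨_, hm, hb, hz, ?_, fun θ hθ => ?_, fun hp t => ?_⟩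
  · have hi : Integrable ((Icc (-R) R).indicator fun _ : ℝ => M) :=
      (integrable_indicator_iff measurableSet_Icc).2 (integrableOn_const measure_Icc_lt_top.ne)
    refine hi.mono' hm (Eventually.of_forall fun t => ?_)
    by_cases ht : t ∈ Icc (-R) R
    · rw [indicator_of_mem ht]
      exact hb t
    · rw [indicator_of_notMem ht, hz t ht, norm_zero]
  · have hθS : θ ∈ S := ⟨θ, hθ, vert_mem_cone hC h0 hε⟩
    refine ⟨(hca θ hθS).congr ?_, indicator_of_mem hθS _⟩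
    filter_upwards [hSo.mem_nhds hθS] with t ht
    rw [indicator_of_mem ht]
  · by_cases ht : t ∈ S
    · rw [indicator_of_mem ht]
      exact hp _ ht
    · rw [indicator_of_notMem ht]

theorem Comp_inner {f g : ℝ → ℝ} (hg : MemLp g 2) (F : Lp ℝ 2 (volume : Measure ℝ))
    (hF : F =ᵐ[volume] f) : inner ℝ F (hg.toLp g) = ∫ t, g t * f t := by
  rw [L2.inner_def]
  refine integral_congr_ae ?_
  filter_upwards [hF, hg.coeFn_toLp] with t h1 h2
  rw [h1, h2]
  simp

theorem comp (hE : IsCompact E) (hC : 1 < C) (hh : 0 < h) {M : ℝ} {φ : ℝ → ℝ}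
    (hu : ∀ z ∈ reg E C h, Harm u z ∧ -M ≤ u z) (hi : Integrable φ) (hb : ∀ t, |φ t| ≤ M)
    (hc : ∀ θ ∈ E, ContinuousAt u θ ∧ ContinuousAt φ θ ∧ φ θ ≤ u θ) :
    ∀ z ∈ reg E C h, Po φ z - 2 * M * Bar E C h z ≤ u z := by
  have hM : 0 ≤ M := (abs_nonneg _).trans (hb 0)
  have hEm := hE.measurableSet
  have key := maxprin (u := fun z => Po φ z - 2 * M * Bar E C h z - u z) (isOpen_reg E C h)
    (isBounded_reg hE.isBounded (by linarith only [hC]) h) (fun z hz => ?_) (fun ζ hζ ε hε => ?_)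
  · intro z hz
    linarith [key z hz]
  · have hy := Comp_im_pos hC hz
    exact ((harm_Po hy hi).sub ((Comp_harm_bar hE C h hy).const_mul _)).sub (hu z hz).1
  · rw [(isOpen_reg E C h).frontier_eq] at hζ
    rcases le_or_gt ζ.im 0 with h0 | h0
    · obtain ⟨θ, hθ, rfl⟩ := real_of_closure_reg hE.isClosed (by linarith) hζ.1 h0
      obtain ⟨h1, h2, h3⟩ := hc θ hθ
      have h4 : Tendsto (Po φ) (𝓝[reg E C h] θ) (𝓝 (φ θ)) :=
        (Po_cont hi.1 hb h2).mono_left (nhdsWithin_mono _ fun z hz => Comp_im_pos hC hz)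
      have h5 : Tendsto u (𝓝[reg E C h] θ) (𝓝 (u θ)) := h1.tendsto.mono_left nhdsWithin_le_nhds
      have h6 := (h4.sub h5).eventually (gt_mem_nhds (show φ θ - u θ < ε by linarith))
      filter_upwards [h6, self_mem_nhdsWithin] with z h7 hz
      have h8 := Comp_bar_nonneg hEm hC hh (Comp_im_pos hC hz)
      have h9 : 0 ≤ 2 * M * Bar E C h z := by positivity
      linarith only [h7, h9]
    · have h1 := Comp_bar_ge hEm hC hh h0 hζ.2
      have h2 : Tendsto (fun z => 2 * M - 2 * M * Bar E C h z) (𝓝[reg E C h] ζ)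
          (𝓝 (2 * M - 2 * M * Bar E C h ζ)) :=
        (tendsto_const_nhds.sub ((Comp_harm_bar hE C h h0).continuousAt.tendsto.const_mul _)).mono_left
          nhdsWithin_le_nhds
      have h3 : 2 * M - 2 * M * Bar E C h ζ < ε := by linarith only [hε, hM, h1, mul_nonneg_of_nonpos_of_nonpos (Mathlib.Tactic.Linarith.sub_nonpos_of_le hM) (Mathlib.Tactic.Linarith.sub_nonpos_of_le h1)]
      filter_upwards [h2.eventually (gt_mem_nhds h3), self_mem_nhdsWithin] with z h7 hz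
      have h8 := abs_Po_le (Comp_im_pos hC hz) hi.1 (Eventually.of_forall hb)
      have h9 := (hu z hz).2
      linarith only [h7, h8, h9, le_abs_self (Po φ z)]

theorem weak_limit {φ : ℕ → ℝ → ℝ} {M a b : ℝ} (hm : ∀ k, AEStronglyMeasurable (φ k))
    (hb : ∀ k t, |φ k t| ≤ M) (hs : ∀ k t, t ∉ Icc a b → φ k t = 0) :
    ∃ ψ : ℝ → ℝ, AEStronglyMeasurable ψ ∧ (∀ᵐ t, |ψ t| ≤ M) ∧ ∀ g : ℝ → ℝ, MemLp g 2 →
      Tendsto (fun k => ∫ t, g t * φ k t) (hyperfilter ℕ) (𝓝 (∫ t, g t * ψ t)) := by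
  have hM : 0 ≤ M := (abs_nonneg _).trans (hb 0 0)
  have hG : MemLp ((Icc a b).indicator fun _ : ℝ => M) 2 :=
    memLp_indicator_const 2 measurableSet_Icc M (Or.inr measure_Icc_lt_top.ne)
  have hle : ∀ k t, ‖φ k t‖ ≤ ‖(Icc a b).indicator (fun _ : ℝ => M) t‖ := fun k t => by
    by_cases ht : t ∈ Icc a b
    · rw [indicator_of_mem ht, Real.norm_eq_abs, Real.norm_eq_abs, abs_of_nonneg hM]
      exact hb k t
    · rw [indicator_of_notMem ht, hs k t ht]
  have hL : ∀ k, MemLp (φ k) 2 := fun k => hG.of_le (hm k) (Eventually.of_forall (hle k))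
  let T : ℕ → WeakDual ℝ (Lp ℝ 2 (volume : Measure ℝ)) := fun k =>
    StrongDual.toWeakDual (InnerProductSpace.toDual ℝ _ ((hL k).toLp (φ k)))
  have hT : ∀ k, T k ∈ WeakDual.toStrongDual ⁻¹' Metric.closedBall 0 ‖hG.toLp _‖ := fun k => by
    have h1 : ‖(hL k).toLp (φ k)‖ ≤ ‖hG.toLp _‖ := by
      refine Lp.norm_le_norm_of_ae_le ?_
      filter_upwards [(hL k).coeFn_toLp, hG.coeFn_toLp] with t h1 h2
      rw [h1, h2]
      exact hle k t
    have h2 : WeakDual.toStrongDual (T k) = InnerProductSpace.toDual ℝ _ ((hL k).toLp (φ k)) := rfl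
    rw [mem_preimage, h2, mem_closedBall_zero_iff, LinearIsometryEquiv.norm_map]
    exact h1
  obtain ⟨L, -, hLim⟩ := (WeakDual.isCompact_closedBall 0 ‖hG.toLp _‖).ultrafilter_le_nhds'
    ((hyperfilter ℕ).map T) (Ultrafilter.mem_map.2 (Eventually.of_forall hT))
  set Ψ : Lp ℝ 2 (volume : Measure ℝ) :=
    (InnerProductSpace.toDual ℝ _).symm (WeakDual.toStrongDual L) with hΨ
  have hlim : ∀ g : ℝ → ℝ, MemLp g 2 →
      Tendsto (fun k => ∫ t, g t * φ k t) (hyperfilter ℕ) (𝓝 (∫ t, g t * Ψ t)) := fun g hg => by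
    have h1 : Tendsto T (hyperfilter ℕ) (𝓝 L) := hLim
    have h2 := ((WeakDual.eval_continuous (hg.toLp g)).tendsto L).comp h1
    have h3 : L (hg.toLp g) = ∫ t, g t * Ψ t := by
      rw [← Comp_inner hg Ψ EventuallyEq.rfl, hΨ, InnerProductSpace.toDual_symm_apply]
      rfl
    rw [h3] at h2
    refine h2.congr fun k => ?_
    rw [← Comp_inner hg ((hL k).toLp (φ k)) (hL k).coeFn_toLp]
    rfl
  have hbd : ∀ σ : ℝ, |σ| ≤ 1 → 0 ≤ᵐ[volume] fun t => M - σ * Ψ t := fun σ hσ => by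
    have hi : ∀ s : Set ℝ, volume s < ⊤ → IntegrableOn (fun t => σ * Ψ t) s := fun s hs =>
      (integrableOn_Lp_of_measure_ne_top Ψ (by norm_num) hs.ne).const_mul σ
    refine ae_nonneg_of_forall_setIntegral_nonneg_of_sigmaFinite
      (fun s _ hs => (integrableOn_const hs.ne).sub (hi s hs)) fun s hsm hs => ?_
    have e : ∀ f : ℝ → ℝ, ∫ t, s.indicator (fun _ => σ) t * f t = ∫ t in s, σ * f t := fun f => by
      rw [← integral_indicator hsm]
      refine integral_congr_ae (Eventually.of_forall fun t => ?_)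
      by_cases ht : t ∈ s <;> simp [ht]
    have h1 := hlim _ (memLp_indicator_const 2 hsm σ (Or.inr hs.ne))
    simp only [e] at h1
    have hcM : Integrable (fun _ : ℝ => M) (volume.restrict s) := integrableOn_const hs.ne
    rw [integral_sub hcM (hi s hs), sub_nonneg]
    refine le_of_tendsto' h1 fun k => ?_
    have hk : IntegrableOn (fun t => σ * φ k t) s := by
      have : Fact (volume s < ⊤) := ⟨hs⟩
      exact (((hL k).restrict s).integrable (by norm_num)).const_mul σ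
    refine integral_mono hk hcM fun t => ?_
    have h2 : |σ * φ k t| ≤ 1 * M := by
      rw [abs_mul]
      exact mul_le_mul hσ (hb k t) (abs_nonneg _) zero_le_one
    have h3 := le_abs_self (σ * φ k t)
    show σ * φ k t ≤ M
    linarith only [h2, h3]
  refine ⟨Ψ, Lp.aestronglyMeasurable Ψ, ?_, hlim⟩
  filter_upwards [hbd 1 (by simp), hbd (-1) (by simp)] with t h1 h2
  have h3 : 0 ≤ M - 1 * Ψ t := h1
  have h4 : 0 ≤ M - -1 * Ψ t := h2
  exact abs_le.2 ⟨by linarith only [h4], by linarith only [h3]⟩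

theorem bar_tendsto (hE : MeasurableSet E) (hC : 1 < C) (hh : 0 < h) : ∀ᵐ θ : ℝ, θ ∈ E →
    ∀ C' : ℝ, 0 < C' → Tendsto (Bar E C h) (𝓝[cone θ C' 1] θ) (𝓝 0) ∧
      ∀ᶠ z in 𝓝[cone θ C' 1] θ, z ∈ reg E C h := by
  filter_upwards [fatou (Comp_ind_meas hE) (Eventually.of_forall (Comp_ind_bd E))] with θ hf hθ C' hC'
  have h1 := hf C' hC'
  rw [indicator_of_mem hθ, Pi.one_apply] at h1
  have h2 : Tendsto (fun z : ℂ => z.im) (𝓝[cone θ C' 1] θ) (𝓝 0) := by
    have := (continuous_im.tendsto (θ : ℂ)).mono_left (nhdsWithin_le_nhds (s := cone θ C' 1))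
    rwa [ofReal_im] at this
  have h3 : Tendsto (Bar E C h) (𝓝[cone θ C' 1] θ) (𝓝 0) := by
    have := ((h1.const_sub 1).div_const (min (C - 1) 1 / 4)).add (h2.div_const h)
    rw [sub_self, zero_div, zero_div, add_zero] at this
    exact this
  refine ⟨h3, ?_⟩
  filter_upwards [h3.eventually (gt_mem_nhds one_pos), self_mem_nhdsWithin] with z h4 hz
  by_contra hn
  exact absurd (Comp_bar_ge hE hC hh (im_pos_of_cone hC' hz) hn) (not_le.2 h4)

theorem Comp_comp_shift (hE : IsCompact E) (hC : 1 < C) (hh : 0 < h) {M ε : ℝ} {φ : ℝ → ℝ}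
    (hu : ∀ z ∈ reg E C h, Harm u z ∧ -M ≤ u z) (hi : Integrable φ) (hb : ∀ t, |φ t| ≤ M)
    (h0 : 0 < ε) (hε : ε ≤ h / 2) (hc : ∀ θ ∈ E, ContinuousAt φ θ ∧ φ θ ≤ u (θ + ε * I)) :
    ∀ z ∈ reg E C (h / 2), Po φ z - 2 * M * Bar E C (h / 2) z ≤ u (z + ε * I) := by
  have ha : ∀ z : ℂ, AnalyticAt ℂ (fun w : ℂ => w + ε * I) z := fun z => by fun_prop
  refine comp (u := fun z => u (z + ε * I)) hE hC (half_pos hh) (fun z hz => ?_) hi hb
    fun θ hθ => ⟨?_, (hc θ hθ).1, (hc θ hθ).2⟩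
  · have h1 := hu _ (Comp_shift hC hz h0.le hε)
    exact ⟨Harm.comp (g := fun w : ℂ => w + ε * I) h1.1 (ha z), h1.2⟩
  · have h1 := hu _ ⟨θ, hθ, vert_mem_cone hC h0 (show ε < h by linarith only [h0, hε])⟩
    exact (Harm.comp (g := fun w : ℂ => w + ε * I) h1.1 (ha θ)).continuousAt

theorem Comp_tendsto_shift {z : ℂ} (hz : ContinuousAt u z) {ε : ℕ → ℝ}
    (hε : Tendsto ε atTop (𝓝 0)) : Tendsto (fun k => u (z + ε k * I)) atTop (𝓝 (u z)) := by
  have hc : Continuous fun t : ℝ => z + (t : ℂ) * I := by fun_prop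
  have h1 := (hc.tendsto 0).comp hε
  simp only [ofReal_zero, zero_mul, add_zero] at h1
  exact hz.tendsto.comp h1

theorem Comp_mono (hC : 1 < C) (hh : 0 < h) : reg E C (h / 2) ⊆ reg E C h := by
  rintro z ⟨θ, hθ, hz⟩
  exact ⟨θ, hθ, cone_mono (by linarith only [hC]) le_rfl (half_lt_self hh).le hz⟩

theorem calderon (hE : IsCompact E) (hC : 1 < C) (hh : 0 < h) {M : ℝ}
    (hu : ∀ z ∈ reg E C h, Harm u z ∧ |u z| ≤ M) : ∀ᵐ θ : ℝ, θ ∈ E → NT u θ := by
  rcases E.eq_empty_or_nonempty with rfl | ⟨θ₀, hθ₀⟩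
  · exact Eventually.of_forall fun θ hθ => absurd hθ (notMem_empty θ)
  have hM : 0 ≤ M := (abs_nonneg _).trans
    (hu _ ⟨θ₀, hθ₀, vert_mem_cone hC (half_pos hh) (half_lt_self hh)⟩).2
  obtain ⟨R, hR⟩ := (isBounded_reg hE.isBounded (show 0 < C by linarith) h).subset_closedBall 0
  let ε : ℕ → ℝ := fun k => h / 2 * (1 / ((k : ℝ) + 1))
  have h0 : ∀ k, 0 < ε k := fun k => by positivity
  have h1 : ∀ k, ε k ≤ h / 2 := fun k => by
    have : 1 / ((k : ℝ) + 1) ≤ 1 := by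
      rw [div_le_one (by positivity)]
      linarith only [(Nat.cast_nonneg k : (0 : ℝ) ≤ k)]
    exact mul_le_of_le_one_right (half_pos hh).le this
  have h2 : Tendsto ε atTop (𝓝 0) := by
    have := tendsto_one_div_add_atTop_nhds_zero_nat (𝕜 := ℝ).const_mul (h / 2)
    rwa [mul_zero] at this
  choose φ hm hb hs hi hc _ using fun k => Comp_slice hC hM
    (fun z hz => ⟨(hu z hz).1.continuousAt, (hu z hz).2⟩) (h0 k)
    ((h1 k).trans_lt (half_lt_self hh)) hR
  obtain ⟨ψ, hψm, hψb, hψ⟩ := weak_limit hm hb hs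
  have est : ∀ z ∈ reg E C (h / 2), |u z - Po ψ z| ≤ 2 * M * Bar E C (h / 2) z := fun z hz => by
    have a1 := (Comp_tendsto_shift (hu z (Comp_mono hC hh hz)).1.continuousAt h2).mono_left
      Nat.hyperfilter_le_atTop
    have a2 : Tendsto (fun k => Po (φ k) z) (hyperfilter ℕ) (𝓝 (Po ψ z)) :=
      hψ _ (memLp_pk (Comp_im_pos hC hz))
    refine le_of_tendsto' (a1.sub a2).abs fun k => ?_
    have b1 := Comp_comp_shift hE hC hh (fun z hz => ⟨(hu z hz).1, (abs_le.1 (hu z hz).2).1⟩)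
      (hi k) (hb k) (h0 k) (h1 k) (fun θ hθ => ⟨(hc k θ hθ).1, (hc k θ hθ).2.le⟩) z hz
    have b2 := Comp_comp_shift (u := fun z => -u z) (φ := fun t => -φ k t) hE hC hh
      (fun z hz => ⟨(hu z hz).1.neg, neg_le_neg (abs_le.1 (hu z hz).2).2⟩) (hi k).neg
      (fun t => by rw [abs_neg]; exact hb k t) (h0 k) (h1 k)
      (fun θ hθ => ⟨(hc k θ hθ).1.neg, (neg_le_neg (hc k θ hθ).2.ge)⟩) z hz
    have b3 : Po (fun t => -φ k t) z = -Po (φ k) z := by
      unfold Po
      rw [← integral_neg]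
      simp only [mul_neg]
    rw [b3] at b2
    exact abs_le.2 ⟨by linarith only [b1], by linarith only [b2]⟩
  filter_upwards [fatou hψm hψb, bar_tendsto hE.measurableSet hC (half_pos hh)] with θ f1 f2 hθ C' hC'
  obtain ⟨g1, g2⟩ := f2 hθ C' (by linarith)
  refine ⟨ψ θ, ?_⟩
  have g3 : Tendsto (fun z => u z - Po ψ z) (𝓝[cone θ C' 1] θ) (𝓝 0) := by
    have g4 := g1.const_mul (2 * M)
    rw [mul_zero] at g4
    exact squeeze_zero_norm' (g2.mono fun z hz => est z hz) g4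
  have g5 := g3.add (f1 C' (by linarith))
  rw [zero_add] at g5
  exact g5.congr fun z => sub_add_cancel _ _

theorem privalov (hE : IsCompact E) (hC : 1 < C) (hh : 0 < h)
    (hu : ∀ z ∈ reg E C h, Harm u z ∧ 0 ≤ u z) {E₂ : Set ℝ} (hm : MeasurableSet E₂) (hs : E₂ ⊆ E)
    (ht : ∀ θ ∈ E₂, Tendsto (fun k : ℕ => u (θ + ((1 / (k + 1) : ℝ) : ℂ) * I)) atTop atTop) :
    volume E₂ = 0 := by
  obtain ⟨R, hR⟩ := (isBounded_reg hE.isBounded (show 0 < C by linarith only [hC]) h).subset_closedBall 0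
  obtain ⟨N, hN⟩ := exists_nat_one_div_lt (half_pos hh)
  let ε : ℕ → ℝ := fun k => 1 / (((k + N : ℕ) : ℝ) + 1)
  have h0 : ∀ k, 0 < ε k := fun k => by positivity
  have h1 : ∀ k, ε k ≤ h / 2 := fun k =>
    (Nat.one_div_le_one_div (Nat.le_add_left N k)).trans hN.le
  have h2 : Tendsto ε atTop (𝓝 0) :=
    (tendsto_one_div_add_atTop_nhds_zero_nat (𝕜 := ℝ)).comp (tendsto_add_atTop_nat N)
  have est : ∀ z ∈ reg E C (h / 2), ∀ M : ℝ, 0 ≤ M →
      M * Po (E₂.indicator 1) z - 2 * M * Bar E C (h / 2) z ≤ u z := fun z hz M hM => by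
    have hy := Comp_im_pos hC hz
    choose φ hφm hb _ hi hc hp using fun k => Comp_slice (w := fun z => min (u z) M) hC hM
      (fun z hz => ⟨(hu z hz).1.continuousAt.min continuousAt_const,
        abs_le.2 ⟨(neg_nonpos.2 hM).trans (le_min (hu z hz).2 hM), min_le_right _ _⟩⟩) (h0 k)
      ((h1 k).trans_lt (half_lt_self hh)) hR
    have hib : ∀ k t, |E₂.indicator (φ k) t| ≤ M := fun k t => by
      by_cases ht : t ∈ E₂
      · rw [indicator_of_mem ht]
        exact hb k t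
      · rw [indicator_of_notMem ht, abs_zero]
        exact hM
    have hii : ∀ k, Integrable fun t => pk z t * E₂.indicator (φ k) t := fun k =>
      integrable_pk_mul hy ((hφm k).indicator hm) (Eventually.of_forall (hib k))
    have a1 := Comp_tendsto_shift (hu z (Comp_mono hC hh hz)).1.continuousAt h2
    have a2 : Tendsto (fun k => ∫ t, pk z t * E₂.indicator (φ k) t) atTop
        (𝓝 (∫ t, M * (pk z t * E₂.indicator 1 t))) := by
      refine tendsto_integral_filter_of_dominated_convergence (fun t => pk z t * M)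
        (Eventually.of_forall fun k => (hii k).1)
        (Eventually.of_forall fun k => Eventually.of_forall fun t => ?_)
        ((integrable_pk hy).mul_const M) (Eventually.of_forall fun t => ?_)
      · rw [Real.norm_eq_abs, abs_mul, abs_of_nonneg (pk_nonneg hy.le t)]
        exact mul_le_mul_of_nonneg_left (hib k t) (pk_nonneg hy.le t)
      · by_cases hx : t ∈ E₂
        · have c1 := ((ht t hx).comp (tendsto_add_atTop_nat N)).eventually_ge_atTop M
          refine tendsto_const_nhds.congr' ?_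
          filter_upwards [c1] with k hk
          have c2 : φ k t = M := by
            rw [(hc k t (hs hx)).2]
            exact min_eq_right hk
          rw [indicator_of_mem hx, indicator_of_mem hx, c2, Pi.one_apply]
          ring
        · simp only [indicator_of_notMem hx, mul_zero]
          exact tendsto_const_nhds
    rw [integral_const_mul] at a2
    refine le_of_tendsto_of_tendsto' (a2.sub_const _) a1 fun k => ?_
    have b1 := Comp_comp_shift hE hC hh
      (fun z hz => ⟨(hu z hz).1, (neg_nonpos.2 hM).trans (hu z hz).2⟩) (hi k) (hb k) (h0 k) (h1 k)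
      (fun θ hθ => ⟨(hc k θ hθ).1, (hc k θ hθ).2.le.trans (min_le_left _ _)⟩) z hz
    have b2 : ∫ t, pk z t * E₂.indicator (φ k) t ≤ Po (φ k) z := by
      refine integral_mono (hii k) (integrable_pk_mul hy (hφm k) (Eventually.of_forall (hb k)))
        fun t => mul_le_mul_of_nonneg_left ?_ (pk_nonneg hy.le t)
      exact indicator_le_self' (fun t _ => hp k (fun z hz => le_min (hu z hz).2 hM) t) t
    linarith only [b1, b2]
  have est2 : ∀ z ∈ reg E C (h / 2), Po (E₂.indicator 1) z ≤ 2 * Bar E C (h / 2) z := fun z hz => by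
    by_contra hn
    have d0 : 0 < Po (E₂.indicator 1) z - 2 * Bar E C (h / 2) z := by linarith only [hn, not_le.1 hn]
    have u0 := (hu z (Comp_mono hC hh hz)).2
    have e1 := est z hz ((u z + 1) / (Po (E₂.indicator 1) z - 2 * Bar E C (h / 2) z))
      (by positivity)
    have e2 := div_mul_cancel₀ (u z + 1) d0.ne'
    linarith only [e1, e2]
  rw [measure_eq_zero_iff_ae_notMem]
  filter_upwards [fatou (Comp_ind_meas hm) (Eventually.of_forall (Comp_ind_bd E₂)),
    bar_tendsto hE.measurableSet hC (half_pos hh)] with θ f1 f2 hθ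
  obtain ⟨g1, g2⟩ := f2 (hs hθ) 2 two_pos
  have g3 := f1 2 two_pos
  rw [indicator_of_mem hθ, Pi.one_apply] at g3
  have := neBot_cone (θ := θ) one_lt_two
  have g4 := le_of_tendsto_of_tendsto g3 (g1.const_mul 2) (g2.mono fun z hz => est2 z hz)
  linarith only [g4]

end Pool.Agent.Work.MP_31144c_an
end

-- merged part: Pool.Agent.Work.MP_31144c_an.Omit
section
/-! Omitting a set `K` on cones forces limits (step A5).
PLAN. `nt_of_bdd`: for `N, n`, the set `{θ ∈ [-n, n] | ‖F‖ ≤ N on cone θ 2 (1 / (N + 1))}` is compact (`isClosed_omit`); `calderon` for `re F`, `im F`.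
`not_tendsto_inf`: `E = {θ ∈ [-n, n] | 1 ≤ ‖F‖ on cone θ 2 (1 / (N + 1))}`, `u = log ‖F‖`, `E₂ = E ∩ {θ | ‖F (θ + I / (k + 1))‖ → ∞}` is measurable
(`measurableSet_tendsto`), `privalov`, `tendsto_vert`. `dichotomy`: intermediate values on the convex set `cone θ 2 (1 / (N + 1))`
(`IsPreconnected.intermediate_value`), a positive lower bound for `|v₁| + |v₂|` on a large circle. -/

namespace Pool.Agent.Work.MP_31144c_an

open Set Filter Topology MeasureTheory Complex

variable {F : ℂ → ℂ}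

theorem Omit_cpt (n : ℕ) (C h : ℝ) (p : ℂ → Prop) :
    IsCompact (Icc (-(n : ℝ)) n ∩ {θ : ℝ | ∀ z ∈ cone θ C h, p z}) :=
  isCompact_Icc.inter_right (isClosed_omit C h p)

theorem Omit_mem (θ : ℝ) : θ ∈ Icc (-(⌈|θ|⌉₊ : ℝ)) ⌈|θ|⌉₊ :=
  abs_le.1 (Nat.le_ceil _)

theorem Omit_an (hF : DifferentiableOn ℂ F {w | 0 < w.im}) {z : ℂ} (hz : 0 < z.im) :
    AnalyticAt ℂ F z :=
  hF.analyticAt ((isOpen_lt continuous_const continuous_im).mem_nhds hz)

theorem nt_of_bdd (hF : DifferentiableOn ℂ F {w | 0 < w.im}) : ∀ᵐ θ : ℝ,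
    (∃ A : ℝ, ∀ᶠ z in 𝓝[cone θ 2 1] θ, ‖F z‖ ≤ A) → NT F θ := by
  have key : ∀ N M n : ℕ, ∀ᵐ θ : ℝ, θ ∈ Icc (-(n : ℝ)) n ∩
      {θ : ℝ | ∀ z ∈ cone θ 2 (1 / (N + 1)), ‖F z‖ ≤ M} → NT F θ := by
    intro N M n
    have h1 := calderon (u := fun z => (F z).re) (M := M)
      (Omit_cpt n 2 (1 / (N + 1)) fun z => ‖F z‖ ≤ M) one_lt_two (by positivity)
      fun z ⟨θ, hθ, hz⟩ => ⟨harm_re (Omit_an hF (im_pos_of_cone two_pos hz)),
        (abs_re_le_norm _).trans (hθ.2 z hz)⟩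
    have h2 := calderon (u := fun z => (F z).im) (M := M)
      (Omit_cpt n 2 (1 / (N + 1)) fun z => ‖F z‖ ≤ M) one_lt_two (by positivity)
      fun z ⟨θ, hθ, hz⟩ => ⟨harm_im (Omit_an hF (im_pos_of_cone two_pos hz)),
        (abs_im_le_norm _).trans (hθ.2 z hz)⟩
    filter_upwards [h1, h2] with θ a b hθ C hC
    obtain ⟨x, hx⟩ := a hθ C hC
    obtain ⟨y, hy⟩ := b hθ C hC
    refine ⟨x + y * I, ?_⟩
    have := ((continuous_ofReal.tendsto _).comp hx).add
      (((continuous_ofReal.tendsto _).comp hy).mul_const I)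
    exact this.congr fun z => re_add_im (F z)
  have k2 := ae_all_iff.2 fun N => ae_all_iff.2 fun M => ae_all_iff.2 fun n => key N M n
  filter_upwards [k2] with θ hθ ⟨A, hA⟩
  obtain ⟨N, hN⟩ := (eventually_cone two_pos).1 hA
  exact hθ N ⌈A⌉₊ _ ⟨Omit_mem θ, fun z hz => (hN z hz).trans (Nat.le_ceil A)⟩

theorem not_tendsto_inf (hF : DifferentiableOn ℂ F {w | 0 < w.im}) : ∀ᵐ θ : ℝ,
    ¬ Tendsto (fun z => ‖F z‖) (𝓝[cone θ 2 1] θ) atTop := by
  have hm : MeasurableSet {θ : ℝ | Tendsto (fun k : ℕ =>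
      Real.log ‖F (θ + ((1 / (k + 1) : ℝ) : ℂ) * I)‖) atTop atTop} := by
    refine measurableSet_tendsto atTop fun k => Real.measurable_log.comp (Continuous.measurable ?_)
    refine (hF.continuousOn.comp_continuous (by fun_prop) fun θ => ?_).norm
    have : (0 : ℝ) < 1 / (k + 1) := by positivity
    simpa only [mem_ofPred_eq, add_im, ofReal_im, mul_im, ofReal_re, I_im, I_re, mul_one, mul_zero,
      add_zero, zero_add] using this
  have key : ∀ N n : ℕ, ∀ᵐ θ : ℝ, θ ∉ (Icc (-(n : ℝ)) n ∩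
      {θ : ℝ | ∀ z ∈ cone θ 2 (1 / (N + 1)), 1 ≤ ‖F z‖}) ∩ {θ : ℝ | Tendsto (fun k : ℕ =>
      Real.log ‖F (θ + ((1 / (k + 1) : ℝ) : ℂ) * I)‖) atTop atTop} := by
    intro N n
    have hc := Omit_cpt n 2 (1 / (N + 1)) fun z => 1 ≤ ‖F z‖
    refine measure_eq_zero_iff_ae_notMem.1 (privalov (u := fun z => Real.log ‖F z‖) hc one_lt_two
      (h := 1 / (N + 1)) (by positivity) (fun z ⟨θ, hθ, hz⟩ => ⟨harm_log_norm
        (Omit_an hF (im_pos_of_cone two_pos hz)) fun h0 => ?_, Real.log_nonneg (hθ.2 z hz)⟩)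
      (hc.measurableSet.inter hm) inter_subset_left fun θ hθ => hθ.2)
    have := hθ.2 z hz
    rw [h0, norm_zero] at this
    exact absurd this (by norm_num)
  have k2 := ae_all_iff.2 fun N => ae_all_iff.2 fun n => key N n
  filter_upwards [k2] with θ hθ ht
  obtain ⟨N, hN⟩ := (eventually_cone two_pos).1 (ht.eventually_ge_atTop 1)
  exact hθ N _ ⟨⟨Omit_mem θ, hN⟩,
    Real.tendsto_log_atTop.comp (ht.comp (tendsto_vert one_lt_two))⟩

theorem dichotomy (hF : DifferentiableOn ℂ F {w | 0 < w.im}) {K : Set ℂ} (hK : IsCompact K)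
    {v₁ v₂ : ℂ → ℝ} (hv : ∀ w, w ∉ K → ContinuousAt v₁ w ∧ ContinuousAt v₂ w ∧ (v₁ w ≠ 0 ∨ v₂ w ≠ 0))
    (h₁ : Tendsto v₁ (Bornology.cobounded ℂ) (𝓝 0)) (h₂ : Tendsto v₂ (Bornology.cobounded ℂ) (𝓝 0))
    {θ : ℝ} (n₁ : NT (fun z => v₁ (F z)) θ) (n₂ : NT (fun z => v₂ (F z)) θ) :
    (∃ A : ℝ, ∀ᶠ z in 𝓝[cone θ 2 1] θ, ‖F z‖ ≤ A) ∨
      Tendsto (fun z => ‖F z‖) (𝓝[cone θ 2 1] θ) atTop := by
  by_contra hcon
  rw [not_or, not_exists, tendsto_atTop, not_forall] at hcon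
  obtain ⟨hu, A₀, hA₀⟩ := hcon
  have hu' : ∀ A : ℝ, ∃ᶠ z in 𝓝[cone θ 2 1] θ, A ≤ ‖F z‖ := fun A =>
    (not_eventually.1 (hu A)).mono fun z hz => (not_le.1 hz).le
  have hb : (comap (fun z => ‖F z‖) atTop ⊓ 𝓝[cone θ 2 1] (θ : ℂ)).NeBot := by
    rw [(atTop_basis.comap fun z => ‖F z‖).inf_neBot_iff]
    intro A _ s hs
    obtain ⟨z, h1, h2⟩ := ((hu' A).and_eventually hs).exists
    exact ⟨z, h1, h2⟩
  have hT : Tendsto F (comap (fun z => ‖F z‖) atTop ⊓ 𝓝[cone θ 2 1] (θ : ℂ))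
      (Bornology.cobounded ℂ) :=
    tendsto_norm_atTop_iff_cobounded.1 (tendsto_comap.mono_left inf_le_left)
  obtain ⟨c₁, t₁⟩ := n₁ 2 one_lt_two
  obtain ⟨c₂, t₂⟩ := n₂ 2 one_lt_two
  obtain rfl : c₁ = 0 := tendsto_nhds_unique (t₁.mono_left inf_le_right) (h₁.comp hT)
  obtain rfl : c₂ = 0 := tendsto_nhds_unique (t₂.mono_left inf_le_right) (h₂.comp hT)
  obtain ⟨A, hA, hKA⟩ := hK.isBounded.subset_ball_lt A₀ 0
  have hs : ∀ w ∈ Metric.sphere (0 : ℂ) A, w ∉ K := fun w hw hk => by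
    have := hKA hk
    rw [mem_sphere_zero_iff_norm] at hw
    rw [mem_ball_zero_iff, hw] at this
    exact lt_irrefl _ this
  obtain ⟨c, hc, hcs⟩ := (isCompact_sphere (0 : ℂ) A).exists_forall_le'
    (f := fun w => |v₁ w| + |v₂ w|) (a := 0)
    (fun w hw => ((hv w (hs w hw)).1.abs.add (hv w (hs w hw)).2.1.abs).continuousWithinAt)
    fun w hw => by
      rcases (hv w (hs w hw)).2.2 with h | h
      · exact add_pos_of_pos_of_nonneg (abs_pos.2 h) (abs_nonneg _)
      · exact add_pos_of_nonneg_of_pos (abs_nonneg _) (abs_pos.2 h)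
  have t₃ := t₁.abs.add t₂.abs
  rw [abs_zero, add_zero] at t₃
  obtain ⟨N, hN⟩ := (eventually_cone two_pos).1 (t₃.eventually_lt_const hc)
  have he : ∀ᶠ z in 𝓝[cone θ 2 1] θ, z ∈ cone θ 2 (1 / (N + 1)) :=
    (eventually_cone two_pos).2 ⟨N, fun z hz => hz⟩
  obtain ⟨a, ha, ha'⟩ := ((not_eventually.1 hA₀).and_eventually he).exists
  obtain ⟨b, hb, hb'⟩ := ((hu' A).and_eventually he).exists
  obtain ⟨z, hz, hzA⟩ := (convex_cone θ 2 (1 / (N + 1))).isPreconnected.intermediate_value ha' hb'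
    (f := fun z => ‖F z‖) (hF.continuousOn.mono fun z hz => im_pos_of_cone two_pos hz).norm
    ⟨((not_le.1 ha).trans hA).le, hb⟩
  exact absurd (hN z hz) (not_lt.2 (hcs _ (mem_sphere_zero_iff_norm.2 hzA)))

theorem nt_of_omit (hF : DifferentiableOn ℂ F {w | 0 < w.im}) {K : Set ℂ} (hK : Sep K) {C h : ℝ}
    (hC : 1 < C) (hh : 0 < h) : ∀ᵐ θ : ℝ, (∀ z ∈ cone θ C h, F z ∉ K) → NT F θ := by
  obtain ⟨hKc, v₁, v₂, B, hv, h₁, h₂⟩ := hK
  have key : ∀ n : ℕ, ∀ᵐ θ : ℝ, θ ∈ Icc (-(n : ℝ)) n ∩ {θ : ℝ | ∀ z ∈ cone θ C h, F z ∉ K} →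
      NT (fun z => v₁ (F z)) θ ∧ NT (fun z => v₂ (F z)) θ := by
    intro n
    have a := calderon (u := fun z => v₁ (F z)) (M := B) (Omit_cpt n C h fun z => F z ∉ K) hC hh
      fun z ⟨θ, hθ, hz⟩ => ⟨(hv _ (hθ.2 z hz)).1.comp
        (Omit_an hF (im_pos_of_cone (zero_lt_one.trans hC) hz)), (hv _ (hθ.2 z hz)).2.2.1⟩
    have b := calderon (u := fun z => v₂ (F z)) (M := B) (Omit_cpt n C h fun z => F z ∉ K) hC hh
      fun z ⟨θ, hθ, hz⟩ => ⟨(hv _ (hθ.2 z hz)).2.1.comp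
        (Omit_an hF (im_pos_of_cone (zero_lt_one.trans hC) hz)), (hv _ (hθ.2 z hz)).2.2.2.1⟩
    filter_upwards [a, b] with θ a b hθ using ⟨a hθ, b hθ⟩
  filter_upwards [ae_all_iff.2 key, nt_of_bdd hF, not_tendsto_inf hF] with θ a b c hθ
  obtain ⟨n₁, n₂⟩ := a _ ⟨Omit_mem θ, hθ⟩
  exact b ((dichotomy hF hKc (fun w hw => ⟨(hv w hw).1.continuousAt, (hv w hw).2.1.continuousAt,
    (hv w hw).2.2.2.2⟩) h₁ h₂ n₁ n₂).resolve_right c)

theorem typeA_of_omit {f : ℂ → ℂ} (hf : DifferentiableOn ℂ f (Metric.ball 0 1)) {K : Set ℂ}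
    (hK : Sep K) {C δ : ℝ} (hC : 1 < C) (hδ : 0 < δ) : ∀ᵐ θ : ℝ,
      (∀ z ∈ stolz (exp (θ * I)) C δ, f z ∉ K) → TypeA f (exp (θ * I)) := by
  obtain ⟨C₁, h, h1, h2, h3⟩ := cone_to_stolz hC hδ
  have hF : DifferentiableOn ℂ (fun w => f (exp (w * I))) {w | 0 < w.im} := by
    refine hf.comp (Differentiable.differentiableOn (by fun_prop)) fun w hw => ?_
    rw [mem_ball_zero_iff, norm_exp, Real.exp_lt_one_iff]
    simpa using hw
  filter_upwards [nt_of_omit hF hK h1 h2] with θ a hθ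
  exact typeA_of_NT (a fun z hz => hθ _ (h3 θ z hz))

end Pool.Agent.Work.MP_31144c_an
end

-- merged part: Pool.Agent.Work.MP_31144c_an.Cantor
section
/-! The Cantor set and its potential (step A4).
PLAN. `l (i + j) ≤ l j / 4 ^ i`, so `0 ≤ cx l ε ≤ 4 / 3 * l 0`. `cx_split`: `Summable.sum_add_tsum_nat_add`. `exists_pot`: `μ = Measure.infinitePi` of the uniform
measure on `Bool`, `p w = ∫ log ‖w - cx l ε‖`. Harmonic: near `w₀ ∉ K`, `p w = re ∫ (log (1 + (w - w₀) / (w₀ - x)) + log ‖w₀ - x‖)` on a ball of radius half the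
distance to `K`, `analyticAt_integral`. Lower bound: the set `A j = {ε | ‖w - cx l ε‖ < l j / 4}` lies in one cylinder of length `j + 1` (`cx_far`,
`Measure.infinitePi_pi`), and if `l J / 4 ≤ a` then `- log a ≤ |log (l 0 / 4)| + ∑ j < J, 1[a < l j / 4] |log (l (j + 1) / 4)|` (induction on `J`).
`sep_Kc`: `p` for `sh 2 l`, `v₁ w = p w - p (w - l 1)`, `v₂ w = p w - p (w - l 0)`; the translates of `Kc (sh 2 l)` by `0`, `l 1`, `l 0` lie in `Kc l`
(`cx_split` with `i = 2`); strict comparison from compactness of the tail set or an explicit constant. -/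

namespace Pool.Agent.Work.MP_31144c_an

open Set Filter Topology MeasureTheory Complex

variable {l : ℕ → ℝ}

theorem Scale.sh (h : Scale l) (j : ℕ) : Scale (sh j l) := by
  refine ⟨fun i => h.pos _, fun i => ?_, ?_⟩
  · have := h.sep (i + j)
    rwa [Nat.add_right_comm] at this
  · refine (((summable_nat_add_iff j).2 h.sum).mul_left (2 ^ j)).congr fun i => ?_
    rw [pow_add, mul_comm _ ((1 / 2 : ℝ) ^ j), ← mul_assoc, ← mul_assoc, ← mul_pow]
    norm_num [Pool.Agent.Work.MP_31144c_an.sh]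

theorem Scale.le_pow (h : Scale l) (i j : ℕ) : l (i + j) ≤ l j / 4 ^ i := by
  induction i with
  | zero => simp
  | succ i ih =>
    have := h.sep (i + j)
    rw [Nat.add_right_comm, pow_succ, ← div_div]
    linarith only [ih, this]

theorem Scale.tendsto (h : Scale l) : Tendsto l atTop (𝓝 0) := by
  refine squeeze_zero (fun j => (h.pos j).le) (fun j => h.le_pow j 0) ?_
  exact tendsto_const_nhds.div_atTop (tendsto_pow_atTop_atTop_of_one_lt (by norm_num))

theorem Cantor_term (h : Scale l) (ε : ℕ → Bool) (j : ℕ) :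
    0 ≤ (if ε j then l j else 0) ∧ (if ε j then l j else 0) ≤ l 0 * (1 / 4) ^ j := by
  have h1 := h.le_pow j 0
  have h2 := (h.pos j).le
  rw [one_div, inv_pow, ← div_eq_mul_inv]
  split_ifs
  · exact ⟨h2, h1⟩
  · exact ⟨le_rfl, h2.trans h1⟩

theorem Cantor_geom (c : ℝ) : HasSum (fun j : ℕ => c * (1 / 4 : ℝ) ^ j) (4 / 3 * c) := by
  have := (hasSum_geometric_of_lt_one (r := 1 / 4) (by norm_num) (by norm_num)).mul_left c
  rwa [show c * (1 - 1 / 4 : ℝ)⁻¹ = 4 / 3 * c by ring] at this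

theorem Cantor_sum (h : Scale l) (ε : ℕ → Bool) : Summable fun j => if ε j then l j else 0 :=
  .of_nonneg_of_le (fun j => (Cantor_term h ε j).1) (fun j => (Cantor_term h ε j).2)
    (Cantor_geom _).summable

theorem cx_mem (h : Scale l) (ε : ℕ → Bool) : 0 ≤ cx l ε ∧ cx l ε ≤ 4 / 3 * l 0 := by
  exact ⟨tsum_nonneg fun j => (Cantor_term h ε j).1,
    hasSum_le (fun j => (Cantor_term h ε j).2) (Cantor_sum h ε).hasSum (Cantor_geom _)⟩

theorem cx_split (h : Scale l) (ε : ℕ → Bool) (i : ℕ) : cx l ε =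
    ∑ k ∈ Finset.range i, (if ε k then l k else 0) + cx (sh i l) fun k => ε (k + i) := by
  exact ((Cantor_sum h ε).sum_add_tsum_nat_add i).symm

theorem continuous_cx (h : Scale l) : Continuous (cx l) := by
  refine continuous_tsum (fun j => ?_) (Cantor_geom (l 0)).summable fun j ε => ?_
  · exact (continuous_of_discreteTopology (f := fun b : Bool => if b then l j else 0)).comp
      (continuous_apply j)
  · rw [Real.norm_of_nonneg (Cantor_term h ε j).1]
    exact (Cantor_term h ε j).2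

theorem cx_far (h : Scale l) {ε ε' : ℕ → Bool} {j : ℕ} (hj : |cx l ε - cx l ε'| < l j / 2) :
    ∀ k ≤ j, ε k = ε' k := by
  intro k
  induction k using Nat.strong_induction_on with
  | _ k ih =>
    intro hk
    have h1 := cx_mem (h.sh (k + 1)) fun i => ε (i + (k + 1))
    have h2 := cx_mem (h.sh (k + 1)) fun i => ε' (i + (k + 1))
    have h3 : sh (k + 1) l 0 = l (k + 1) := congrArg l (Nat.zero_add _)
    have h4 := h.sep k
    have h5 : l j ≤ l k := by
      have := h.le_pow (j - k) k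
      rw [Nat.sub_add_cancel hk] at this
      exact this.trans (div_le_self (h.pos k).le (one_le_pow₀ (by norm_num)))
    have h6 : ∑ i ∈ Finset.range k, (if ε i then l i else 0) =
        ∑ i ∈ Finset.range k, (if ε' i then l i else 0) := Finset.sum_congr rfl fun i hi => by
      rw [ih i (Finset.mem_range.1 hi) ((Finset.mem_range.1 hi).le.trans hk)]
    have h7 := h.pos k
    rw [cx_split h ε (k + 1), cx_split h ε' (k + 1), Finset.sum_range_succ, Finset.sum_range_succ,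
      h6, abs_lt] at hj
    rw [h3] at h1 h2
    cases e : ε k <;> cases e' : ε' k <;> simp only [e, e', if_true, if_false,
      Bool.false_eq_true] at hj ⊢ <;> linarith only [h1, h2, h4, h5, h7, hj, hj.1, hj.2, h1.1, h1.2, h2.1, h2.2]

theorem isCompact_Kc (h : Scale l) : IsCompact (Kc l) := by
  exact isCompact_range (continuous_ofReal.comp (continuous_cx h))

theorem Kc_cover (h : Scale l) (i : ℕ) : ∃ F : Finset ℂ, F.card ≤ 2 ^ i ∧
    ∀ x ∈ Kc l, ∃ τ ∈ F, ‖x - τ‖ ≤ 2 * l i := by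
  classical
  refine ⟨Finset.univ.image fun δ : Fin i → Bool =>
    ((∑ k : Fin i, if δ k then l k else 0 : ℝ) : ℂ), Finset.card_image_le.trans (by simp), ?_⟩
  rintro _ ⟨ε, rfl⟩
  refine ⟨_, Finset.mem_image_of_mem _ (Finset.mem_univ fun k : Fin i => ε k), ?_⟩
  have h1 := cx_mem (h.sh i) fun k => ε (k + i)
  have h2 : sh i l 0 = l i := congrArg l (Nat.zero_add _)
  rw [Fin.sum_univ_eq_sum_range (fun k => if ε k then l k else 0) i, ← ofReal_sub,
    cx_split h ε i, add_sub_cancel_left, norm_real, Real.norm_of_nonneg h1.1]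
  linarith only [h1, h2, h1.2, h.pos i]

/-- The fair coin tossing measure. -/
noncomputable def Cantor_mu : Measure (ℕ → Bool) :=
  Measure.infinitePi fun _ => (PMF.uniformOfFintype Bool).toMeasure

instance Cantor_prob : IsProbabilityMeasure Cantor_mu := by
  unfold Cantor_mu
  infer_instance

theorem Cantor_int {E : Type} [NormedAddCommGroup E] {f : (ℕ → Bool) → E} (hf : Continuous f) :
    Integrable f Cantor_mu :=
  hf.integrable_of_hasCompactSupport (HasCompactSupport.of_compactSpace f)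

theorem Cantor_small (h : Scale l) (w : ℂ) (j : ℕ) :
    Cantor_mu.real {ε | ‖w - cx l ε‖ < l j / 4} ≤ (1 / 2) ^ (j + 1) := by
  rcases Set.eq_empty_or_nonempty {ε | ‖w - cx l ε‖ < l j / 4} with e | ⟨ε0, h0⟩
  · rw [e, measureReal_empty]
    positivity
  have h1 : {ε | ‖w - cx l ε‖ < l j / 4} ⊆ Set.pi (Finset.range (j + 1)) fun k => {ε0 k} :=
    fun ε hε k hk => cx_far h (j := j) (by
      have := norm_sub_le (w - cx l ε0) (w - cx l ε)
      rw [sub_sub_sub_cancel_left, ← ofReal_sub, norm_real, Real.norm_eq_abs] at this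
      linarith only [this, hε, h0, mem_ofPred.1 hε, mem_ofPred.1 h0]) k (Nat.lt_succ_iff.1 (Finset.mem_range.1 hk))
  refine (measureReal_mono h1).trans_eq ?_
  rw [measureReal_def, Cantor_mu, Measure.infinitePi_pi _ fun _ _ => measurableSet_singleton _]
  simp

theorem Cantor_log (h : Scale l) {a : ℝ} (J : ℕ) (ha : l J / 4 ≤ a) :
    -Real.log a ≤ |Real.log (l 0)| + 3 + ∑ j ∈ Finset.range J,
      {b : ℝ | b < l j / 4}.indicator (fun _ => |Real.log (l (j + 1))| + 3) a := by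
  have h1 : ∀ i, l i / 4 ≤ a → -Real.log a ≤ |Real.log (l i)| + 3 := fun i hi => by
    have h2 := Real.log_le_log (div_pos (h.pos i) four_pos) hi
    rw [Real.log_div (h.pos i).ne' four_ne_zero] at h2
    linarith only [h2, Real.log_le_sub_one_of_pos four_pos, neg_abs_le (Real.log (l i))]
  have h0 : ∀ j, 0 ≤ {b : ℝ | b < l j / 4}.indicator (fun _ => |Real.log (l (j + 1))| + 3) a :=
    fun j => indicator_nonneg (fun _ _ => by positivity) a
  induction J with
  | zero => simpa using h1 0 ha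
  | succ J ih =>
    rw [Finset.sum_range_succ]
    rcases le_or_gt (l J / 4) a with h2 | h2
    · linarith only [ih, h2, h0, ih h2, h0 J]
    · rw [indicator_of_mem (show a ∈ {b : ℝ | b < l J / 4} from h2)]
      linarith only [h1, ha, h0, h1 _ ha, Finset.sum_nonneg fun j (_ : j ∈ Finset.range J) => h0 j,
        abs_nonneg (Real.log (l 0))]

theorem Cantor_dist (h : Scale l) {w : ℂ} (hw : w ∉ Kc l) :
    ∃ r : ℝ, 0 < r ∧ ∀ ε, 2 * r ≤ ‖w - cx l ε‖ := by
  obtain ⟨r, hr, h1⟩ := Metric.isOpen_iff.1 (isCompact_Kc h).isClosed.isOpen_compl w hw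
  refine ⟨r / 2, half_pos hr, fun ε => not_lt.1 fun h2 => h1 (a := cx l ε) ?_ ⟨ε, rfl⟩⟩
  rw [mem_ball_iff_norm']
  linarith only [h2]

theorem Cantor_cont (h : Scale l) {w : ℂ} (hw : w ∉ Kc l) :
    Continuous fun ε => Real.log ‖w - cx l ε‖ :=
  (continuous_const.sub (continuous_ofReal.comp (continuous_cx h))).norm.log fun ε e =>
    hw ⟨ε, (sub_eq_zero.1 (norm_eq_zero.1 e)).symm⟩

theorem Cantor_harm (h : Scale l) {z : ℂ} (hz : z ∉ Kc l) :
    Harm (fun w => ∫ ε, Real.log ‖w - cx l ε‖ ∂Cantor_mu) z := by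
  obtain ⟨r, hr, h1⟩ := Cantor_dist h hz
  have hc : Continuous fun ε => ((cx l ε : ℝ) : ℂ) := continuous_ofReal.comp (continuous_cx h)
  have h2 : ∀ ε, z - cx l ε ≠ 0 := fun ε => norm_pos_iff.1 (by linarith only [hr, h1, h1 ε])
  have h3 : ∀ w ∈ Metric.ball z r, ∀ ε, r ≤ ‖w - cx l ε‖ := fun w hw ε => by
    have := norm_sub_le (w - cx l ε) (w - z)
    rw [sub_sub_sub_cancel_left] at this
    linarith only [this, h1, hw, h1 ε, mem_ball_iff_norm.1 hw]
  have h4 : ∀ w ∈ Metric.ball z r, ∀ ε, w - cx l ε ≠ 0 := fun w hw ε =>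
    norm_pos_iff.1 (hr.trans_le (h3 w hw ε))
  have h5 : ∀ w ∈ Metric.ball z r, ∀ ε, (w - cx l ε) / (z - cx l ε) ∈ slitPlane := fun w hw ε => by
    rw [show (w - cx l ε) / (z - cx l ε) = 1 + (w - z) / (z - cx l ε) by field_simp [h2 ε]; ring]
    refine mem_slitPlane_of_norm_lt_one ?_
    rw [norm_div, div_lt_one (norm_pos_iff.2 (h2 ε))]
    linarith only [hr, h1, hw, h1 ε, mem_ball_iff_norm.1 hw]
  have h6 : ∀ w ∈ Metric.ball z r, Integrable (fun ε => log ((w - cx l ε) / (z - cx l ε)) +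
      (Real.log ‖z - cx l ε‖ : ℂ)) Cantor_mu := fun w hw => Cantor_int
    ((((continuous_const.sub hc).div (continuous_const.sub hc) h2).clog (h5 w hw)).add
      (continuous_ofReal.comp (Cantor_cont h hz)))
  refine ⟨_, analyticAt_integral Cantor_mu (G' := fun w ε => (w - cx l ε)⁻¹) hr h6
    (fun w hw => ((continuous_const.sub hc).inv₀ (h4 w hw)).aestronglyMeasurable)
    (integrable_const r⁻¹) (fun ε w hw => ?_) fun ε w hw => ?_, ?_⟩
  · rw [norm_inv]
    exact inv_anti₀ hr (h3 w hw ε)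
  · have := (((((hasDerivAt_id w).sub_const (cx l ε : ℂ)).div_const (z - cx l ε)).clog
      (h5 w hw ε)).add_const (Real.log ‖z - cx l ε‖ : ℂ))
    rwa [id, div_div_div_cancel_right₀ (h2 ε), one_div] at this
  · filter_upwards [Metric.ball_mem_nhds z hr] with w hw
    refine Eq.trans (integral_congr_ae (.of_forall fun ε => ?_)) (integral_re (h6 w hw))
    simp only [RCLike.re_to_complex, add_re, log_re, ofReal_re, norm_div]
    rw [Real.log_div (norm_ne_zero_iff.2 (h4 w hw ε)) (norm_ne_zero_iff.2 (h2 ε)), sub_add_cancel]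

theorem Cantor_low (h : Scale l) {w : ℂ} (hw : w ∉ Kc l) :
    -(∑' j, (1 / 2 : ℝ) ^ j * (|Real.log (l j)| + 3)) ≤ ∫ ε, Real.log ‖w - cx l ε‖ ∂Cantor_mu := by
  obtain ⟨r, hr, h1⟩ := Cantor_dist h hw
  obtain ⟨J, hJ⟩ := (h.tendsto.eventually (eventually_le_nhds hr)).exists
  have hs : Summable fun j => (1 / 2 : ℝ) ^ j * (|Real.log (l j)| + 3) := by
    simpa only [mul_add] using h.sum.add (summable_geometric_two.mul_right 3)
  have hm : ∀ j, MeasurableSet {ε | ‖w - cx l ε‖ < l j / 4} := fun j => (isOpen_lt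
    (continuous_const.sub (continuous_ofReal.comp (continuous_cx h))).norm
      continuous_const).measurableSet
  have hi : ∀ j ∈ Finset.range J, Integrable ({ε | ‖w - cx l ε‖ < l j / 4}.indicator
      fun _ => |Real.log (l (j + 1))| + 3) Cantor_mu := fun j _ =>
    (integrable_const _).indicator (hm j)
  have h2 := integral_mono (Cantor_int (Cantor_cont h hw)).neg
    ((integrable_const (|Real.log (l 0)| + 3)).add (integrable_finsetSum _ hi))
    fun ε => Cantor_log h J (a := ‖w - cx l ε‖) (by linarith only [hr, hJ, h1, h1 ε])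
  rw [integral_neg', integral_add' (integrable_const _) (integrable_finsetSum _ hi),
    integral_finsetSum _ hi, integral_const, probReal_univ, one_smul] at h2
  have h3 := hs.sum_le_tsum (Finset.range (J + 1)) fun j _ => by positivity
  rw [Finset.sum_range_succ', pow_zero, one_mul] at h3
  have h4 := Finset.sum_le_sum fun j (_ : j ∈ Finset.range J) =>
    (integral_indicator_const (μ := Cantor_mu) (|Real.log (l (j + 1))| + 3) (hm j)).trans_le
      (mul_le_mul_of_nonneg_right (Cantor_small h w j) (by positivity))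
  linarith only [h2, h3, h4]

theorem exists_pot (h : Scale l) : ∃ (p : ℂ → ℝ) (B : ℝ), (∀ w, w ∉ Kc l → Harm p w ∧ -B ≤ p w) ∧
    (∀ w, w ∉ Kc l → ∀ c : ℝ, (∀ t ∈ Kc l, Real.log ‖w - t‖ ≤ c) → p w ≤ c) ∧
    ∀ w w', w ∉ Kc l → w' ∉ Kc l → ∀ c : ℝ,
      (∀ t ∈ Kc l, Real.log ‖w - t‖ ≤ Real.log ‖w' - t‖ + c) → p w ≤ p w' + c := by
  refine ⟨_, _, fun w hw => ⟨Cantor_harm h hw, Cantor_low h hw⟩, fun w hw c hc => ?_,
    fun w w' hw hw' c hc => ?_⟩
  · simpa using integral_mono (Cantor_int (Cantor_cont h hw)) (integrable_const c)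
      fun ε => hc _ ⟨ε, rfl⟩
  · have := integral_mono (Cantor_int (Cantor_cont h hw))
      ((Cantor_int (Cantor_cont h hw')).add (integrable_const c)) fun ε => hc _ ⟨ε, rfl⟩
    rwa [integral_add' (Cantor_int (Cantor_cont h hw')) (integrable_const c), integral_const,
      probReal_univ, one_smul] at this

theorem Cantor_sub (h : Scale l) (a b : Bool) {w : ℂ} (hw : w ∉ Kc l) :
    w - ((if a then l 0 else 0) + (if b then l 1 else 0) : ℝ) ∉ Kc (sh 2 l) := by
  rintro ⟨ε, e⟩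
  refine hw ⟨fun k => if k = 0 then a else if k = 1 then b else ε (k - 2), ?_⟩
  rw [eq_sub_iff_add_eq] at e
  rw [← e, ← ofReal_add, add_comm]
  beta_reduce
  rw [cx_split h _ 2]
  simp [Finset.sum_range_succ]

theorem Cantor_lt {w : ℂ} {x y : ℝ} (h : (w.re - x) ^ 2 < (w.re - y) ^ 2) : ‖w - x‖ < ‖w - y‖ := by
  refine lt_of_pow_lt_pow_left₀ 2 (norm_nonneg _) ?_
  simp only [Complex.sq_norm, normSq_apply, sub_re, sub_im, ofReal_re, ofReal_im]
  linarith only [h]

theorem Cantor_pot (h : Scale l) : ∃ p : ℂ → ℝ, (∀ w, w ∉ Kc l → Harm p w) ∧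
    (∀ w w', w ∉ Kc l → w' ∉ Kc l → (∀ t ∈ Kc l, ‖w - t‖ < ‖w' - t‖) → p w < p w') ∧
    ∀ s : ℝ, 0 < s → (∃ B, ∀ w, w ∉ Kc l → w - s ∉ Kc l → |p w - p (w - s)| ≤ B) ∧
      Tendsto (fun w => p w - p (w - s)) (Bornology.cobounded ℂ) (𝓝 0) := by
  obtain ⟨p, B, h1, h2, h3⟩ := exists_pot h
  have hne : ∀ w, w ∉ Kc l → ∀ t ∈ Kc l, 0 < ‖w - t‖ := fun w hw t ht =>
    norm_pos_iff.2 fun e => hw (sub_eq_zero.1 e ▸ ht)
  obtain ⟨D, hD⟩ := (isCompact_Kc h).isBounded.exists_norm_le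
  refine ⟨p, fun w hw => (h1 w hw).1, fun w w' hw hw' ht => ?_, fun s hs => ?_⟩
  · have hc : ∀ w, w ∉ Kc l → ContinuousOn (fun t => Real.log ‖w - t‖) (Kc l) := fun w hw =>
      (continuous_const.sub continuous_id).norm.continuousOn.log fun t ht => (hne w hw t ht).ne'
    obtain ⟨t, h4, h5⟩ := (isCompact_Kc h).exists_isMaxOn (range_nonempty _)
      ((hc w hw).sub (hc w' hw'))
    have h6 := h3 w w' hw hw' (Real.log ‖w - t‖ - Real.log ‖w' - t‖) fun u hu =>
      sub_le_iff_le_add'.1 (h5 hu)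
    linarith only [h6, hne, hw, h4, ht, Real.log_lt_log (hne w hw t h4) (ht t h4)]
  have key : ∀ δ : ℝ, 0 < δ → ∀ w w', w ∉ Kc l → w' ∉ Kc l → ‖w - w'‖ ≤ s →
      (∀ t ∈ Kc l, s ≤ δ * ‖w' - t‖) → p w - p w' ≤ δ := fun δ hδ w w' hw hw' e ht => by
    refine sub_le_iff_le_add'.2 (h3 w w' hw hw' δ fun t h4 => ?_)
    have h5 := norm_sub_le_norm_sub_add_norm_sub w w' t
    have h6 := Real.log_le_log (hne w hw t h4)
      (show ‖w - t‖ ≤ ‖w' - t‖ * (1 + δ) by linarith only [e, h5, ht, h4, ht t h4])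
    rw [Real.log_mul (hne w' hw' t h4).ne' (by positivity)] at h6
    linarith only [h6, hδ, Real.log_le_sub_one_of_pos (show 0 < 1 + δ by positivity)]
  have e1 : ∀ w : ℂ, ‖w - (w - s)‖ ≤ s := fun w => by
    rw [sub_sub_cancel, norm_real, Real.norm_of_nonneg hs.le]
  have e2 : ∀ w : ℂ, ‖w - s - w‖ ≤ s := fun w => norm_sub_rev w _ ▸ e1 w
  constructor
  · have bd : ∀ w w', w ∉ Kc l → w' ∉ Kc l → ‖w - w'‖ ≤ s →
        p w - p w' ≤ max 1 (Real.log (2 * s + 2 * D) + B) := fun w w' hw hw' e => by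
      by_cases h4 : ∀ t ∈ Kc l, s ≤ 1 * ‖w' - t‖
      · exact le_max_of_le_left (key 1 one_pos w w' hw hw' e h4)
      push Not at h4
      obtain ⟨u, h4, h5⟩ := h4
      have h6 := h2 w hw (Real.log (2 * s + 2 * D)) fun t ht => Real.log_le_log (hne w hw t ht) (by
        linarith only [e, h5, hD, h4, ht, norm_sub_le_norm_sub_add_norm_sub w w' t,
          norm_sub_le_norm_sub_add_norm_sub w' u t, norm_sub_le u t, hD u h4, hD t ht])
      exact le_max_of_le_right (by linarith only [h6, h1, hw', (h1 w' hw').2])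
    exact ⟨_, fun w hw hw' => abs_sub_le_iff.2 ⟨bd _ _ hw hw' (e1 w), bd _ _ hw' hw (e2 w)⟩⟩
  · refine (Metric.nhds_basis_closedBall.tendsto_right_iff).2 fun δ hδ => ?_
    filter_upwards [eventually_cobounded_le_norm (s / δ + s + D + 1)] with w hw
    have h4 : 0 < s / δ := div_pos hs hδ
    have h5 : ∀ w' : ℂ, ‖w - w'‖ ≤ s → ∀ t ∈ Kc l, s / δ + 1 ≤ ‖w' - t‖ := fun w' e t ht => by
      linarith only [hw, e, hD, ht, norm_le_norm_add_norm_sub' w t, norm_sub_le_norm_sub_add_norm_sub w w' t, hD t ht]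
    have h6 : ∀ w' : ℂ, ‖w - w'‖ ≤ s → w' ∉ Kc l := fun w' e ht => by
      have := h5 w' e w' ht
      rw [sub_self, norm_zero] at this
      linarith only [h4, this]
    have h7 : ∀ w' : ℂ, ‖w - w'‖ ≤ s → ∀ t ∈ Kc l, s ≤ δ * ‖w' - t‖ := fun w' e t ht =>
      (div_le_iff₀' hδ).1 (by linarith only [h5, e, ht, h5 w' e t ht])
    have h8 : ‖w - w‖ ≤ s := by
      rw [sub_self, norm_zero]
      exact hs.le
    rw [mem_closedBall_zero_iff, Real.norm_eq_abs]
    exact abs_sub_le_iff.2 ⟨key δ hδ _ _ (h6 _ h8) (h6 _ (e1 w)) (e1 w) (h7 _ (e1 w)),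
      key δ hδ _ _ (h6 _ (e1 w)) (h6 _ h8) (e2 w) (h7 _ h8)⟩

theorem sep_Kc (h : Scale l) : Sep (Kc l) := by
  obtain ⟨p, h1, h2, h3⟩ := Cantor_pot (h.sh 2)
  obtain ⟨⟨B1, b1⟩, t1⟩ := h3 _ (h.pos 1)
  obtain ⟨⟨B0, b0⟩, t0⟩ := h3 _ (h.pos 0)
  refine ⟨isCompact_Kc h, _, _, max B1 B0, fun w hw => ?_, t1, t0⟩
  have k0 : w ∉ Kc (sh 2 l) := by simpa using Cantor_sub h false false hw
  have k1 : w - l 1 ∉ Kc (sh 2 l) := by simpa using Cantor_sub h false true hw
  have k2 : w - l 0 ∉ Kc (sh 2 l) := by simpa using Cantor_sub h true false hw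
  have hh : ∀ s : ℂ, w - s ∉ Kc (sh 2 l) → Harm (fun w => p w - p (w - s)) w := fun s hs =>
    (h1 w k0).sub (Harm.comp (g := fun w => w - s) (h1 _ hs) (analyticAt_id.sub analyticAt_const))
  refine ⟨hh _ k1, hh _ k2, le_max_of_le_left (b1 w k0 k1), le_max_of_le_right (b0 w k0 k2), ?_⟩
  have s0 : 4 * l 1 ≤ l 0 := h.sep 0
  have s1 : 4 * l 2 ≤ l 1 := h.sep 1
  have s2 := h.pos 1
  have hx : ∀ ε, 0 ≤ cx (sh 2 l) ε ∧ cx (sh 2 l) ε ≤ 4 / 3 * l 2 := cx_mem (h.sh 2)
  rcases lt_or_ge (l 1) w.re with e | e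
  · refine Or.inl (sub_pos.2 (h2 _ _ k1 k0 ?_)).ne'
    rintro _ ⟨ε, rfl⟩
    rw [sub_sub, ← ofReal_add]
    exact Cantor_lt (by linarith only [s1, s2, e, hx, (hx ε).1, (hx ε).2, mul_nonneg_of_nonpos_of_nonpos (Mathlib.Tactic.Linarith.sub_nonpos_of_le s1) (le_of_lt (Mathlib.Tactic.Linarith.sub_neg_of_lt s2)), mul_pos_of_neg_of_neg (Mathlib.Tactic.Linarith.sub_neg_of_lt s2) (Mathlib.Tactic.Linarith.sub_neg_of_lt s2), mul_pos_of_neg_of_neg (Mathlib.Tactic.Linarith.sub_neg_of_lt s2) (Mathlib.Tactic.Linarith.sub_neg_of_lt e), mul_nonneg_of_nonpos_of_nonpos (le_of_lt (Mathlib.Tactic.Linarith.sub_neg_of_lt s2)) (Mathlib.Tactic.Linarith.sub_nonpos_of_le (hx ε).right)])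
  · refine Or.inr (sub_neg.2 (h2 _ _ k0 k2 ?_)).ne
    rintro _ ⟨ε, rfl⟩
    rw [sub_sub, ← ofReal_add]
    exact Cantor_lt (by linarith only [s0, s2, e, hx, (hx ε).1, (hx ε).2, mul_nonneg_of_nonpos_of_nonpos (Mathlib.Tactic.Linarith.sub_nonpos_of_le s0) (Mathlib.Tactic.Linarith.sub_nonpos_of_le s0), mul_nonneg_of_nonpos_of_nonpos (Mathlib.Tactic.Linarith.sub_nonpos_of_le s0) (le_of_lt (Mathlib.Tactic.Linarith.sub_neg_of_lt s2)), mul_nonneg_of_nonpos_of_nonpos (Mathlib.Tactic.Linarith.sub_nonpos_of_le s0) (Mathlib.Tactic.Linarith.sub_nonpos_of_le e), mul_nonneg_of_nonpos_of_nonpos (Mathlib.Tactic.Linarith.sub_nonpos_of_le s0) (Mathlib.Tactic.Linarith.sub_nonpos_of_le (hx ε).left), mul_pos_of_neg_of_neg (Mathlib.Tactic.Linarith.sub_neg_of_lt s2) (Mathlib.Tactic.Linarith.sub_neg_of_lt s2), mul_nonneg_of_nonpos_of_nonpos (le_of_lt (Mathlib.Tactic.Linarith.sub_neg_of_lt s2)) (Mathlib.Tactic.Linarith.sub_nonpos_of_le e), mul_nonneg_of_nonpos_of_nonpos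 (le_of_lt (Mathlib.Tactic.Linarith.sub_neg_of_lt s2)) (Mathlib.Tactic.Linarith.sub_nonpos_of_le (hx ε).left)])

theorem Sep.translate {K : Set ℂ} (h : Sep K) (t : ℂ) : Sep {w | w - t ∈ K} := by
  obtain ⟨hK, v₁, v₂, B, h1, t1, t2⟩ := h
  refine ⟨(Homeomorph.subRight t).isCompact_preimage.2 hK, fun w => v₁ (w - t),
    fun w => v₂ (w - t), B, fun w hw => ?_, t1.comp (tendsto_sub_const_cobounded t),
    t2.comp (tendsto_sub_const_cobounded t)⟩
  obtain ⟨a1, a2, a3⟩ := h1 _ hw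
  exact ⟨Harm.comp (g := fun w => w - t) a1 (analyticAt_id.sub analyticAt_const),
    Harm.comp (g := fun w => w - t) a2 (analyticAt_id.sub analyticAt_const), a3⟩

end Pool.Agent.Work.MP_31144c_an
end

-- merged part: Pool.Agent.Work.MP_31144c_an.Hit
section
/-! Almost every translate of the Cantor set meets the range (step A6).
PLAN. `hit_one`: `B = {(θ, t) | ∀ z ∈ stolz, f z - t ∉ K}` is closed (its complement is open by `ho`); `N = toMeasurable volume {θ | ¬ TypeA}`;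
`measure_toMeasurable_inter_of_sFinite`, `typeA_of_omit` with `Sep.translate`, `Measure.ae_ae_comm`. `baire`: the sets
`{ε | t + cx l ε ∈ O k}` are open and dense in `ℕ → Bool` (`cx_split`; glue a finite word to an address of the tail), `dense_iInter_of_isOpen`.
`hit`: constant `f` is of type (a) everywhere; otherwise `AnalyticOnNhd.is_constant_or_isOpen`; `hit_one` for `C = 1 + 1 / (a + 1)`, `δ = 1 / (k + 1)` and the
countably many sets `{w | w - ∑ k ∈ A, sh j l k ∈ Kc (sh i (sh j l))}`, `A : Finset ℕ`; `baire`, `mem_vals`. -/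

namespace Pool.Agent.Work.MP_31144c_an

open Set Filter Topology MeasureTheory Complex

variable {f : ℂ → ℂ} {l : ℕ → ℝ}

theorem Hit_isOpen_pair (C δ : ℝ) :
    IsOpen {p : ℝ × ℂ | p.2 ∈ stolz (exp (p.1 * I)) C δ} := by
  have hc : Continuous fun p : ℝ × ℂ => ‖p.2 - exp (p.1 * I)‖ := by fun_prop
  have hn : Continuous fun p : ℝ × ℂ => ‖p.2‖ := by fun_prop
  refine (isOpen_lt hn continuous_const).inter ((isOpen_lt hc ?_).inter
    (isOpen_lt hc continuous_const))
  fun_prop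

theorem Hit_isOpen_stolz (P : ℂ) (C δ : ℝ) : IsOpen (stolz P C δ) := by
  have hc : Continuous fun z : ℂ => ‖z - P‖ := by fun_prop
  refine (isOpen_lt continuous_norm continuous_const).inter ((isOpen_lt hc ?_).inter
    (isOpen_lt hc continuous_const))
  fun_prop

theorem Hit_stolz_sub (P : ℂ) (C δ : ℝ) : stolz P C δ ⊆ Metric.ball (0 : ℂ) 1 := by
  intro z hz
  rw [mem_ball_zero_iff]
  exact hz.1

theorem Hit_isOpen (ho : ∀ s ⊆ Metric.ball (0 : ℂ) 1, IsOpen s → IsOpen (f '' s)) (K : Set ℂ)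
    (C δ : ℝ) : IsOpen {p : ℝ × ℂ | ∃ z ∈ stolz (exp (p.1 * I)) C δ, f z - p.2 ∈ K} := by
  rw [isOpen_iff_mem_nhds]
  rintro ⟨θ₀, t₀⟩ ⟨z₀, hz₀, hk⟩
  obtain ⟨U, V, hU, hV, hθ, hz, hUV⟩ :=
    isOpen_prod_iff.1 (Hit_isOpen_pair C δ) θ₀ z₀ hz₀
  have hVb : V ⊆ Metric.ball (0 : ℂ) 1 := fun z hzV =>
    Hit_stolz_sub _ C δ (hUV (mk_mem_prod hθ hzV))
  have hfo := ho V hVb hV
  have hW : IsOpen {t : ℂ | f z₀ - t₀ + t ∈ f '' V} :=
    hfo.preimage (continuous_const.add continuous_id)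
  have ht : t₀ ∈ {t : ℂ | f z₀ - t₀ + t ∈ f '' V} := ⟨z₀, hz, by ring⟩
  refine mem_of_superset (prod_mem_nhds (hU.mem_nhds hθ) (hW.mem_nhds ht)) ?_
  rintro ⟨θ, t⟩ ⟨h1, z, hzV, hfz⟩
  refine ⟨z, hUV (mk_mem_prod h1 hzV), ?_⟩
  have : f z - t = f z₀ - t₀ := by
    have h2 : f z = f z₀ - t₀ + t := hfz
    rw [h2]; ring
  show f z - t ∈ K
  rw [this]
  exact hk

theorem hit_one (hf : DifferentiableOn ℂ f (Metric.ball 0 1))
    (ho : ∀ s ⊆ Metric.ball (0 : ℂ) 1, IsOpen s → IsOpen (f '' s)) {K : Set ℂ} (hK : Sep K)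
    {C δ : ℝ} (hC : 1 < C) (hδ : 0 < δ) : ∀ᵐ θ : ℝ, TypeA f (exp (θ * I)) ∨
      ∀ᵐ t : ℂ, ∃ z ∈ stolz (exp (θ * I)) C δ, f z - t ∈ K := by
  set G : Set (ℝ × ℂ) := {p | ∃ z ∈ stolz (exp (p.1 * I)) C δ, f z - p.2 ∈ K} with hG
  have hGo : IsOpen G := Hit_isOpen ho K C δ
  set s : Set ℝ := {θ | ¬ TypeA f (exp (θ * I))} with hs
  set N : Set ℝ := toMeasurable volume s with hN
  have hNm : MeasurableSet N := measurableSet_toMeasurable _ _
  have h1 : ∀ t : ℂ, ∀ᵐ θ : ℝ, θ ∈ N → (θ, t) ∈ G := by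
    intro t
    have hB : MeasurableSet {θ : ℝ | (θ, t) ∉ G} :=
      (hGo.preimage (Continuous.prodMk_left t)).measurableSet.compl
    have h2 := typeA_of_omit hf (hK.translate t) hC hδ
    have h3 : volume (s ∩ {θ : ℝ | (θ, t) ∉ G}) = 0 := by
      refine measure_mono_null ?_ (ae_iff.1 h2)
      rintro θ ⟨hθ, hθ'⟩ h4
      exact hθ (h4 fun z hz hk => hθ' ⟨z, hz, hk⟩)
    rw [← Measure.measure_toMeasurable_inter_of_sFinite hB] at h3
    refine measure_mono_null ?_ h3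
    intro θ hθ
    have h5 : ¬ (θ ∈ N → (θ, t) ∈ G) := hθ
    exact ⟨(Classical.not_imp.1 h5).1, (Classical.not_imp.1 h5).2⟩
  have hm : MeasurableSet {p : ℝ × ℂ | p.1 ∈ N → (p.1, p.2) ∈ G} := by
    have : {p : ℝ × ℂ | p.1 ∈ N → (p.1, p.2) ∈ G} = (Prod.fst ⁻¹' N)ᶜ ∪ G := by
      ext p
      simp only [mem_ofPred_eq, mem_union, mem_compl_iff, mem_preimage]
      exact imp_iff_not_or
    rw [this]
    exact (measurable_fst hNm).compl.union hGo.measurableSet
  have h2 : ∀ᵐ θ : ℝ, ∀ᵐ t : ℂ, θ ∈ N → (θ, t) ∈ G :=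
    (Measure.ae_ae_comm (p := fun (θ : ℝ) (t : ℂ) => θ ∈ N → (θ, t) ∈ G) hm).2
      (Eventually.of_forall h1)
  filter_upwards [h2] with θ hθ
  by_cases hA : TypeA f (exp (θ * I))
  · exact Or.inl hA
  · refine Or.inr ?_
    filter_upwards [hθ] with t ht
    exact ht (subset_toMeasurable _ _ hA)

theorem baire (h : Scale l) (t : ℂ) {O : ℕ → Set ℂ} (hO : ∀ k, IsOpen (O k))
    (hd : ∀ (k i : ℕ) (A : Finset ℕ), ∃ w ∈ O k, w - t - ∑ a ∈ A, (l a : ℂ) ∈ Kc (sh i l)) :
    ∃ x ∈ Kc l, ∀ k, t + x ∈ O k := by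
  have hc : Continuous fun ε : ℕ → Bool => t + ((cx l ε : ℝ) : ℂ) :=
    continuous_const.add (continuous_ofReal.comp (continuous_cx h))
  have hop : ∀ k, IsOpen {ε : ℕ → Bool | t + ((cx l ε : ℝ) : ℂ) ∈ O k} := fun k =>
    (hO k).preimage hc
  have hde : ∀ k, Dense {ε : ℕ → Bool | t + ((cx l ε : ℝ) : ℂ) ∈ O k} := by
    intro k ε₀
    have key : ∀ i : ℕ, ∃ ε : ℕ → Bool, t + ((cx l ε : ℝ) : ℂ) ∈ O k ∧ ∀ n < i, ε n = ε₀ n := by
      intro i
      obtain ⟨w, hw, ε', hε'⟩ := hd k i ((Finset.range i).filter fun n => ε₀ n = true)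
      refine ⟨fun n => if n < i then ε₀ n else ε' (n - i), ?_, fun n hn => if_pos hn⟩
      have e1 : (fun m => (fun n => if n < i then ε₀ n else ε' (n - i)) (m + i)) = ε' := by
        funext m
        have : ¬ (m + i < i) := by omega
        simp only [this, if_false, Nat.add_sub_cancel]
      have e2 : ∑ m ∈ Finset.range i,
          (if (fun n => if n < i then ε₀ n else ε' (n - i)) m = true then l m else 0) =
          ∑ a ∈ (Finset.range i).filter fun n => ε₀ n = true, l a := by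
        rw [Finset.sum_filter]
        refine Finset.sum_congr rfl fun m hm => ?_
        simp only [Finset.mem_range.1 hm, if_true]
      rw [cx_split h _ i, e1, e2]
      have e3 : ((cx (sh i l) ε' : ℝ) : ℂ) =
          w - t - ∑ a ∈ (Finset.range i).filter fun n => ε₀ n = true, (l a : ℂ) := hε'
      have e4 : t + (((∑ a ∈ (Finset.range i).filter fun n => ε₀ n = true, l a) +
          cx (sh i l) ε' : ℝ) : ℂ) = w := by
        rw [ofReal_add, e3, ofReal_sum]; ring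
      rw [e4]
      exact hw
    choose ε hε hε' using key
    refine mem_closure_of_tendsto (f := ε) (b := atTop) ?_ (Eventually.of_forall hε)
    rw [tendsto_pi_nhds]
    intro n
    refine tendsto_const_nhds.congr' ?_
    filter_upwards [eventually_gt_atTop n] with i hi
    exact (hε' i n hi).symm
  obtain ⟨ε, hε⟩ := (dense_iInter_of_isOpen hop hde).nonempty
  exact ⟨_, ⟨ε, rfl⟩, fun k => mem_iInter.1 hε k⟩

theorem hit (hf : DifferentiableOn ℂ f (Metric.ball 0 1)) (h : Scale l) : ∀ᵐ θ : ℝ,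
    TypeA f (exp (θ * I)) ∨ ∀ C δ : ℝ, 1 < C → 0 < δ → ∀ j : ℕ, ∀ᵐ t : ℂ,
      ∃ x ∈ Kc (sh j l), t + x ∈ vals f (exp (θ * I)) (stolz (exp (θ * I)) C δ) := by
  have han : AnalyticOnNhd ℂ f (Metric.ball 0 1) := hf.analyticOnNhd Metric.isOpen_ball
  rcases han.is_constant_or_isOpen (convex_ball (0 : ℂ) 1).isPreconnected with ⟨w, hw⟩ | ho
  · refine Eventually.of_forall fun θ => Or.inl fun C δ _ _ => ⟨w, ?_⟩
    refine tendsto_const_nhds.congr' ?_
    filter_upwards [self_mem_nhdsWithin] with z hz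
    exact (hw z (Hit_stolz_sub _ C δ hz)).symm
  have key : ∀ᵐ θ : ℝ, ∀ a j k i : ℕ, ∀ A : Finset ℕ, TypeA f (exp (θ * I)) ∨
      ∀ᵐ t : ℂ, ∃ z ∈ stolz (exp (θ * I)) (1 + 1 / ((a : ℝ) + 1)) (1 / ((k : ℝ) + 1)),
        f z - t ∈ {w | w - ∑ n ∈ A, (sh j l n : ℂ) ∈ Kc (sh i (sh j l))} := by
    simp only [ae_all_iff]
    intro a j k i A
    refine hit_one hf ho ((sep_Kc ((h.sh j).sh i)).translate _) ?_ ?_
    · have : (0 : ℝ) < 1 / ((a : ℝ) + 1) := by positivity
      linarith only [this]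
    · positivity
  filter_upwards [key] with θ hθ
  by_cases hA : TypeA f (exp (θ * I))
  · exact Or.inl hA
  refine Or.inr fun C δ hC hδ j => ?_
  obtain ⟨a, ha⟩ := exists_nat_one_div_lt (sub_pos.2 hC)
  have h1 : ∀ᵐ t : ℂ, ∀ k i : ℕ, ∀ A : Finset ℕ,
      ∃ z ∈ stolz (exp (θ * I)) (1 + 1 / ((a : ℝ) + 1)) (1 / ((k : ℝ) + 1)),
        f z - t ∈ {w | w - ∑ n ∈ A, (sh j l n : ℂ) ∈ Kc (sh i (sh j l))} := by
    simp only [ae_all_iff]
    intro k i A
    exact (hθ a j k i A).resolve_left hA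
  filter_upwards [h1] with t ht
  obtain ⟨x, hx, hx'⟩ := baire (h.sh j) t
    (O := fun k => f '' stolz (exp (θ * I)) (1 + 1 / ((a : ℝ) + 1)) (1 / ((k : ℝ) + 1)))
    (fun k => ho _ (Hit_stolz_sub _ _ _) (Hit_isOpen_stolz _ _ _)) (fun k i A => by
      obtain ⟨z, hz, hz'⟩ := ht k i A
      exact ⟨f z, ⟨z, hz, rfl⟩, hz'⟩)
  exact ⟨x, hx, mem_vals (norm_exp_ofReal_mul_I θ) (by linarith only [ha]) hδ hx'⟩

end Pool.Agent.Work.MP_31144c_an
end

-- merged part: Pool.Agent.Work.MP_31144c_an.Cover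
section
/-! The scales attached to a gauge, the covering estimate, and part (A) (step A7).
PLAN. `exists_scale`: `r k = r₀ / 2 / 2 ^ k`, `1 / (2 g (r (k + 1))) ≤ ∫ over (r (k + 1), r k) of 1 / (r g r)`, so `a k = 1 / g (r k)` is summable and antitone;
`κ j = Nat.find (a k ≤ 2⁻¹ ^ j)`, `∑ 2⁻¹ ^ j κ j ≤ 2 ∑ a k` (finite double sums, `summable_of_sum_range_le`), `l j = r (κ j) / 4 ^ j`.
`cover_le`: the outer measure `A ↦ c⁻¹ vol {t | ∃ x ∈ K, t + x ∈ A}` and `OuterMeasure.le_mkMetric` with `r = ofReal (l j / 2)`; for diameter `d > 0` take `i`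
least with `sh j l i ≤ d` and `Kc_cover`, discs of radius `3 d` (`Complex.volume_closedBall`); for diameter `0` use `Kc_cover` for all `i`. -/

namespace Pool.Agent.Work.MP_31144c_an

open Set Filter Topology MeasureTheory Complex

variable {g l : ℕ → ℝ}

theorem Cover_geo {x : ℝ} (hx : 0 ≤ x) (n : ℕ) :
    ∑ j ∈ Finset.range n, (if (1 / 2 : ℝ) ^ j < x then (1 / 2 : ℝ) ^ j else 0) ≤ 2 * x := by
  have key : ∀ n : ℕ,
      ∑ j ∈ Finset.range n, (if (1 / 2 : ℝ) ^ j < x then (1 / 2 : ℝ) ^ j else 0) = 0 ∨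
      ∑ j ∈ Finset.range n, (if (1 / 2 : ℝ) ^ j < x then (1 / 2 : ℝ) ^ j else 0) +
        2 * (1 / 2 : ℝ) ^ n ≤ 2 * x := by
    intro n
    induction n with
    | zero => simp
    | succ n ih =>
      have h0 : (0 : ℝ) < (1 / 2) ^ n := by positivity
      rw [Finset.sum_range_succ, pow_succ]
      by_cases h : (1 / 2 : ℝ) ^ n < x
      · rw [if_pos h]
        right
        rcases ih with ih | ih <;> linarith only [h, ih]
      · rw [if_neg h, add_zero]
        exact ih.imp id fun ih => by linarith only [h0, ih]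
  have h0 : (0 : ℝ) < (1 / 2) ^ n := by positivity
  rcases key n with h | h <;> linarith only [hx, h, h0]

theorem Cover_sum {a : ℕ → ℝ} (ha : ∀ k, 0 ≤ a k) (hs : Summable a) {κ : ℕ → ℕ} (hm : Monotone κ)
    (hκ : ∀ j k, k < κ j → (1 / 2 : ℝ) ^ j < a k) :
    Summable fun j => (1 / 2 : ℝ) ^ j * (κ j : ℝ) := by
  refine summable_of_sum_range_le (c := 2 * ∑' k, a k) (fun j => by positivity) fun n => ?_
  have h1 : ∀ j ∈ Finset.range n, (1 / 2 : ℝ) ^ j * (κ j : ℝ) ≤ ∑ k ∈ Finset.range (κ n),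
      (if (1 / 2 : ℝ) ^ j < a k then (1 / 2 : ℝ) ^ j else 0) := by
    intro j hj
    have h2 : Finset.range (κ j) ⊆ Finset.range (κ n) :=
      Finset.range_subset_range.2 (hm (Finset.mem_range.1 hj).le)
    refine le_trans (le_of_eq ?_) (Finset.sum_le_sum_of_subset_of_nonneg h2 fun k _ _ => ?_)
    · rw [Finset.sum_congr rfl fun k hk => if_pos (hκ j k (Finset.mem_range.1 hk)),
        Finset.sum_const, Finset.card_range, nsmul_eq_mul, mul_comm]
    · split_ifs
      · positivity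
      · exact le_rfl
  refine (Finset.sum_le_sum h1).trans ?_
  rw [Finset.sum_comm]
  refine (Finset.sum_le_sum fun k _ => Cover_geo (ha k) n).trans ?_
  rw [← Finset.mul_sum]
  exact mul_le_mul_of_nonneg_left (hs.sum_le_tsum _ fun k _ => ha k) zero_le_two

theorem Cover_summable {g : ℝ → ℝ} {r₀ : ℝ} (ha : AntitoneOn g (Ioo 0 r₀))
    (hp : ∀ r ∈ Ioo 0 r₀, 0 < g r) (hi : IntegrableOn (fun r => 1 / (r * g r)) (Ioo 0 r₀))
    {r : ℕ → ℝ} (hr : ∀ k, r k ∈ Ioo 0 r₀) (h2 : ∀ k, 2 * r (k + 1) = r k) :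
    Summable fun k => 1 / g (r k) := by
  have hlt : ∀ k, r (k + 1) < r k := fun k => by linarith only [h2, hr, h2 k, (hr (k + 1)).1]
  have hanti : Antitone r := antitone_nat_of_succ_le fun k => (hlt k).le
  have hsub : ∀ k, Ioc (r (k + 1)) (r k) ⊆ Ioo 0 r₀ := fun k x hx =>
    ⟨(hr (k + 1)).1.trans hx.1, hx.2.trans_lt (hr k).2⟩
  have hd : Pairwise (Function.onFun Disjoint fun k => Ioc (r (k + 1)) (r k)) := by
    refine (pairwise_disjoint_on _).2 fun m n hmn => Set.disjoint_left.2 fun x h1 h2 => ?_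
    exact absurd (h2.2.trans (hanti (Nat.succ_le_of_lt hmn))) (not_le.2 h1.1)
  have h3 := (hasSum_integral_iUnion (fun k => measurableSet_Ioc) hd
    (hi.mono_set (iUnion_subset hsub))).summable
  rw [← summable_nat_add_iff 1]
  refine Summable.of_nonneg_of_le (fun k => (one_div_pos.2 (hp _ (hr _))).le) (fun k => ?_)
    (h3.mul_left 2)
  have h4 : ∫ _x in Ioc (r (k + 1)) (r k), 1 / (r k * g (r (k + 1))) ≤
      ∫ x in Ioc (r (k + 1)) (r k), 1 / (x * g x) := by
    refine setIntegral_mono_on (integrableOn_const (by simp)) (hi.mono_set (hsub k)) measurableSet_Ioc fun x hx => ?_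
    have hx' := hsub k hx
    exact one_div_le_one_div_of_le (mul_pos hx'.1 (hp x hx'))
      (mul_le_mul hx.2 (ha (hr _) hx' hx.1.le) (hp x hx').le (hr k).1.le)
  rw [setIntegral_const, Real.volume_real_Ioc_of_le (hlt k).le, smul_eq_mul] at h4
  refine le_trans (le_of_eq ?_) (mul_le_mul_of_nonneg_left h4 zero_le_two)
  have h5 := (hr (k + 1)).1
  have h6 := hp _ (hr (k + 1))
  rw [← h2 k]
  field_simp
  ring

theorem exists_scale {g : ℝ → ℝ} {r₀ : ℝ} (h0 : 0 < r₀) (ha : AntitoneOn g (Ioo 0 r₀))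
    (hp : ∀ r ∈ Ioo 0 r₀, 0 < g r) (hi : IntegrableOn (fun r => 1 / (r * g r)) (Ioo 0 r₀)) :
    ∃ l : ℕ → ℝ, Scale l ∧ ∀ j, ∀ d ∈ Ioo 0 (l j), 2 ^ j ≤ g d := by
  classical
  set r : ℕ → ℝ := fun k => r₀ / 2 / 2 ^ k with hrdef
  have hr0 : ∀ k, 0 < r k := fun k => by positivity
  have h2 : ∀ k, 2 * r (k + 1) = r k := fun k => by
    simp only [hrdef, pow_succ]
    field_simp
  have hanti : Antitone r := antitone_nat_of_succ_le fun k => by linarith only [h2, hr0, h2 k, hr0 (k + 1)]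
  have hr : ∀ k, r k ∈ Ioo 0 r₀ := fun k => ⟨hr0 k, (hanti (Nat.zero_le k)).trans_lt (by
    simp only [hrdef, pow_zero]
    linarith only [h0])⟩
  have hs := Cover_summable ha hp hi hr h2
  have hex : ∀ j : ℕ, ∃ k, 1 / g (r k) ≤ (1 / 2 : ℝ) ^ j := fun j =>
    (hs.tendsto_atTop_zero.eventually (ge_mem_nhds (by positivity))).exists
  have hm : Monotone fun j => Nat.find (hex j) := monotone_nat_of_le_succ fun j =>
    Nat.find_min' _ ((Nat.find_spec (hex (j + 1))).trans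
      (pow_le_pow_of_le_one (by norm_num) (by norm_num) (Nat.le_succ j)))
  have hκ := Cover_sum (fun k => (one_div_pos.2 (hp _ (hr k))).le) hs hm
    fun j k hk => not_le.1 (Nat.find_min (hex j) hk)
  refine ⟨fun j => r (Nat.find (hex j)) / 4 ^ j, ⟨fun j => div_pos (hr0 _) (by positivity),
    fun j => ?_, ?_⟩, fun j d hd => ?_⟩
  · have h3 := hanti (hm (Nat.le_succ j))
    calc 4 * (r (Nat.find (hex (j + 1))) / 4 ^ (j + 1)) = r (Nat.find (hex (j + 1))) / 4 ^ j := by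
          rw [pow_succ (4 : ℝ) j]
          field_simp
      _ ≤ _ := div_le_div_of_nonneg_right h3 (by positivity)
  · have g1 : Summable fun j : ℕ => (1 / 2 : ℝ) ^ j := summable_geometric_two
    have g2 : Summable fun j : ℕ => (j : ℝ) ^ 1 * (1 / 2 : ℝ) ^ j :=
      summable_pow_mul_geometric_of_norm_lt_one 1 (by norm_num)
    refine Summable.of_nonneg_of_le (fun j => by positivity) (fun j => ?_)
      (((g1.mul_right |Real.log (r₀ / 2)|).add (hκ.mul_right (Real.log 2))).add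
        (g2.mul_right (Real.log 4)))
    have g3 : Real.log (r (Nat.find (hex j)) / 4 ^ j) =
        Real.log (r₀ / 2) - Nat.find (hex j) * Real.log 2 - j * Real.log 4 := by
      simp only [hrdef]
      rw [Real.log_div (by positivity) (by positivity), Real.log_div (by positivity) (by positivity),
        Real.log_pow, Real.log_pow]
    have g4 : 0 ≤ (Nat.find (hex j) : ℝ) * Real.log 2 :=
      mul_nonneg (Nat.cast_nonneg _) (Real.log_nonneg one_le_two)
    have g5 : 0 ≤ (j : ℝ) * Real.log 4 :=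
      mul_nonneg (Nat.cast_nonneg _) (Real.log_nonneg (by norm_num))
    have g6 : |Real.log (r (Nat.find (hex j)) / 4 ^ j)| ≤
        |Real.log (r₀ / 2)| + Nat.find (hex j) * Real.log 2 + j * Real.log 4 := by
      rw [g3, abs_le]
      constructor <;> linarith only [hex, g4, g5, le_abs_self (Real.log (r₀ / 2)), neg_abs_le (Real.log (r₀ / 2))]
    refine (mul_le_mul_of_nonneg_left g6 (by positivity)).trans (le_of_eq ?_)
    ring
  · have h3 : d ≤ r (Nat.find (hex j)) :=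
      hd.2.le.trans (div_le_self (hr0 _).le (one_le_pow₀ (by norm_num)))
    have h4 := ha ⟨hd.1, h3.trans_lt (hr _).2⟩ (hr _) h3
    have h5 := (Nat.find_spec (hex j)).trans_eq (one_div_pow 2 j)
    exact ((one_div_le_one_div (hp _ (hr _)) (by positivity)).1 h5).trans h4

theorem Cover_ball (h : Scale l) (i : ℕ) {s : Set ℂ} {p : ℂ} {d : ℝ} (hd : 0 ≤ d)
    (hs : ∀ y ∈ s, ‖y - p‖ ≤ d) : volume {t : ℂ | ∃ x ∈ Kc l, t + x ∈ s} ≤
      ENNReal.ofReal (2 ^ i * (4 * (d + 2 * l i) ^ 2)) := by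
  obtain ⟨F, hF, hc⟩ := Kc_cover h i
  have h0 : 0 ≤ d + 2 * l i := by linarith only [hd, h, h.pos i]
  have h1 : {t : ℂ | ∃ x ∈ Kc l, t + x ∈ s} ⊆ ⋃ τ ∈ F, Metric.closedBall (p - τ) (d + 2 * l i) := by
    rintro t ⟨x, hx, ht⟩
    obtain ⟨τ, h2, h3⟩ := hc x hx
    refine mem_iUnion₂.2 ⟨τ, h2, ?_⟩
    rw [Metric.mem_closedBall, dist_eq_norm, show t - (p - τ) = (t + x - p) - (x - τ) by ring]
    exact (norm_sub_le _ _).trans (add_le_add (hs _ ht) h3)
  refine (measure_mono h1).trans ((measure_biUnion_finset_le _ _).trans ?_)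
  have h4 : ∀ τ ∈ F, volume (Metric.closedBall (p - τ) (d + 2 * l i)) ≤
      ENNReal.ofReal (4 * (d + 2 * l i) ^ 2) := by
    intro τ _
    rw [Complex.volume_closedBall, mul_comm 4, ENNReal.ofReal_mul (by positivity),
      ENNReal.ofReal_pow h0]
    refine mul_le_mul_right ?_ _
    rw [← ENNReal.ofReal_coe_nnreal]
    exact ENNReal.ofReal_le_ofReal Real.pi_le_four
  refine (Finset.sum_le_card_nsmul _ _ _ h4).trans ?_
  rw [nsmul_eq_mul, ENNReal.ofReal_mul (by positivity : (0 : ℝ) ≤ 2 ^ i)]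
  refine mul_le_mul_left ?_ _
  rw [← ENNReal.ofReal_natCast]
  exact ENNReal.ofReal_le_ofReal (by exact_mod_cast hF)

theorem Cover_diam {g : ℝ → ℝ} (h : Scale l) (hg : ∀ j, ∀ d ∈ Ioo 0 (l j), 2 ^ j ≤ g d) (j : ℕ)
    {s : Set ℂ} {p : ℂ} {d : ℝ} (hd : 0 ≤ d) (hj : d < l j) (hs : ∀ y ∈ s, ‖y - p‖ ≤ d) :
    volume {t : ℂ | ∃ x ∈ Kc (sh j l), t + x ∈ s} ≤ ENNReal.ofReal (72 / 2 ^ j * (d ^ 2 * g d)) := by
  classical
  rcases hd.eq_or_lt with rfl | hd'
  · have h1 : Tendsto (fun i : ℕ => ENNReal.ofReal (16 * l j ^ 2 * (1 / 8 : ℝ) ^ i)) atTop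
        (𝓝 (ENNReal.ofReal (16 * l j ^ 2 * 0))) :=
      ENNReal.tendsto_ofReal ((tendsto_pow_atTop_nhds_zero_of_lt_one (by norm_num)
        (by norm_num)).const_mul _)
    rw [mul_zero, ENNReal.ofReal_zero] at h1
    refine le_trans (ge_of_tendsto' h1 fun i => ?_) zero_le
    refine (Cover_ball (h.sh j) i le_rfl hs).trans (ENNReal.ofReal_le_ofReal ?_)
    have h2 : sh j l i ≤ l j / 4 ^ i := h.le_pow i j
    have h3 : 0 ≤ sh j l i := (h.pos _).le
    have h4 : sh j l i ^ 2 ≤ (l j / 4 ^ i) ^ 2 := pow_le_pow_left₀ h3 h2 2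
    have h5 : (2 : ℝ) ^ i * (l j / 4 ^ i) ^ 2 = l j ^ 2 * (1 / 8 : ℝ) ^ i := by
      rw [show (8 : ℝ) = 2 * 4 by norm_num, show (4 : ℝ) = 2 * 2 by norm_num]
      simp only [div_pow, mul_pow, one_pow]
      field_simp
    calc (2 : ℝ) ^ i * (4 * (0 + 2 * sh j l i) ^ 2) = 16 * (2 ^ i * sh j l i ^ 2) := by ring
      _ ≤ 16 * (2 ^ i * (l j / 4 ^ i) ^ 2) := by gcongr
      _ = _ := by rw [h5, mul_assoc]
  · have hex : ∃ i, sh j l i ≤ d := ((h.sh j).tendsto.eventually (ge_mem_nhds hd')).exists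
    have h1 := Nat.find_spec hex
    obtain ⟨i, hi⟩ : ∃ i, Nat.find hex = i + 1 := Nat.exists_eq_succ_of_ne_zero fun h0 => by
      rw [h0, sh, zero_add] at h1
      exact absurd hj (not_lt.2 h1)
    have h2 : d < l (i + j) := not_le.1 (Nat.find_min hex (by omega : i < Nat.find hex))
    have h3 := hg (i + j) d ⟨hd', h2⟩
    rw [hi] at h1
    refine (Cover_ball (h.sh j) (i + 1) hd hs).trans (ENNReal.ofReal_le_ofReal ?_)
    have h4 : 0 ≤ sh j l (i + 1) := (h.pos _).le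
    have h5 : (d + 2 * sh j l (i + 1)) ^ 2 ≤ (3 * d) ^ 2 :=
      pow_le_pow_left₀ (by linarith only [hd', h4]) (by linarith only [h1]) 2
    calc (2 : ℝ) ^ (i + 1) * (4 * (d + 2 * sh j l (i + 1)) ^ 2)
        ≤ 2 ^ (i + 1) * (4 * (3 * d) ^ 2) := by gcongr
      _ = 72 / 2 ^ j * (d ^ 2 * 2 ^ (i + j)) := by
          rw [pow_add, pow_add]
          field_simp
          ring
      _ ≤ _ := by gcongr

theorem cover_le {g : ℝ → ℝ} (h : Scale l) (hg : ∀ j, ∀ d ∈ Ioo 0 (l j), 2 ^ j ≤ g d) (j : ℕ)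
    (A : Set ℂ) : volume {t : ℂ | ∃ x ∈ Kc (sh j l), t + x ∈ A} ≤
      ENNReal.ofReal (72 / 2 ^ j) * haus g A := by
  let μ : OuterMeasure ℂ :=
    { measureOf := fun s => volume {t : ℂ | ∃ x ∈ Kc (sh j l), t + x ∈ s}
      empty := by simp
      mono := fun hs => measure_mono fun t ⟨x, h1, h2⟩ => ⟨x, h1, hs h2⟩
      iUnion_nat := fun s _ => by
        refine le_trans (measure_mono ?_) (measure_iUnion_le _)
        rintro t ⟨x, h1, h2⟩
        obtain ⟨n, hn⟩ := mem_iUnion.1 h2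
        exact mem_iUnion.2 ⟨n, x, h1, hn⟩ }
  have hc : (0 : ℝ) < 72 / 2 ^ j := by positivity
  have hl := h.pos j
  have h1 : μ ≤ OuterMeasure.mkMetric (ENNReal.ofReal (72 / 2 ^ j) •
      fun d : ENNReal => ENNReal.ofReal (d.toReal ^ 2 * g d.toReal)) := by
    refine OuterMeasure.le_mkMetric _ μ (ENNReal.ofReal (l j / 2))
      (ENNReal.ofReal_pos.2 (by linarith only [hl])) fun s hs => ?_
    rcases s.eq_empty_or_nonempty with rfl | ⟨p, hp⟩
    · simp
    have h2 : Metric.ediam s ≠ ⊤ := ne_top_of_le_ne_top ENNReal.ofReal_ne_top hs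
    have h3 : (Metric.ediam s).toReal ≤ l j / 2 := ENNReal.toReal_le_of_le_ofReal (by linarith only [hl]) hs
    rw [Pi.smul_apply, smul_eq_mul, ← ENNReal.ofReal_mul hc.le]
    refine Cover_diam h hg j (p := p) ENNReal.toReal_nonneg (by linarith only [hl, h3]) fun y hy => ?_
    rw [← dist_eq_norm]
    exact Metric.dist_le_diam_of_mem' h2 hy hp
  rw [OuterMeasure.mkMetric_smul _ ENNReal.ofReal_ne_top (ENNReal.ofReal_pos.2 hc).ne'] at h1
  have h2 := h1 A
  rw [smul_apply, OuterMeasure.coe_mkMetric, smul_eq_mul] at h2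
  exact h2

theorem partA {g : ℝ → ℝ} {r₀ : ℝ} (h0 : 0 < r₀) (ha : AntitoneOn g (Ioo 0 r₀))
    (hp : ∀ r ∈ Ioo 0 r₀, 0 < g r) (hi : IntegrableOn (fun r => 1 / (r * g r)) (Ioo 0 r₀)) :
    Strong g := by
  obtain ⟨l, hl, hg⟩ := exists_scale h0 ha hp hi
  intro f hf
  filter_upwards [hit hf hl] with θ hθ
  refine hθ.imp id fun h C δ hC hδ U hU ⟨u, hu⟩ => ?_
  obtain ⟨ρ, hρ, hb⟩ := Metric.isOpen_iff.1 hU u hu
  by_contra hne
  have h1 : Tendsto (fun j : ℕ => ENNReal.ofReal (72 / 2 ^ j)) atTop (𝓝 0) := by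
    rw [← ENNReal.ofReal_zero]
    exact ENNReal.tendsto_ofReal (tendsto_const_nhds.div_atTop
      (tendsto_pow_atTop_atTop_of_one_lt one_lt_two))
  have h2 := ENNReal.Tendsto.mul_const h1 (Or.inr hne)
  rw [zero_mul] at h2
  refine (Metric.measure_ball_pos volume u (half_pos hρ)).not_ge (ge_of_tendsto h2 ?_)
  filter_upwards [hl.tendsto.eventually (ge_mem_nhds (by positivity : 0 < ρ / 4))] with j hj
  refine le_trans (measure_mono_ae ?_) (cover_le hl hg j _)
  filter_upwards [h C δ hC hδ j] with t ⟨x, h3, h4⟩ ht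
  refine ⟨x, h3, h4, hb ?_⟩
  obtain ⟨ε, rfl⟩ := h3
  have h5 := cx_mem (hl.sh j) ε
  rw [sh, zero_add] at h5
  have h6 : ‖t - u‖ < ρ / 2 := by
    rw [← dist_eq_norm]
    exact ht
  rw [Metric.mem_ball, dist_eq_norm, add_sub_right_comm]
  refine (norm_add_le _ _).trans_lt ?_
  rw [Complex.norm_real, Real.norm_eq_abs, abs_of_nonneg h5.1]
  linarith only [hρ, hj, h5, h6, h5.2]

end Pool.Agent.Work.MP_31144c_an
end
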