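import Mathlib

namespace Pool.Agent.Work.MP_31144c_an

open Filter Topology MeasureTheory

/-- The Stolz angle `{z ∈ 𝔻 : |z - P| < C (1 - |z|), |z - P| < δ}`. -/
def stolz (P : ℂ) (C δ : ℝ) : Set ℂ :=
  {z | ‖z‖ < 1 ∧ ‖z - P‖ < C * (1 - ‖z‖) ∧ ‖z - P‖ < δ}

/-- `P` is of type (a) for `f`: `f` has a finite limit at `P` within every Stolz angle at `P`. -/
def TypeA (f : ℂ → ℂ) (P : ℂ) : Prop :=
  ∀ C δ : ℝ, 1 < C → 0 < δ → ∃ L : ℂ, Tendsto f (𝓝[stolz P C δ] P) (𝓝 L)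

/-- `V(f, P, S)`: the values taken infinitely often as `z → P` within `S`. -/
def vals (f : ℂ → ℂ) (P : ℂ) (S : Set ℂ) : Set ℂ :=
  {w | ∃ z : ℕ → ℂ, Function.Injective z ∧ (∀ k, z k ∈ S) ∧ Tendsto z atTop (𝓝 P) ∧
    ∀ k, f (z k) = w}

/-- The Hausdorff measure on the plane with gauge function `r ↦ r ^ 2 * g r`. -/
noncomputable def haus (g : ℝ → ℝ) : Measure ℂ :=
  Measure.mkMetric fun d => ENNReal.ofReal (d.toReal ^ 2 * g d.toReal)

/-- The strengthened Plessner theorem for the gauge `r ^ 2 * g r`: for every `f` analytic in the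
disc, almost every boundary point is of type (a) or, for every Stolz angle `S`, the set
`V(f, P, S)` has infinite measure inside every nonempty open set. -/
def Strong (g : ℝ → ℝ) : Prop :=
  ∀ f : ℂ → ℂ, DifferentiableOn ℂ f (Metric.ball 0 1) → ∀ᵐ θ : ℝ,
    TypeA f (Complex.exp (θ * Complex.I)) ∨ ∀ C δ : ℝ, 1 < C → 0 < δ → ∀ U : Set ℂ, IsOpen U →
      U.Nonempty → haus g (vals f (Complex.exp (θ * Complex.I))
        (stolz (Complex.exp (θ * Complex.I)) C δ) ∩ U) = ⊤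

end Pool.Agent.Work.MP_31144c_an
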