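import Pool.Agent.Work.MP_31144c_an.Cone

-- merged part: Pool.Agent.Work.MP_31144c_an.Walk
section
/-! The random walk: basic facts.
PLAN. Everything is an induction on the number of steps, generalising the functional. `Ex_rot`: prove first
`Ex e n (fun l => Φ (l.map (I * ·))) = Ex e n Φ`. `Ex_sq`: `𝔼 d, e d = 0` in the form `𝔼 d, re (x * conj (e d)) = 0` from `rot` used twice.
`stay`: for `‖x‖ ≤ ρ + 1`, `N * Ex e N (ind (∀ s < N, ‖x + pos l s‖ ≤ ρ)) ≤ (ρ + 1) ^ 2 - ‖x‖ ^ 2` by induction on `N`. -/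

namespace Pool.Agent.Work.MP_31144c_an

open Finset Complex
open scoped BigOperators

theorem ind_pos {p : Prop} (h : p) : ind p = 1 := by
  simp [ind, h]

theorem ind_neg {p : Prop} (h : ¬ p) : ind p = 0 := by
  simp [ind, h]

theorem ind_nonneg (p : Prop) : 0 ≤ ind p := by
  unfold ind
  split_ifs <;> norm_num

theorem ind_le_one (p : Prop) : ind p ≤ 1 := by
  unfold ind
  split_ifs <;> norm_num

theorem ind_mono {p q : Prop} (h : p → q) : ind p ≤ ind q := by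
  by_cases hp : p
  · rw [ind_pos hp, ind_pos (h hp)]
  · rw [ind_neg hp]
    exact ind_nonneg q

theorem ind_congr {p q : Prop} (h : p ↔ q) : ind p = ind q := by
  rw [propext h]

theorem ind_and (p q : Prop) : ind (p ∧ q) = ind p * ind q := by
  by_cases hp : p <;> by_cases hq : q <;> simp [ind, hp, hq]

theorem ind_not (p : Prop) : ind (¬ p) = 1 - ind p := by
  by_cases hp : p <;> simp [ind, hp]

variable {D : Type} [Fintype D] {e : D → ℂ} {n : ℕ} {Φ Ψ : List ℂ → ℝ}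

theorem Ex_mono (S : Step e) (h : ∀ l : List ℂ, l.length = n → (∀ a ∈ l, ‖a‖ = 1) → Φ l ≤ Ψ l) :
    Ex e n Φ ≤ Ex e n Ψ := by
  induction n generalizing Φ Ψ with
  | zero => exact h [] rfl (by simp)
  | succ n ih =>
    refine Finset.expect_le_expect fun d _ => ih fun l hl ha => h (e d :: l) (by simp [hl]) ?_
    intro a h1
    rcases List.mem_cons.1 h1 with rfl | h1
    · exact S.nrm d
    · exact ha a h1

theorem Ex_congr (h : ∀ l : List ℂ, l.length = n → Φ l = Ψ l) : Ex e n Φ = Ex e n Ψ := by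
  induction n generalizing Φ Ψ with
  | zero => exact h [] rfl
  | succ n ih =>
    exact Finset.expect_congr rfl fun d _ => ih fun l hl => h (e d :: l) (by simp [hl])

theorem Ex_const (S : Step e) (n : ℕ) (c : ℝ) : Ex e n (fun _ => c) = c := by
  have := S.ne
  induction n with
  | zero => rfl
  | succ n ih => simp [Ex, ih]

theorem Ex_nonneg (h : ∀ l, 0 ≤ Φ l) : 0 ≤ Ex e n Φ := by
  induction n generalizing Φ with
  | zero => exact h []
  | succ n ih => exact Finset.expect_nonneg fun d _ => ih fun l => h _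

theorem Ex_add (n : ℕ) (Φ Ψ : List ℂ → ℝ) :
    Ex e n (fun l => Φ l + Ψ l) = Ex e n Φ + Ex e n Ψ := by
  induction n generalizing Φ Ψ with
  | zero => rfl
  | succ n ih =>
    simp only [Ex]
    rw [← Finset.expect_add_distrib]
    exact Finset.expect_congr rfl fun d _ => ih _ _

theorem Ex_sub (n : ℕ) (Φ Ψ : List ℂ → ℝ) :
    Ex e n (fun l => Φ l - Ψ l) = Ex e n Φ - Ex e n Ψ := by
  induction n generalizing Φ Ψ with
  | zero => rfl
  | succ n ih =>
    simp only [Ex]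
    rw [← Finset.expect_sub_distrib]
    exact Finset.expect_congr rfl fun d _ => ih _ _

theorem Ex_const_mul (n : ℕ) (c : ℝ) (Φ : List ℂ → ℝ) :
    Ex e n (fun l => c * Φ l) = c * Ex e n Φ := by
  induction n generalizing Φ with
  | zero => rfl
  | succ n ih =>
    simp only [Ex]
    rw [Finset.mul_expect]
    exact Finset.expect_congr rfl fun d _ => ih _

theorem Ex_mul_const (n : ℕ) (c : ℝ) (Φ : List ℂ → ℝ) :
    Ex e n (fun l => Φ l * c) = Ex e n Φ * c := by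
  rw [mul_comm, ← Ex_const_mul]
  exact Ex_congr fun l _ => mul_comm _ _

theorem Ex_sum {ι : Type} (n : ℕ) (s : Finset ι) (Φ : ι → List ℂ → ℝ) :
    Ex e n (fun l => ∑ i ∈ s, Φ i l) = ∑ i ∈ s, Ex e n (Φ i) := by
  induction n generalizing Φ with
  | zero => rfl
  | succ n ih =>
    simp only [Ex]
    rw [← Finset.expect_sum_comm]
    exact Finset.expect_congr rfl fun d _ => ih _

theorem Ex_append (a b : ℕ) (Φ : List ℂ → ℝ) :
    Ex e (a + b) Φ = Ex e a fun l => Ex e b fun l' => Φ (l ++ l') := by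
  induction a generalizing Φ with
  | zero => simp [Ex]
  | succ a ih =>
    rw [Nat.add_right_comm]
    simp only [Ex]
    exact Finset.expect_congr rfl fun d _ => ih _

theorem Ex_take (S : Step e) (a b : ℕ) (Φ : List ℂ → ℝ) :
    Ex e (a + b) (fun l => Φ (l.take a)) = Ex e a Φ := by
  rw [Ex_append]
  refine Ex_congr fun l hl => ?_
  simp only [List.take_left' hl]
  exact Ex_const S b _

theorem Ex_split (S : Step e) {s T M : ℕ} (h : s + T ≤ M) (Φ Ψ : List ℂ → ℝ) :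
    Ex e M (fun w => Φ (w.take s) * Ψ ((w.drop s).take T)) = Ex e s Φ * Ex e T Ψ := by
  obtain ⟨c, rfl⟩ := Nat.exists_eq_add_of_le h
  rw [add_assoc, Ex_append, ← Ex_mul_const]
  refine Ex_congr fun l hl => ?_
  simp only [List.take_left' hl, List.drop_left' hl]
  rw [Ex_const_mul, Ex_take S]

theorem Walk_rot (S : Step e) (n : ℕ) (Φ : List ℂ → ℝ) :
    Ex e n (fun l => Φ (l.map fun a => I * a)) = Ex e n Φ := by
  induction n generalizing Φ with
  | zero => rfl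
  | succ n ih =>
    simp only [Ex, List.map_cons]
    rw [← S.rot fun z => Ex e n fun l => Φ (z :: l)]
    exact Finset.expect_congr rfl fun d _ => ih fun l => Φ (I * e d :: l)

theorem Ex_rot (S : Step e) (n : ℕ) (φ : ℂ → ℝ) :
    Ex e n (fun l => φ (I * l.sum)) = Ex e n fun l => φ l.sum := by
  rw [← Walk_rot S n fun l => φ l.sum]
  refine Ex_congr fun l _ => congrArg φ ?_
  simpa using (List.sum_map_mul_left l id I).symm

theorem Walk_step (S : Step e) (x : ℂ) : 𝔼 d, ‖x + e d‖ ^ 2 = ‖x‖ ^ 2 + 1 := by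
  have := S.ne
  have h1 : 𝔼 d, ‖x - e d‖ ^ 2 = 𝔼 d, ‖x + e d‖ ^ 2 := by
    rw [← S.rot fun z => ‖x + z‖ ^ 2, ← S.rot fun z => ‖x + I * z‖ ^ 2]
    refine Finset.expect_congr rfl fun d _ => ?_
    rw [← mul_assoc, I_mul_I, neg_one_mul, sub_eq_add_neg]
  have h2 : 𝔼 d, (‖x + e d‖ ^ 2 + ‖x - e d‖ ^ 2) = 2 * (‖x‖ ^ 2 + 1) := by
    rw [Finset.expect_congr rfl (g := fun _ => 2 * (‖x‖ ^ 2 + 1))]
    · simp
    · intro d _
      have h3 := parallelogram_law_with_norm ℝ x (e d)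
      rw [S.nrm d] at h3
      nlinarith [h3]
  rw [Finset.expect_add_distrib, h1] at h2
  linarith only [h2]

theorem Ex_sq (S : Step e) (n : ℕ) (x : ℂ) :
    Ex e n (fun l => ‖x + l.sum‖ ^ 2) = ‖x‖ ^ 2 + n := by
  have := S.ne
  induction n generalizing x with
  | zero => simp [Ex]
  | succ n ih =>
    simp only [Ex, List.sum_cons]
    rw [Finset.expect_congr rfl (g := fun d => ‖x + e d‖ ^ 2 + n), Finset.expect_add_distrib,
      Walk_step S]
    · rw [Fintype.expect_const]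
      push_cast
      ring
    · intro d _
      rw [← ih]
      exact Ex_congr fun l _ => by rw [add_assoc]

theorem cheb (S : Step e) (n : ℕ) {ρ : ℝ} (h : 0 < ρ) :
    Ex e n (fun l => ind (ρ < ‖l.sum‖)) ≤ n / ρ ^ 2 := by
  have h1 : Ex e n (fun l => ind (ρ < ‖l.sum‖)) ≤
      Ex e n fun l => (1 / ρ ^ 2) * ‖(0 : ℂ) + l.sum‖ ^ 2 := by
    refine Ex_mono S fun l _ _ => ?_
    rw [zero_add]
    by_cases h2 : ρ < ‖l.sum‖
    · rw [ind_pos h2, one_div_mul_eq_div, le_div_iff₀ (by positivity), one_mul]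
      exact pow_le_pow_left₀ h.le h2.le 2
    · rw [ind_neg h2]
      positivity
  rw [Ex_const_mul, Ex_sq S] at h1
  simpa [div_eq_inv_mul] using h1

theorem Walk_pos_cons (a : ℂ) (l : List ℂ) (s : ℕ) : pos (a :: l) (s + 1) = a + pos l s := by
  simp [pos]

theorem Walk_stay (S : Step e) {ρ : ℝ} (N : ℕ) (x : ℂ) (hx : ‖x‖ ≤ ρ + 1) :
    N * Ex e N (fun l => ind (∀ s < N, ‖x + pos l s‖ ≤ ρ)) ≤ (ρ + 1) ^ 2 - ‖x‖ ^ 2 := by
  have := S.ne
  induction N generalizing x with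
  | zero =>
    have h1 := pow_le_pow_left₀ (norm_nonneg x) hx 2
    simp only [Nat.cast_zero, zero_mul]
    linarith only [h1]
  | succ N ih =>
    by_cases h0 : ‖x‖ ≤ ρ
    · have h1 : ∀ d, ((N + 1 : ℕ) : ℝ) *
          Ex e N (fun l => ind (∀ s < N + 1, ‖x + pos (e d :: l) s‖ ≤ ρ)) ≤
          ((ρ + 1) ^ 2 + 1) - ‖x + e d‖ ^ 2 := by
        intro d
        have h2 := ih (x + e d) ((norm_add_le _ _).trans (by rw [S.nrm d]; linarith))
        have h3 : Ex e N (fun l => ind (∀ s < N + 1, ‖x + pos (e d :: l) s‖ ≤ ρ)) ≤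
            Ex e N (fun l => ind (∀ s < N, ‖x + e d + pos l s‖ ≤ ρ)) := by
          refine Ex_mono S fun l _ _ => ind_mono fun h4 s hs => ?_
          have h5 := h4 (s + 1) (Nat.succ_lt_succ hs)
          rwa [Walk_pos_cons, ← add_assoc] at h5
        have h4 : Ex e N (fun l => ind (∀ s < N, ‖x + e d + pos l s‖ ≤ ρ)) ≤ 1 :=
          (Ex_mono S fun l _ _ => ind_le_one _).trans_eq (Ex_const S N 1)
        have h5 := mul_le_mul_of_nonneg_left h3 (Nat.cast_nonneg (α := ℝ) N)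
        push_cast
        linarith only [h2, h3, h4, h5]
      have h6 := Finset.expect_le_expect (s := univ) fun d _ => h1 d
      rw [← Finset.mul_expect, Finset.expect_sub_distrib, Walk_step S, Fintype.expect_const] at h6
      simp only [Ex]
      linarith only [h6]
    · have h1 := pow_le_pow_left₀ (norm_nonneg x) hx 2
      rw [Ex_congr (Ψ := fun _ => 0) fun l _ => ind_neg fun h2 => h0 (by
        simpa [pos] using h2 0 (Nat.succ_pos N)), Ex_const S]
      linarith only [h1]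

theorem stay (S : Step e) {N : ℕ} (hN : 0 < N) {ρ : ℝ} (h : 0 ≤ ρ) :
    Ex e N (fun l => ind (∀ s < N, ‖pos l s‖ ≤ ρ)) ≤ (ρ + 1) ^ 2 / N := by
  have h1 := Walk_stay S N 0 (by rw [norm_zero]; linarith only [h])
  have h2 : (0 : ℝ) < N := by exact_mod_cast hN
  rw [le_div_iff₀ h2, mul_comm]
  simpa using h1

theorem occ_nonneg (ρ : ℝ) (x : ℂ) (l : List ℂ) : 0 ≤ occ ρ x l := by
  induction l generalizing x with
  | nil => exact le_rfl
  | cons a l ih => exact add_nonneg (ind_nonneg _) (ih _)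

theorem occ_append (ρ : ℝ) (x : ℂ) (l l' : List ℂ) :
    occ ρ x (l ++ l') = occ ρ x l + occ ρ (x + l.sum) l' := by
  induction l generalizing x with
  | nil => simp [occ]
  | cons a l ih => simp only [List.cons_append, occ, ih, List.sum_cons, add_assoc]

theorem occ_eq_sum (ρ : ℝ) (x : ℂ) (l : List ℂ) :
    occ ρ x l = ∑ i ∈ range l.length, ind (‖x + pos l (i + 1)‖ ≤ ρ) := by
  induction l generalizing x with
  | nil => simp [occ]
  | cons a l ih =>
    rw [List.length_cons, Finset.sum_range_succ', occ, ih, add_comm]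
    simp [Walk_pos_cons, add_assoc, pos]

theorem pos_add (l : List ℂ) (s i : ℕ) : pos l (s + i) = pos l s + pos (l.drop s) i := by
  simp [pos, List.take_add]

theorem pos_take (l : List ℂ) {s t : ℕ} (h : s ≤ t) : pos (l.take t) s = pos l s := by
  simp [pos, List.take_take, min_eq_left h]

theorem Ex_occ (S : Step e) (L : ℕ) (ρ : ℝ) (x : ℂ) :
    Ex e L (occ ρ x) = ∑ i ∈ range L, Pr e (i + 1) x ρ := by
  rw [Ex_congr (Ψ := fun l => ∑ i ∈ range L, ind (‖x + pos l (i + 1)‖ ≤ ρ))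
    fun l hl => by rw [occ_eq_sum, hl], Ex_sum]
  refine Finset.sum_congr rfl fun i hi => ?_
  obtain ⟨c, rfl⟩ := Nat.exists_eq_add_of_le (Nat.succ_le_of_lt (Finset.mem_range.1 hi))
  exact Ex_take S (i + 1) c fun l => ind (‖x + l.sum‖ ≤ ρ)

end Pool.Agent.Work.MP_31144c_an
end

-- merged part: Pool.Agent.Work.MP_31144c_an.Dig
section
/-! Digits.
PLAN. `step_rt`: `I * rt m d = rt m (d + m / 4)`, `rt m (d + m) = rt m d`; a sum over `range m` of an `m`-periodic function is shift invariant.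
`vol_split`: `A ∩ [0, 1)` is the union over `d < m` of the images of `{y ∈ [0, 1) | (d + y) / m ∈ A}`, i.e. preimages under `x ↦ m x - d`
(`Real.volume_preimage_mul_left`, `measure_preimage_add_right`; no measurability is needed). `vol_dl`: induction on `N` for `q = 1`
(`dl m (N + 1) ((d + y) / m) = rt m d :: dl m N y` by `dl_periodic`), then `vol_split` with `q`.
`dl_approx`: induction on `N` generalising `y` and `s`; `‖exp (i a) - exp (i b)‖ ≤ |a - b|` (`Complex.norm_exp_I_mul_ofReal_sub_one_le`). -/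

namespace Pool.Agent.Work.MP_31144c_an

open Set Filter MeasureTheory Complex
open scoped BigOperators

variable {m : ℕ}

theorem Dig_shift (f : ℕ → ℝ) (m : ℕ) (hf : ∀ d, f (d + m) = f d) (k : ℕ) :
    ∑ d ∈ Finset.range m, f (d + k) = ∑ d ∈ Finset.range m, f d := by
  induction k with
  | zero => simp
  | succ k ih =>
    rw [← ih]
    have h1 := Finset.sum_range_succ (fun d => f (d + k)) m
    have h2 := Finset.sum_range_succ' (fun d => f (d + k)) m
    have h3 : f (m + k) = f (0 + k) := by rw [add_comm m k, hf, zero_add]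
    have h4 : ∑ d ∈ Finset.range m, f (d + (k + 1)) = ∑ d ∈ Finset.range m, f (d + 1 + k) :=
      Finset.sum_congr rfl fun d _ => by rw [add_assoc, add_comm 1 k]
    linarith only [h1, h2, h3, h4]

theorem Dig_norm (u : ℝ) : ‖exp (2 * Real.pi * I * u)‖ = 1 := by
  rw [show (2 * Real.pi * I * u : ℂ) = ((2 * Real.pi * u : ℝ) : ℂ) * I by push_cast; ring]
  exact Complex.norm_exp_ofReal_mul_I _

theorem Dig_rt (m d : ℕ) : rt m d = exp (2 * Real.pi * I * ((d / m : ℝ) : ℂ)) := by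
  rw [rt]
  congr 1
  push_cast
  ring

theorem Dig_lip (u v : ℝ) :
    ‖exp (2 * Real.pi * I * u) - exp (2 * Real.pi * I * v)‖ ≤ 7 * |u - v| := by
  have h1 : exp (2 * Real.pi * I * u) - exp (2 * Real.pi * I * v) =
      exp (2 * Real.pi * I * v) * (exp (I * ((2 * Real.pi * (u - v) : ℝ) : ℂ)) - 1) := by
    rw [mul_sub, mul_one, ← Complex.exp_add]
    congr 2
    push_cast
    ring
  rw [h1, norm_mul, Dig_norm, one_mul]
  refine Real.norm_exp_I_mul_ofReal_sub_one_le.trans ?_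
  rw [Real.norm_eq_abs, abs_mul, abs_of_pos Real.two_pi_pos]
  have := Real.pi_lt_d2
  exact mul_le_mul_of_nonneg_right (by linarith only [this]) (abs_nonneg _)

theorem Dig_int (u : ℝ) (k : ℤ) :
    exp (2 * Real.pi * I * ((u - k : ℝ) : ℂ)) = exp (2 * Real.pi * I * u) := by
  rw [show (2 * Real.pi * I * ((u - k : ℝ) : ℂ)) = 2 * Real.pi * I * u - k * (2 * Real.pi * I) by
    push_cast; ring, Complex.exp_sub, Complex.exp_int_mul_two_pi_mul_I, div_one]

theorem step_rt (h0 : 0 < m) (h4 : 4 ∣ m) : Step fun d : Fin m => rt m d := by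
  obtain ⟨k, hk⟩ := h4
  have hk0 : (k : ℂ) ≠ 0 := by
    have : k ≠ 0 := by omega
    exact_mod_cast this
  have hm0 : (m : ℂ) ≠ 0 := by exact_mod_cast h0.ne'
  have e1 : ∀ d, I * rt m d = rt m (d + k) := fun d => by
    rw [rt, rt, ← Complex.exp_pi_div_two_mul_I, ← Complex.exp_add, Complex.exp_pi_div_two_mul_I]
    congr 1
    have : (m : ℂ) = 4 * k := by rw [hk]; push_cast; ring
    rw [this]
    push_cast
    field_simp
    ring
  have e2 : ∀ d, rt m (d + m) = rt m d := fun d => by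
    rw [rt, rt, show (2 * Real.pi * I * ((d + m : ℕ) : ℂ) / m) =
      2 * Real.pi * I * d / m + 2 * Real.pi * I by push_cast; field_simp, Complex.exp_add,
      Complex.exp_two_pi_mul_I, mul_one]
  refine ⟨⟨⟨0, h0⟩⟩, fun d => by rw [Dig_rt]; exact Dig_norm _, fun φ => ?_⟩
  rw [Finset.expect_eq_sum_div_card, Finset.expect_eq_sum_div_card,
    Fin.sum_univ_eq_sum_range (fun d => φ (I * rt m d)) m,
    Fin.sum_univ_eq_sum_range (fun d => φ (rt m d)) m]
  simp only [e1]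
  rw [Dig_shift (fun d => φ (rt m d)) m (fun d => by simp only [e2]) k]

theorem dl_periodic (m N : ℕ) (y : ℝ) (k : ℕ) : dl m N (k + y) = dl m N y := by
  induction N generalizing y k with
  | zero => rfl
  | succ N ih =>
    rw [dl, dl, Int.fract_natCast_add, show (m : ℝ) * (k + y) = ((m * k : ℕ) : ℝ) + m * y by
      push_cast; ring, ih]

theorem dl_approx (h0 : 0 < m) (N : ℕ) (y : ℝ) {s : ℕ} (hs : s ≤ N) :
    ‖∑ i ∈ Finset.range s, exp (2 * Real.pi * I * y) ^ m ^ i - pos (dl m N y) s‖ ≤ 7 * s / m := by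
  have hm : (0 : ℝ) < m := by exact_mod_cast h0
  induction N generalizing y s with
  | zero =>
    obtain rfl : s = 0 := by omega
    simp [pos]
  | succ N ih =>
    cases s with
    | zero => simp [pos]
    | succ s =>
      have h1 := ih (m * y) (s := s) (by omega)
      have h2 : ∀ i, exp (2 * Real.pi * I * y) ^ m ^ (i + 1) =
          exp (2 * Real.pi * I * ((m * y : ℝ) : ℂ)) ^ m ^ i := fun i => by
        rw [pow_succ', pow_mul, ← Complex.exp_nat_mul]
        congr 2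
        push_cast
        ring
      have h3 : pos (dl m (N + 1) y) (s + 1) =
          rt m ⌊m * Int.fract y⌋₊ + pos (dl m N (m * y)) s := by
        simp [dl, pos]
      have h4 : ‖exp (2 * Real.pi * I * y) - rt m ⌊m * Int.fract y⌋₊‖ ≤ 7 / m := by
        rw [Dig_rt, ← Dig_int y ⌊y⌋]
        refine (Dig_lip _ _).trans ?_
        have a0 : 0 ≤ (m : ℝ) * Int.fract y := mul_nonneg hm.le (Int.fract_nonneg y)
        have a1 := Nat.floor_le a0
        have a2 := Nat.lt_floor_add_one ((m : ℝ) * Int.fract y)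
        have a3 : y - ⌊y⌋ - (⌊m * Int.fract y⌋₊ : ℝ) / m =
            (m * Int.fract y - ⌊m * Int.fract y⌋₊) / m := by
          rw [Int.self_sub_floor]
          field_simp
        rw [a3, abs_of_nonneg (div_nonneg (by linarith only [a1]) hm.le), ← mul_div_assoc]
        exact div_le_div_of_nonneg_right (by linarith only [a2]) hm.le
      rw [Finset.sum_range_succ', h3]
      simp only [h2, pow_zero, pow_one]
      rw [add_comm (rt m _), add_sub_add_comm]
      refine (norm_add_le _ _).trans ?_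
      rw [show (7 * ((s + 1 : ℕ) : ℝ) / m) = 7 * s / m + 7 / m by push_cast; ring]
      exact add_le_add h1 h4

theorem Dig_pre {a : ℝ} (ha : 0 < a) (b : ℝ) (S : Set ℝ) :
    volume ((fun x => a * x - b) ⁻¹' S) = ENNReal.ofReal a⁻¹ * volume S := by
  have h1 : (fun x => a * x - b) ⁻¹' S = (fun x => a * x) ⁻¹' ((fun z => z + -b) ⁻¹' S) := by
    ext x
    simp [sub_eq_add_neg]
  rw [h1, Real.volume_preimage_mul_left ha.ne', measure_preimage_add_right,
    abs_of_pos (inv_pos.2 ha)]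

theorem vol_split (h0 : 0 < m) (p : ℝ → Prop) : volume {x ∈ Ico (0 : ℝ) 1 | p x} ≤
    ∑ d ∈ Finset.range m, (m : ENNReal)⁻¹ * volume {y ∈ Ico (0 : ℝ) 1 | p ((d + y) / m)} := by
  have hm : (0 : ℝ) < m := by exact_mod_cast h0
  have hs : {x ∈ Ico (0 : ℝ) 1 | p x} ⊆ ⋃ d ∈ Finset.range m,
      (fun x : ℝ => m * x - d) ⁻¹' {y ∈ Ico (0 : ℝ) 1 | p ((d + y) / m)} := by
    rintro x ⟨⟨h1, h2⟩, h3⟩
    have a0 : 0 ≤ (m : ℝ) * x := mul_nonneg hm.le h1
    have a1 := Nat.floor_le a0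
    have a2 := Nat.lt_floor_add_one ((m : ℝ) * x)
    refine mem_iUnion₂.2 ⟨⌊m * x⌋₊, Finset.mem_range.2 ((Nat.floor_lt a0).2 (by linarith only [hm, h2, mul_pos_of_neg_of_neg (Mathlib.Tactic.Linarith.sub_neg_of_lt hm) (Mathlib.Tactic.Linarith.sub_neg_of_lt h2)])),
      ⟨by linarith only [a1], by linarith only [a2]⟩, ?_⟩
    rwa [add_sub_cancel, mul_div_cancel_left₀ _ hm.ne']
  refine (measure_mono hs).trans ((measure_biUnion_finset_le _ _).trans (le_of_eq ?_))
  refine Finset.sum_congr rfl fun d _ => ?_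
  rw [Dig_pre hm, ENNReal.ofReal_inv_of_pos hm, ENNReal.ofReal_natCast]

theorem Dig_one (h0 : 0 < m) (N : ℕ) (Φ : List ℂ → Prop) :
    volume {x ∈ Ico (0 : ℝ) 1 | Φ (dl m N x)} ≤
      ENNReal.ofReal (Ex (fun d : Fin m => rt m d) N fun l => ind (Φ l)) := by
  have hm : (0 : ℝ) < m := by exact_mod_cast h0
  induction N generalizing Φ with
  | zero =>
    by_cases h : Φ []
    · refine (measure_mono (sep_subset _ _)).trans ?_
      simp [Ex, h, ind_pos]
    · simp [dl, h]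
  | succ N ih =>
    refine (vol_split h0 _).trans ?_
    have e1 : ∀ d ∈ Finset.range m,
        {y ∈ Ico (0 : ℝ) 1 | Φ (dl m (N + 1) ((d + y) / m))} =
          {y ∈ Ico (0 : ℝ) 1 | Φ (rt m d :: dl m N y)} := fun d hd => by
      refine Set.ext fun y => and_congr_right fun ⟨h1, h2⟩ => ?_
      have hd' : (d : ℝ) + 1 ≤ m := by exact_mod_cast Finset.mem_range.1 hd
      have a0 : (0 : ℝ) ≤ d := Nat.cast_nonneg d
      have a1 : Int.fract (((d : ℝ) + y) / m) = (d + y) / m :=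
        Int.fract_eq_self.2 ⟨div_nonneg (by linarith only [h1]) hm.le, (div_lt_one hm).2 (by linarith only [h2, hd'])⟩
      have a2 : (m : ℝ) * ((d + y) / m) = d + y := mul_div_cancel₀ _ hm.ne'
      have a3 : ⌊(d : ℝ) + y⌋₊ = d := (Nat.floor_eq_iff (by linarith only [h1])).2 ⟨by linarith only [h1], by linarith only [h2]⟩
      rw [dl, a1, a2, a3, dl_periodic]
    have e2 : ∀ d : ℕ, 0 ≤ Ex (fun d : Fin m => rt m d) N fun l => ind (Φ (rt m d :: l)) :=
      fun d => Ex_nonneg fun _ => ind_nonneg _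
    rw [Ex, Finset.expect_eq_sum_div_card, Fin.sum_univ_eq_sum_range
      (fun d => Ex (fun d : Fin m => rt m d) N fun l => ind (Φ (rt m d :: l))) m,
      Finset.card_univ, Fintype.card_fin, Finset.sum_div,
      ENNReal.ofReal_sum_of_nonneg fun d _ => div_nonneg (e2 d) hm.le]
    refine Finset.sum_le_sum fun d hd => ?_
    rw [e1 d hd, ENNReal.ofReal_div_of_pos hm, ENNReal.ofReal_natCast, ENNReal.div_eq_inv_mul]
    exact mul_le_mul_right (ih fun l => Φ (rt m d :: l)) _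

theorem vol_dl (h0 : 0 < m) (N : ℕ) {q : ℕ} (hq : 0 < q) (Φ : List ℂ → Prop) :
    volume {x ∈ Ico (0 : ℝ) 1 | Φ (dl m N (q * x))} ≤
      ENNReal.ofReal (Ex (fun d : Fin m => rt m d) N fun l => ind (Φ l)) := by
  have hq' : (0 : ℝ) < q := by exact_mod_cast hq
  refine (vol_split hq _).trans ?_
  have e1 : ∀ (d : ℕ) (y : ℝ), dl m N (q * ((d + y) / q)) = dl m N y := fun d y => by
    rw [mul_div_cancel₀ _ hq'.ne', dl_periodic]
  simp only [e1]
  rw [Finset.sum_const, Finset.card_range, nsmul_eq_mul, ← mul_assoc,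
    ENNReal.mul_inv_cancel (by exact_mod_cast hq.ne') (ENNReal.natCast_ne_top q), one_mul]
  exact Dig_one h0 N Φ

theorem ae_circle {p : ℂ → Prop}
    (h : ∀ᵐ x : ℝ, x ∈ Ico (0 : ℝ) 1 → p (exp (2 * Real.pi * I * x))) :
    ∀ᵐ θ : ℝ, p (exp (θ * I)) := by
  rw [ae_iff] at h ⊢
  refine measure_mono_null (t := ⋃ k : ℤ, (fun θ : ℝ => (2 * Real.pi)⁻¹ * θ - k) ⁻¹'
    {x : ℝ | ¬ (x ∈ Ico (0 : ℝ) 1 → p (exp (2 * Real.pi * I * x)))}) (fun θ hθ => ?_)
    (measure_iUnion_null fun k => ?_)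
  · refine mem_iUnion.2 ⟨⌊(2 * Real.pi)⁻¹ * θ⌋, fun k => hθ ?_⟩
    have k1 := k ⟨Int.fract_nonneg _, Int.fract_lt_one _⟩
    rw [Dig_int] at k1
    have hp : (Real.pi : ℂ) ≠ 0 := by exact_mod_cast Real.pi_ne_zero
    rwa [show (2 * Real.pi * I * (((2 * Real.pi)⁻¹ * θ : ℝ) : ℂ)) = θ * I by
      push_cast; field_simp] at k1
  · rw [Dig_pre (inv_pos.2 Real.two_pi_pos), h, mul_zero]

end Pool.Agent.Work.MP_31144c_an
end

-- merged part: Pool.Agent.Work.MP_31144c_an.Ser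
section
/-! The lacunary series (step B1).
PLAN. `lac_approx`: put `y = 1 - ‖z‖`. Head: `‖z ^ ν - P ^ ν‖ ≤ ν ‖z - P‖` (`norm_pow_sub_pow_le`-type induction), `ν i * 2 ^ (k - i) ≤ ν k`. Tail: `‖z‖ ^ ν ≤ 1 / (ν y)`
(Bernoulli `one_add_mul_le_pow` or `(1 - y) ^ ν ≤ exp (- ν y)`), `ν (k + 2 + r) ≥ 2 ^ r ν (k + 2)`. `blk_eq`: `st n` is strictly monotone and `b ≤ st n b`.
`psum_blk`: `Finset.sum_range_add`, `nu n m (st n b + i) = nu n m (st n b) * m b ^ i`, `dl_approx` with `y = nu * x`. `sausage`: for `z` close to `P` take `k` with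
`ν (k + 1) y ≤ 1 < ν (k + 2) y`, `b = blk n (k + 1)`; `m (blk n k) ≥ b * n b ≥ 2 C n b`. `psum_tendsto`: `z k = (1 - 1 / ν (k + 1)) P ∈ stolz P 2 1`. -/

namespace Pool.Agent.Work.MP_31144c_an

open Set Filter Topology Complex
open scoped BigOperators

variable {a : ℕ → ℝ} {ν μ n m : ℕ → ℕ}

lemma Ser_term (ha : ∀ k, |a k| ≤ 1) (hν : StrictMono ν) {z : ℂ} (hz : ‖z‖ ≤ 1) (k : ℕ) :
    ‖(a k : ℂ) * z ^ ν k‖ ≤ ‖z‖ ^ k := by
  rw [norm_mul, norm_pow, norm_real]
  exact (mul_le_of_le_one_left (by positivity) (ha k)).trans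
    (pow_le_pow_of_le_one (norm_nonneg _) hz hν.le_apply)

theorem lac_diff (ha : ∀ k, |a k| ≤ 1) (hν : StrictMono ν) :
    DifferentiableOn ℂ (lac a ν) (Metric.ball 0 1) := by
  intro z hz
  obtain ⟨r, h1, h2⟩ := exists_between (mem_ball_zero_iff.1 hz)
  refine (((differentiableOn_tsum_of_summable_norm
    (summable_geometric_of_lt_one ((norm_nonneg _).trans h1.le) h2)
    (fun _ => by fun_prop) Metric.isOpen_ball fun k w hw =>
      (Ser_term ha hν ((mem_ball_zero_iff.1 hw).trans h2).le k).trans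
        (pow_le_pow_left₀ (norm_nonneg _) (mem_ball_zero_iff.1 hw).le _)).differentiableAt
    (Metric.isOpen_ball.mem_nhds (mem_ball_zero_iff.2 h1)))).differentiableWithinAt

lemma Ser_pow {z P : ℂ} (hz : ‖z‖ ≤ 1) (hP : ‖P‖ ≤ 1) (j : ℕ) : ‖z ^ j - P ^ j‖ ≤ j * ‖z - P‖ := by
  induction j with
  | zero => simp
  | succ j ih =>
    rw [show z ^ (j + 1) - P ^ (j + 1) = z * (z ^ j - P ^ j) + P ^ j * (z - P) by ring,
      Nat.cast_succ, add_one_mul]
    refine norm_add_le_of_le (le_trans ?_ ih) ?_ <;> rw [norm_mul]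
    · exact mul_le_of_le_one_left (norm_nonneg _) hz
    · exact mul_le_of_le_one_left (norm_nonneg _) (norm_pow P j ▸ pow_le_one₀ (norm_nonneg _) hP)

lemma Ser_bern {x : ℝ} (h0 : 0 ≤ x) (j : ℕ) : x ^ j * (1 + j * (1 - x)) ≤ 1 := by
  induction j with
  | zero => simp
  | succ j ih =>
    rw [pow_succ, mul_assoc, Nat.cast_succ]
    refine le_trans (mul_le_mul_of_nonneg_left ?_ (by positivity)) ih
    linarith only [mul_nonneg (Nat.cast_nonneg (α := ℝ) j) (sq_nonneg (1 - x)), sq_nonneg (1 - x), sq_nonneg ((1 : ℝ) - x)]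

theorem lac_approx (ha : Antitone a) (h0 : ∀ k, 0 ≤ a k) (h1 : ∀ k, a k ≤ 1) (hν0 : 0 < ν 0)
    (hν : ∀ k, ν (k + 1) = ν k * μ k) (hμ : ∀ k, 2 ≤ μ k) {P z : ℂ} (hP : ‖P‖ = 1) (hz : ‖z‖ < 1)
    {C : ℝ} (hC : ‖z - P‖ ≤ C * (1 - ‖z‖)) {k : ℕ} (k1 : ν (k + 1) * (1 - ‖z‖) ≤ 1)
    (k2 : 1 < ν (k + 2) * (1 - ‖z‖)) :
    ‖lac a ν z - ∑ i ∈ Finset.range (k + 1), (a i : ℂ) * P ^ ν i‖ ≤ 3 * a (k + 1) + 2 * C / μ k := by
  have p : ∀ k, 0 < ν k := fun k => by
    induction k with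
    | zero => exact hν0
    | succ k ih => rw [hν]; exact mul_pos ih (two_pos.trans_le (hμ k))
  have d : ∀ k, 2 * ν k ≤ ν (k + 1) := fun k => by rw [hν, mul_comm]; exact Nat.mul_le_mul_left _ (hμ k)
  have s : ∀ k, ∑ i ∈ Finset.range (k + 1), ν i ≤ 2 * ν k := fun k => by
    induction k with
    | zero => simp; omega
    | succ k ih => rw [Finset.sum_range_succ]; have := d k; omega
  have t : ∀ r, 2 ^ r * ν (k + 2) ≤ ν (r + (k + 2)) := fun r => by
    induction r with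
    | zero => simp
    | succ r ih =>
      rw [pow_succ', mul_assoc, add_right_comm]
      exact (Nat.mul_le_mul_left _ ih).trans (d _)
  have y0 := sub_pos.2 hz
  have C0 : 0 ≤ C := nonneg_of_mul_nonneg_left ((norm_nonneg _).trans hC) y0
  have m0 : (0 : ℝ) < μ k := Nat.cast_pos.2 (two_pos.trans_le (hμ k))
  have hs : Summable fun k => (a k : ℂ) * z ^ ν k := .of_norm_bounded
    (summable_geometric_of_lt_one (norm_nonneg _) hz) (Ser_term (fun k => abs_le.2
      ⟨by linarith only [h0, h0 k], h1 k⟩) (strictMono_nat_of_lt_succ fun k => by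
        have := d k; have := p k; omega) hz.le)
  have nr : ∀ i (w : ℂ), ‖(a i : ℂ) * w‖ = a i * ‖w‖ := fun i w => by
    rw [norm_mul, norm_real, Real.norm_of_nonneg (h0 i)]
  have e1 : ‖∑ i ∈ Finset.range (k + 1), (a i : ℂ) * z ^ ν i -
      ∑ i ∈ Finset.range (k + 1), (a i : ℂ) * P ^ ν i‖ ≤ 2 * C / μ k := by
    rw [← Finset.sum_sub_distrib]
    refine (norm_sum_le_of_le _ (n := fun i => ν i * (C * (1 - ‖z‖))) fun i _ => ?_).trans ?_
    · rw [← mul_sub, nr]
      exact (mul_le_of_le_one_left (norm_nonneg _) (h1 i)).trans ((Ser_pow hz.le hP.le _).trans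
        (mul_le_mul_of_nonneg_left hC (by positivity)))
    · have := mul_le_mul_of_nonneg_right (Nat.cast_le (α := ℝ).2 (s k))
        (show 0 ≤ C * (1 - ‖z‖) * μ k by positivity)
      rw [hν] at k1
      push_cast at this k1
      rw [← Finset.sum_mul, le_div_iff₀ m0]
      linarith only [this, k1, C0, mul_le_mul_of_nonneg_left k1 C0]
  have e2 : ‖(a (k + 1) : ℂ) * z ^ ν (k + 1)‖ ≤ a (k + 1) := by
    rw [nr, norm_pow]
    exact mul_le_of_le_one_right (h0 _) (pow_le_one₀ (norm_nonneg _) hz.le)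
  have e3 := tsum_of_norm_bounded (f := fun r => (a (r + (k + 2)) : ℂ) * z ^ ν (r + (k + 2)))
    (hasSum_geometric_two.mul_left (a (k + 1))) fun r => by
      rw [nr, norm_pow, one_div_pow]
      refine mul_le_mul (ha (by omega)) ((le_div_iff₀ (by positivity)).2 (le_trans
        (mul_le_mul_of_nonneg_left ?_ (by positivity)) (Ser_bern (norm_nonneg z) _)))
        (by positivity) (h0 _)
      have := mul_le_mul_of_nonneg_right (Nat.cast_le (α := ℝ).2 (t r)) y0.le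
      push_cast at this
      linarith only [this, k2, mul_le_mul_of_nonneg_left k2.le (show (0 : ℝ) ≤ 2 ^ r by positivity)]
  rw [lac, ← hs.sum_add_tsum_nat_add (k + 2), Finset.sum_range_succ, add_assoc, add_sub_right_comm]
  linarith only [e1, e2, e3, norm_add_le_of_le e1 (norm_add_le_of_le e2 e3)]

lemma Ser_n (h : Par n m) (b : ℕ) : 0 < n b := b.succ_pos.trans_le (h.big b)

lemma Ser_st (h : Par n m) : StrictMono (st n) := strictMono_nat_of_lt_succ fun b => by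
  rw [st, st, Finset.sum_range_succ]
  exact lt_add_of_pos_right _ (pow_pos (Ser_n h b) 2)

lemma Ser_m (h : Par n m) (b : ℕ) : b + 2 ≤ m b :=
  (h.big (b + 1)).trans ((Nat.le_mul_of_pos_left _ b.succ_pos).trans (h.m2 b))

theorem blk_eq (h : Par n m) {b k : ℕ} (h1 : st n b ≤ k) (h2 : k < st n (b + 1)) : blk n k = b := by
  exact Nat.findGreatest_eq_iff.2 ⟨(Ser_st h).le_apply.trans h1, fun _ => h1,
    fun c h3 _ => not_le.2 (h2.trans_le ((Ser_st h).monotone h3))⟩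

theorem blk_spec (h : Par n m) (k : ℕ) : st n (blk n k) ≤ k ∧ k < st n (blk n k + 1) := by
  refine ⟨Nat.findGreatest_spec (P := fun b => st n b ≤ k) k.zero_le k.zero_le, not_le.1 fun h1 => ?_⟩
  exact Nat.findGreatest_is_greatest (P := fun b => st n b ≤ k) (Nat.lt_succ_self _)
    ((Ser_st h).le_apply.trans h1) h1

theorem nu_pos (h : Par n m) (k : ℕ) : 0 < nu n m k := by
  induction k with
  | zero => exact one_pos
  | succ k ih => exact mul_pos ih ((Nat.succ_pos _).trans_le (Ser_m h _))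

lemma Ser_nu (h : Par n m) : StrictMono (nu n m) := strictMono_nat_of_lt_succ fun k =>
  lt_mul_of_one_lt_right (nu_pos h k) (by have := Ser_m h (blk n k); omega)

lemma Ser_a (h : Par n m) (b : ℕ) : 1 / (n b : ℝ) ≤ 1 :=
  div_le_one_of_le₀ (Nat.one_le_cast.2 (Ser_n h b)) (by positivity)

lemma Ser_le (h : Par n m) {b k : ℕ} (h1 : st n b ≤ k) : b ≤ blk n k :=
  Nat.le_findGreatest ((Ser_st h).le_apply.trans h1) h1

lemma Ser_app (h : Par n m) {P z : ℂ} (hP : ‖P‖ = 1) (hz : ‖z‖ < 1)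
    {C : ℝ} (hC : ‖z - P‖ ≤ C * (1 - ‖z‖)) {k : ℕ} (k1 : nu n m (k + 1) * (1 - ‖z‖) ≤ 1)
    (k2 : 1 < nu n m (k + 2) * (1 - ‖z‖)) :
    ‖fex n m z - psum n m P (k + 1)‖ ≤ 3 * (1 / n (blk n (k + 1))) + 2 * C / m (blk n k) :=
  lac_approx (a := fun k => 1 / (n (blk n k) : ℝ)) (μ := fun k => m (blk n k))
    (fun _ _ e => one_div_le_one_div_of_le (Nat.cast_pos.2 (Ser_n h _))
      (Nat.cast_le.2 (h.mono (Ser_le h ((blk_spec h _).1.trans e)))))
    (fun _ => by positivity) (fun _ => Ser_a h _) one_pos (fun _ => rfl)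
    (fun _ => le_add_self.trans (Ser_m h _)) hP hz hC k1 k2

theorem fex_diff (h : Par n m) : DifferentiableOn ℂ (fex n m) (Metric.ball 0 1) := by
  exact lac_diff (fun k => abs_le.2 ⟨neg_one_lt_zero.le.trans (by positivity), Ser_a h _⟩) (Ser_nu h)

theorem psum_blk (h : Par n m) (x : ℝ) (b : ℕ) {s : ℕ} (hs : s ≤ n b ^ 2) :
    ‖psum n m (exp (2 * Real.pi * I * x)) (st n b + s) -
      (psum n m (exp (2 * Real.pi * I * x)) (st n b) + pos (bl n m b x) s / n b)‖ ≤ 1 / n b := by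
  have hb : ∀ i < n b ^ 2, blk n (st n b + i) = b := fun i hi => blk_eq h le_self_add
    (by rw [st, st, Finset.sum_range_succ]; omega)
  have hν : ∀ i ≤ n b ^ 2, nu n m (st n b + i) = nu n m (st n b) * m b ^ i := fun i hi => by
    induction i with
    | zero => simp
    | succ i ih => rw [← add_assoc, nu, hb i hi, ih (by omega), pow_succ, mul_assoc]
  have n0 : (0 : ℝ) < n b := Nat.cast_pos.2 (Ser_n h b)
  have m0 : 0 < m b := (Nat.succ_pos _).trans_le (Ser_m h b)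
  have h1 := dl_approx m0 (n b ^ 2) (nu n m (st n b) * x) hs
  rw [psum, psum, Finset.sum_range_add, add_sub_add_left_eq_sub, Finset.sum_congr rfl
    (g := fun i => exp (2 * Real.pi * I * (nu n m (st n b) * x : ℝ)) ^ m b ^ i / n b) fun i hi => by
      have := (Finset.mem_range.1 hi).trans_le hs
      rw [hb i this, hν i this.le, pow_mul, ← exp_nat_mul]
      push_cast
      ring_nf, ← Finset.sum_div, ← sub_div, norm_div, norm_natCast]
  refine div_le_div_of_nonneg_right (h1.trans (div_le_one_of_le₀ ?_ (by positivity))) n0.le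
  exact_mod_cast (Nat.mul_le_mul_left 7 hs).trans (h.m1 b)

lemma Ser_P (x : ℝ) : ‖exp (2 * Real.pi * I * x)‖ = 1 := by
  rw [← norm_exp_ofReal_mul_I (2 * Real.pi * x)]
  push_cast
  ring_nf

theorem sausage (h : Par n m) (x C : ℝ) (b₀ : ℕ) : ∃ δ : ℝ, 0 < δ ∧
    ∀ z ∈ stolz (exp (2 * Real.pi * I * x)) C δ, ∃ b, b₀ ≤ b ∧ ∃ s < n b ^ 2,
      fex n m z - psum n m (exp (2 * Real.pi * I * x)) (st n b) ∈
        Metric.closedBall (pos (bl n m b x) s / n b) (6 / n b) := by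
  have hP := Ser_P x
  obtain ⟨B, b1, b2⟩ : ∃ B : ℕ, b₀ ≤ B ∧ C ≤ B :=
    ⟨b₀ + ⌈C⌉₊, le_self_add, (Nat.le_ceil C).trans (Nat.cast_le.2 le_add_self)⟩
  have p0 : (0 : ℝ) < nu n m (st n B + 1) := Nat.cast_pos.2 (nu_pos h _)
  refine ⟨1 / nu n m (st n B + 1), by positivity, fun z ⟨z1, z2, z3⟩ => ?_⟩
  have y0 := sub_pos.2 z1
  obtain ⟨j, k1, k2⟩ := Nat.exists_not_and_succ_of_not_zero_of_exists
    (p := fun j => 1 < nu n m (st n B + j + 1) * (1 - ‖z‖))
    (not_lt.2 ((le_div_iff₀' p0).1 (by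
      linarith only [hP, z3, abs_le.1 (abs_norm_sub_norm_le z (exp (2 * Real.pi * I * x)))]))) (by
      obtain ⟨j, hj⟩ := exists_nat_gt (1 / (1 - ‖z‖))
      exact ⟨j, (div_lt_iff₀ y0).1 (hj.trans_le (Nat.cast_le.2
        (le_trans (by omega) (Ser_nu h).le_apply)))⟩)
  have e1 := Ser_app h hP z1 z2.le (not_lt.1 k1) k2
  generalize hk : st n B + j = k at e1
  obtain ⟨s1, s2⟩ := blk_spec h (k + 1)
  have b3 : B ≤ blk n (k + 1) := Ser_le h (by omega)
  have b4 : blk n (k + 1) ≤ blk n k + 1 := Nat.le_of_lt_succ ((Ser_st h).lt_iff_lt.1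
    (s1.trans_lt ((Nat.succ_le_of_lt (blk_spec h k).2).trans_lt (Ser_st h (Nat.lt_succ_self _)))))
  generalize blk n (k + 1) = b at *
  rw [st, Finset.sum_range_succ, ← st] at s2
  have s3 : k + 1 - st n b < n b ^ 2 := by omega
  have e2 := psum_blk h x b s3.le
  rw [Nat.add_sub_cancel' s1] at e2
  have n0 : (0 : ℝ) < n b := Nat.cast_pos.2 (Ser_n h b)
  have e3 : 2 * C / m (blk n k) ≤ 2 / n b := by
    have : (B : ℝ) * n b ≤ m (blk n k) := by
      exact_mod_cast (Nat.mul_le_mul (b3.trans b4) (h.mono b4)).trans (h.m2 _)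
    rw [div_le_div_iff₀ (Nat.cast_pos.2 ((Nat.succ_pos _).trans_le (Ser_m h _))) n0]
    linarith only [this, b2, n0, mul_le_mul_of_nonneg_right b2 n0.le]
  refine ⟨b, b1.trans b3, _, s3, mem_closedBall_iff_norm.2 ?_⟩
  rw [sub_sub]
  exact (norm_sub_le_norm_sub_add_norm_sub _ _ _).trans
    ((add_le_add (e1.trans (add_le_add_right e3 _)) e2).trans_eq (by ring))

theorem psum_tendsto (h : Par n m) {P : ℂ} (hP : ‖P‖ = 1) (hA : TypeA (fex n m) P) :
    ∃ L, Tendsto (psum n m P) atTop (𝓝 L) := by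
  obtain ⟨L, hL⟩ := hA 2 2 one_lt_two two_pos
  have p : ∀ k, (1 : ℝ) ≤ nu n m k := fun k => Nat.one_le_cast.2 (nu_pos h k)
  have q : ∀ k, 1 / (nu n m k : ℝ) ≤ 1 := fun k => div_le_one_of_le₀ (p k) (by positivity)
  have q0 : ∀ k, 0 < 1 / (nu n m k : ℝ) := fun k => one_div_pos.2 (one_pos.trans_le (p k))
  have e1 : ∀ k, 1 - ‖(1 - 1 / (nu n m k : ℝ)) • P‖ = 1 / nu n m k := fun k => by
    rw [norm_smul, hP, mul_one, Real.norm_of_nonneg (sub_nonneg.2 (q k)), sub_sub_cancel]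
  have e2 : ∀ k, ‖(1 - 1 / (nu n m k : ℝ)) • P - P‖ = 1 / nu n m k := fun k => by
    rw [sub_smul, one_smul, sub_sub_cancel_left, norm_neg, norm_smul, hP, mul_one,
      Real.norm_of_nonneg (q0 k).le]
  have tb : Tendsto (blk n) atTop atTop := tendsto_atTop_atTop.2 fun b => ⟨_, fun _ => Ser_le h⟩
  have t1 : Tendsto (fun k => (1 - 1 / (nu n m k : ℝ)) • P) atTop (𝓝[stolz P 2 2] P) := by
    refine tendsto_nhdsWithin_iff.2 ⟨tendsto_iff_norm_sub_tendsto_zero.2 ?_, .of_forall fun k =>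
      ⟨by linarith only [e1, q0, e1 k, q0 k], by linarith only [e1, e2, q0, e1 k, e2 k, q0 k], by linarith only [e2, q, e2 k, q k]⟩⟩
    simp only [e2]
    exact tendsto_one_div_atTop_nhds_zero_nat.comp (Ser_nu h).tendsto_atTop
  have t2 := ((tendsto_one_div_atTop_nhds_zero_nat (𝕜 := ℝ)).comp ((tendsto_atTop_mono
    (fun b => b.le_succ.trans (h.big b)) tendsto_id).comp
      (tb.comp (tendsto_add_atTop_nat 1)))).const_mul 3
  have t3 := (tendsto_const_div_atTop_nhds_zero_nat (2 * 1 : ℝ)).comp ((tendsto_atTop_mono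
    (fun b => le_self_add.trans (Ser_m h b)) tendsto_id).comp tb)
  refine ⟨L, (tendsto_add_atTop_iff_nat 1).1 (((hL.comp t1).comp (tendsto_add_atTop_nat 1)).congr_dist
    (squeeze_zero (fun _ => dist_nonneg) (fun k => ?_) (by simpa using t2.add t3)))⟩
  rw [dist_eq_norm]
  refine (Ser_app h hP (by linarith only [e1, q0, e1 (k + 1), q0 (k + 1)]) (C := 1) (by rw [e1, e2, one_mul]) ?_
    ?_).trans_eq (by simp) <;> rw [e1, mul_one_div]
  · exact div_self_le_one _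
  · exact (one_lt_div (one_pos.trans_le (p _))).2 (Nat.cast_lt.2 (Ser_nu h (Nat.lt_succ_self _)))

theorem stay_of_typeA (h : Par n m) (x : ℝ) (hA : TypeA (fex n m) (exp (2 * Real.pi * I * x)))
    {c : ℝ} (hc : 0 < c) : ∀ᶠ b in atTop, ∀ s < n b ^ 2, ‖pos (bl n m b x) s‖ ≤ c * n b + 1 := by
  obtain ⟨L, hL⟩ := psum_tendsto h (Ser_P x) hA
  obtain ⟨N, hN⟩ := Metric.tendsto_atTop.1 hL _ (half_pos hc)
  filter_upwards [eventually_ge_atTop N] with b hb s hs
  have n0 : (0 : ℝ) < n b := Nat.cast_pos.2 (Ser_n h b)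
  have e1 := psum_blk h x b hs.le
  have b1 : N ≤ st n b := hb.trans (Ser_st h).le_apply
  have e2 := (dist_triangle_right _ _ _).trans
    (add_le_add (hN _ (b1.trans le_self_add : N ≤ st n b + s)).le (hN _ b1).le)
  rw [add_halves, dist_eq_norm] at e2
  rw [← sub_sub, norm_sub_rev] at e1
  have e3 := (norm_le_norm_sub_add _ _).trans (add_le_add e1 e2)
  rw [norm_div, norm_natCast, div_le_iff₀ n0, add_mul, one_div_mul_cancel n0.ne'] at e3
  linarith only [e3]

end Pool.Agent.Work.MP_31144c_an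
end

-- merged part: Pool.Agent.Work.MP_31144c_an.Ret
section
/-! Return probabilities (step B2, first half).
PLAN. Let `c y = cell (y / (ρ / 2))` and `p a = Ex e j (ind (c l.sum = a))`. `Pr e (2 j) x ρ = Ex j Ex j ind (‖x + l.sum - l'.sum‖ ≤ ρ)`
(`Ex_append`, `Ex_rot` twice). Same cell implies distance `≤ ρ`, so `∑ a ∈ F, p a ^ 2 ≤ Pr e (2 j) 0 ρ` for every finite `F`.
`ret_lower`: `F = [-A, A] ^ 2`, `A = ⌈4 √j / ρ⌉`, `∑ p ≥ 3 / 4` by `cheb`, Cauchy-Schwarz (`sq_sum_le_card_mul_sum_sq`), `card F ≤ 121 j / ρ ^ 2`.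
`ret_upper`: if `‖x + y - y'‖ ≤ ρ` then `c y' - c y - c x ∈ [-2, 3] ^ 2` (36 offsets `o`); with `F` a finite box containing all values of `c l.sum`,
`∑ a ∈ F, p a * p (a + o) ≤ (∑ a ∈ F, p a ^ 2 + ∑ a ∈ F, p (a + o) ^ 2) / 2`; odd times: condition on the first step.
`ret_in`: for `‖x‖, ‖y‖ ≤ ρ` one of `x + y, x + I y, x - y, x - I y` has norm `≤ ρ`.
`green_lower`: `log ((J + 1) / a) ≤ ∑ j ∈ Icc a J, 1 / j`, with `a = ρ ^ 2`, `J = L / 2`. -/

namespace Pool.Agent.Work.MP_31144c_an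

open Finset Complex
open scoped BigOperators

variable {D : Type} [Fintype D] {e : D → ℂ} {ρ : ℝ} {x : ℂ}

/-- The cell of side `ρ / 2` of a point. -/
noncomputable def Ret_c (ρ : ℝ) (y : ℂ) : ℤ × ℤ := (⌊2 * y.re / ρ⌋, ⌊2 * y.im / ρ⌋)

/-- The probability of a cell. -/
noncomputable def Ret_p (e : D → ℂ) (ρ : ℝ) (j : ℕ) (a : ℤ × ℤ) : ℝ :=
  Ex e j fun l => ind (Ret_c ρ l.sum = a)

theorem Ret_one {ι : Type} (F : Finset ι) (u : ι) (g : ι → ℝ) :
    ∑ a ∈ F, ind (u = a) * g a = ind (u ∈ F) * g u := by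
  by_cases h : u ∈ F
  · rw [sum_eq_single_of_mem u h fun b _ hb => by rw [ind_neg (Ne.symm hb), zero_mul],
      ind_pos rfl, ind_pos h]
  · rw [ind_neg h, zero_mul]
    exact sum_eq_zero fun b hb => by rw [ind_neg fun e : u = b => h (e ▸ hb), zero_mul]

theorem Ret_two (S : Step e) (j : ℕ) (x : ℂ) (ρ : ℝ) : Pr e (2 * j) x ρ =
    Ex e j fun l => Ex e j fun l' => ind (‖x + l.sum - l'.sum‖ ≤ ρ) := by
  rw [Pr, two_mul, Ex_append]
  refine Ex_congr fun l _ => ?_
  rw [← Ex_rot S j fun y => ind (‖x + l.sum - y‖ ≤ ρ),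
    ← Ex_rot S j fun y => ind (‖x + l.sum - I * y‖ ≤ ρ)]
  refine Ex_congr fun l' _ => ?_
  rw [List.sum_append, ← mul_assoc, I_mul_I, neg_one_mul, sub_neg_eq_add, add_assoc]

theorem Ret_mul (j : ℕ) (F : Finset (ℤ × ℤ)) (o : ℤ × ℤ) :
    ∑ a ∈ F, Ret_p e ρ j a * Ret_p e ρ j (a + o) = Ex e j fun l => Ex e j fun l' =>
      ind (Ret_c ρ l.sum ∈ F) * ind (Ret_c ρ l'.sum = Ret_c ρ l.sum + o) := by
  have key : ∀ u v : ℤ × ℤ, ind (u ∈ F) * ind (v = u + o) =
      ∑ a ∈ F, ind (u = a) * ind (v = a + o) := fun u v =>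
    (Ret_one F u fun a => ind (v = a + o)).symm
  simp only [key, Ex_sum, Ex_const_mul, Ex_mul_const, Ret_p]

theorem Ret_fl (h : 0 < ρ) {u v : ℝ} (e : ⌊2 * u / ρ⌋ = ⌊2 * v / ρ⌋) : |u - v| ≤ ρ / 2 := by
  have := Int.abs_sub_lt_one_of_floor_eq_floor e
  rw [← sub_div, ← mul_sub, abs_div, abs_mul, abs_two, abs_of_pos h, div_lt_one h] at this
  linarith only [this]

theorem Ret_sq (S : Step e) (h : 0 < ρ) (j : ℕ) (F : Finset (ℤ × ℤ)) :
    ∑ a ∈ F, Ret_p e ρ j a ^ 2 ≤ Pr e (2 * j) 0 ρ := by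
  have := Ret_mul (e := e) (ρ := ρ) j F 0
  simp only [add_zero, ← sq] at this
  rw [this, Ret_two S]
  refine Ex_mono S fun l _ _ => Ex_mono S fun l' _ _ => ?_
  rw [← ind_and]
  refine ind_mono fun ⟨_, g⟩ => ?_
  have g1 := Ret_fl h (congrArg Prod.fst g).symm
  have g2 := Ret_fl h (congrArg Prod.snd g).symm
  have g3 := norm_le_abs_re_add_abs_im (l.sum - l'.sum)
  rw [sub_re, sub_im] at g3
  rw [zero_add]
  linarith only [g1, g2, g3]

theorem Ret_box (h : 0 < ρ) {R : ℝ} {y : ℂ} (hy : ‖y‖ ≤ R) :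
    Ret_c ρ y ∈ Icc (-⌈2 * R / ρ⌉) ⌈2 * R / ρ⌉ ×ˢ Icc (-⌈2 * R / ρ⌉) ⌈2 * R / ρ⌉ := by
  have key : ∀ u : ℝ, |u| ≤ R → ⌊2 * u / ρ⌋ ∈ Icc (-⌈2 * R / ρ⌉) ⌈2 * R / ρ⌉ := by
    intro u hu
    obtain ⟨h1, h2⟩ := abs_le.1 hu
    rw [mem_Icc, ← Int.floor_neg, ← neg_div]
    exact ⟨Int.floor_mono (by gcongr; linarith only [h1]),
      (Int.floor_le_ceil _).trans (Int.ceil_mono (by gcongr))⟩
  exact mem_product.2 ⟨key _ ((abs_re_le_norm y).trans hy), key _ ((abs_im_le_norm y).trans hy)⟩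

theorem Ret_pr (S : Step e) (i : ℕ) (x : ℂ) (ρ : ℝ) : 0 ≤ Pr e i x ρ ∧ Pr e i x ρ ≤ 1 :=
  ⟨Ex_nonneg fun _ => ind_nonneg _,
    (Ex_mono S fun _ _ _ => ind_le_one _).trans_eq (Ex_const S i 1)⟩

theorem ret_lower (S : Step e) (h : 0 < ρ) {j : ℕ} (hj : ρ ^ 2 ≤ j) :
    ρ ^ 2 / (216 * j) ≤ Pr e (2 * j) 0 ρ := by
  have j0 : (0 : ℝ) < j := (pow_pos h 2).trans_le hj
  obtain ⟨s, hs⟩ : ∃ s : ℝ, s = √j := ⟨_, rfl⟩
  have s0 : 0 < s := hs ▸ Real.sqrt_pos.2 j0
  have s1 : s ^ 2 = j := hs ▸ Real.sq_sqrt j0.le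
  have s2 : 1 ≤ s / ρ := by
    rw [le_div_iff₀ h, one_mul, hs]
    exact Real.le_sqrt_of_sq_le hj
  obtain ⟨A, hA⟩ : ∃ A : ℤ, A = ⌈2 * (2 * s) / ρ⌉ := ⟨_, rfl⟩
  have A0 : 0 ≤ A := hA ▸ Int.ceil_nonneg (by positivity)
  have A1 : (A : ℝ) ≤ 4 * (s / ρ) + 1 := by
    rw [hA, show 4 * (s / ρ) = 2 * (2 * s) / ρ by ring]
    exact (Int.ceil_lt_add_one _).le
  have c1 : ((Icc (-A) A).card : ℝ) = 2 * A + 1 := by
    have := Int.card_Icc_of_le (-A) A (by omega)
    have e : (((Icc (-A) A).card : ℤ) : ℝ) = ((A + 1 - -A : ℤ) : ℝ) := by rw [this]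
    push_cast at e
    linarith only [e]
  have c2 : ((Icc (-A) A ×ˢ Icc (-A) A).card : ℝ) ≤ 121 * (j / ρ ^ 2) := by
    have A2 : (0 : ℝ) ≤ A := by exact_mod_cast A0
    rw [card_product, Nat.cast_mul, c1, ← s1, ← div_pow]
    linarith only [s2, A1, c1, mul_nonneg_of_nonpos_of_nonpos (Mathlib.Tactic.Linarith.sub_nonpos_of_le (Mathlib.Tactic.Linarith.natCast_nonneg ℝ #(Icc (-A) A))) (Mathlib.Tactic.Linarith.sub_nonpos_of_le A1), mul_nonneg_of_nonpos_of_nonpos (Mathlib.Tactic.Linarith.sub_nonpos_of_le s2) (Mathlib.Tactic.Linarith.sub_nonpos_of_le s2), mul_nonneg_of_nonpos_of_nonpos (Mathlib.Tactic.Linarith.sub_nonpos_of_le s2) (Mathlib.Tactic.Linarith.sub_nonpos_of_le A1), Mathlib.Tactic.Linarith.mul_zero_eq (Mathlib.Tactic.Linarith.sub_nonpos_of_le A1) (sub_eq_zero_of_eq c1)]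
  have e1 : 3 / 4 ≤ ∑ a ∈ Icc (-A) A ×ˢ Icc (-A) A, Ret_p e ρ j a := by
    have t := cheb S j (ρ := 2 * s) (by positivity)
    rw [mul_pow, s1, show (j : ℝ) / (2 ^ 2 * j) = 1 / 4 by field_simp; norm_num] at t
    have t2 : Ex e j (fun l => 1 - ind (2 * s < ‖l.sum‖)) ≤
        Ex e j fun l => ∑ a ∈ Icc (-A) A ×ˢ Icc (-A) A, ind (Ret_c ρ l.sum = a) := by
      refine Ex_mono S fun l _ _ => ?_
      have := Ret_one (Icc (-A) A ×ˢ Icc (-A) A) (Ret_c ρ l.sum) fun _ => 1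
      simp only [mul_one] at this
      rw [this, ← ind_not, hA]
      exact ind_mono fun g => Ret_box h (not_lt.1 g)
    rw [Ex_sub, Ex_const S, Ex_sum] at t2
    unfold Ret_p
    linarith only [t, t2]
  have e2 := sq_sum_le_card_mul_sum_sq (s := Icc (-A) A ×ˢ Icc (-A) A) (f := Ret_p e ρ j)
  have e3 := mul_le_mul c2 (Ret_sq S h j (Icc (-A) A ×ˢ Icc (-A) A))
    (sum_nonneg fun _ _ => sq_nonneg _) (by positivity)
  have e4 := pow_le_pow_left₀ (by norm_num) e1 2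
  have e5 : (3 / 4 : ℝ) ^ 2 * ρ ^ 2 ≤ 121 * (j * Pr e (2 * j) 0 ρ) := by
    have := mul_le_mul_of_nonneg_right (e4.trans (e2.trans e3)) (sq_nonneg ρ)
    refine this.trans (le_of_eq ?_)
    field_simp
  rw [div_le_iff₀ (by positivity)]
  linarith only [e5, sq_nonneg ρ, sq_nonneg ρ]

theorem Ret_norm (l : List ℂ) (h : ∀ a ∈ l, ‖a‖ = 1) : ‖l.sum‖ ≤ l.length := by
  induction l with
  | nil => simp
  | cons a l ih =>
    rw [List.sum_cons, List.length_cons]
    have := ih fun b hb => h b (List.mem_cons_of_mem _ hb)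
    have h1 := norm_add_le a l.sum
    rw [h a List.mem_cons_self] at h1
    push_cast
    linarith only [this, h1]

theorem Ret_off (h : 0 < ρ) {w u v : ℝ} (g : |w + u - v| ≤ ρ) :
    ⌊2 * v / ρ⌋ - ⌊2 * u / ρ⌋ ∈ Icc (⌊2 * w / ρ⌋ - 2) (⌊2 * w / ρ⌋ + 3) := by
  have g1 : |2 * w / ρ + 2 * u / ρ - 2 * v / ρ| ≤ 2 := by
    rw [← add_div, ← sub_div, ← mul_add, ← mul_sub, abs_div, abs_mul, abs_two, abs_of_pos h,
      div_le_iff₀ h]
    linarith only [g]
  obtain ⟨g2, g3⟩ := abs_le.1 g1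
  have a1 := Int.floor_le (2 * w / ρ)
  have a2 := Int.floor_le (2 * u / ρ)
  have a3 := Int.floor_le (2 * v / ρ)
  have b1 := Int.lt_floor_add_one (2 * w / ρ)
  have b2 := Int.lt_floor_add_one (2 * u / ρ)
  have b3 := Int.lt_floor_add_one (2 * v / ρ)
  have c1 : ((⌊2 * w / ρ⌋ + ⌊2 * u / ρ⌋ : ℤ) : ℝ) < (⌊2 * v / ρ⌋ + 3 : ℤ) := by
    push_cast; linarith only [g3, a1, a2, b3]
  have c2 : ((⌊2 * v / ρ⌋ : ℤ) : ℝ) < (⌊2 * w / ρ⌋ + ⌊2 * u / ρ⌋ + 4 : ℤ) := by
    push_cast; linarith only [g2, a3, b1, b2]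
  rw [Int.cast_lt] at c1 c2
  rw [mem_Icc]
  omega

theorem Ret_even (S : Step e) (h : 0 < ρ) (j : ℕ) (x : ℂ) :
    Pr e (2 * j) x ρ ≤ 36 * Pr e (2 * j) 0 ρ := by
  obtain ⟨F, hF⟩ : ∃ F : Finset (ℤ × ℤ), ∀ y : ℂ, ‖y‖ ≤ j → Ret_c ρ y ∈ F :=
    ⟨_, fun y hy => Ret_box h hy⟩
  obtain ⟨O, hO, hc⟩ : ∃ O : Finset (ℤ × ℤ), (∀ y y' : ℂ, ‖x + y - y'‖ ≤ ρ →
      Ret_c ρ y' - Ret_c ρ y ∈ O) ∧ O.card = 36 := by
    refine ⟨Icc (⌊2 * x.re / ρ⌋ - 2) (⌊2 * x.re / ρ⌋ + 3) ×ˢ
      Icc (⌊2 * x.im / ρ⌋ - 2) (⌊2 * x.im / ρ⌋ + 3), fun y y' g => mem_product.2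
        ⟨Ret_off h ((abs_re_le_norm (x + y - y')).trans g),
          Ret_off h ((abs_im_le_norm (x + y - y')).trans g)⟩, ?_⟩
    rw [card_product, Int.card_Icc, Int.card_Icc,
      show ⌊2 * x.re / ρ⌋ + 3 + 1 - (⌊2 * x.re / ρ⌋ - 2) = 6 by ring,
      show ⌊2 * x.im / ρ⌋ + 3 + 1 - (⌊2 * x.im / ρ⌋ - 2) = 6 by ring]
    rfl
  have e1 : Pr e (2 * j) x ρ ≤ ∑ o ∈ O, ∑ a ∈ F, Ret_p e ρ j a * Ret_p e ρ j (a + o) := by
    simp only [Ret_mul, ← Ex_sum]
    rw [Ret_two S]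
    refine Ex_mono S fun l h1 h2 => Ex_mono S fun l' _ _ => ?_
    have h3 := Ret_one O (Ret_c ρ l'.sum - Ret_c ρ l.sum) fun _ => 1
    simp only [mul_one, sub_eq_iff_eq_add'] at h3
    rw [ind_pos (hF _ (h1 ▸ Ret_norm l h2))]
    simp only [one_mul]
    rw [h3]
    exact ind_mono (hO _ _)
  refine e1.trans ((sum_le_card_nsmul _ _ (Pr e (2 * j) 0 ρ) fun o _ => ?_).trans_eq ?_)
  · have e2 := Ret_sq S h j F
    have e3 := Ret_sq S h j (F.map (addRightEmbedding o))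
    rw [sum_map] at e3
    have e4 : ∑ a ∈ F, Ret_p e ρ j a * Ret_p e ρ j (a + o) ≤
        ∑ a ∈ F, (Ret_p e ρ j a ^ 2 + Ret_p e ρ j (a + o) ^ 2) / 2 :=
      sum_le_sum fun a _ => by linarith only [sq_nonneg (Ret_p e ρ j a - Ret_p e ρ j (a + o)), sq_nonneg (Ret_p e ρ j a - Ret_p e ρ j (a + o))]
    rw [← sum_div, sum_add_distrib] at e4
    simp only [addRightEmbedding_apply] at e3
    linarith only [e2, e4, e3]
  · rw [hc, nsmul_eq_mul]
    norm_num

theorem ret_upper (S : Step e) (h : 0 < ρ) (i : ℕ) (x : ℂ) :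
    Pr e i x ρ ≤ 36 * Pr e (2 * (i / 2)) 0 ρ := by
  rcases Nat.even_or_odd' i with ⟨j, rfl | rfl⟩
  · rw [show 2 * j / 2 = j by omega]
    exact Ret_even S h j x
  · rw [show (2 * j + 1) / 2 = j by omega]
    have := S.ne
    refine expect_le univ_nonempty fun d _ => le_trans (le_of_eq ?_) (Ret_even S h j (x + e d))
    simp only [Pr, List.sum_cons, add_assoc]

theorem Ret_geo {x y : ℂ} (hx : ‖x‖ ≤ ρ) (hy : ‖y‖ ≤ ρ) : ‖x + y‖ ≤ ρ ∨ ‖x + I * y‖ ≤ ρ ∨
    ‖x + I * (I * y)‖ ≤ ρ ∨ ‖x + I * (I * (I * y))‖ ≤ ρ := by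
  have h0 : 0 ≤ ρ := (norm_nonneg x).trans hx
  have key : ∀ z : ℂ, ‖z‖ ≤ ρ ↔ z.re ^ 2 + z.im ^ 2 ≤ ρ ^ 2 := fun z => by
    rw [← sq_le_sq₀ (norm_nonneg z) h0, Complex.sq_norm, normSq_apply, sq z.re, sq z.im]
  by_contra hc
  simp only [key, not_or, not_le, add_re, add_im, mul_re, mul_im, I_re, I_im] at hc hx hy
  obtain ⟨h1, h2, h3, h4⟩ := hc
  obtain ⟨m, hm⟩ : ∃ m, m = x.re ^ 2 + x.im ^ 2 + (y.re ^ 2 + y.im ^ 2) - ρ ^ 2 := ⟨_, rfl⟩
  have s1 : (2 * (x.re * y.re + x.im * y.im)) ^ 2 < m ^ 2 :=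
    sq_lt_sq' (by rw [hm]; linarith only [h1]) (by rw [hm]; linarith only [h3])
  have s2 : (2 * (x.im * y.re - x.re * y.im)) ^ 2 < m ^ 2 :=
    sq_lt_sq' (by rw [hm]; linarith only [h2]) (by rw [hm]; linarith only [h4])
  have m0 : 0 ≤ m := by rw [hm]; linarith only [h1, h3]
  have s3 : m * m ≤ (x.re ^ 2 + x.im ^ 2) * (y.re ^ 2 + y.im ^ 2) :=
    mul_le_mul (by linarith only [hy, hm]) (by linarith only [hx, hm]) m0 (by positivity)
  linarith only [s1, s2, s3, sq_nonneg m, sq_nonneg ((2 : ℝ) * (x.re * y.re + x.im * y.im))]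

theorem ret_in (S : Step e) (hx : ‖x‖ ≤ ρ) (i : ℕ) : Pr e i 0 ρ ≤ 4 * Pr e i x ρ := by
  have e1 := Ex_rot S i fun y => ind (‖x + y‖ ≤ ρ)
  have e2 := Ex_rot S i fun y => ind (‖x + I * y‖ ≤ ρ)
  have e3 := Ex_rot S i fun y => ind (‖x + I * (I * y)‖ ≤ ρ)
  have e4 : Pr e i 0 ρ ≤ Ex e i fun l => ind (‖x + l.sum‖ ≤ ρ) + ind (‖x + I * l.sum‖ ≤ ρ) +
      ind (‖x + I * (I * l.sum)‖ ≤ ρ) + ind (‖x + I * (I * (I * l.sum))‖ ≤ ρ) := by
    refine Ex_mono S fun l _ _ => ?_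
    have a1 := ind_nonneg (‖x + l.sum‖ ≤ ρ)
    have a2 := ind_nonneg (‖x + I * l.sum‖ ≤ ρ)
    have a3 := ind_nonneg (‖x + I * (I * l.sum)‖ ≤ ρ)
    have a4 := ind_nonneg (‖x + I * (I * (I * l.sum))‖ ≤ ρ)
    rw [zero_add]
    by_cases hy : ‖l.sum‖ ≤ ρ
    · rw [ind_pos hy]
      rcases Ret_geo hx hy with g | g | g | g <;> linarith only [a2, a3, a4, g, a1, ind_pos g]
    · linarith only [a1, a2, a3, a4, hy, ind_neg hy]
  rw [Ex_add, Ex_add, Ex_add, e3, e2, e1] at e4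
  unfold Pr at e4 ⊢
  linarith only [e4]

theorem Ret_log {a : ℕ} (ha : 0 < a) (J : ℕ) :
    Real.log ((J + 1) / a) ≤ ∑ j ∈ Icc a J, (1 / j : ℝ) := by
  have a0 : (0 : ℝ) < a := by exact_mod_cast ha
  have key : ∀ K : ℕ, K < a → Real.log ((K + 1) / a) ≤ ∑ j ∈ Icc a K, (1 / j : ℝ) := fun K hK =>
    (Real.log_nonpos (by positivity) ((div_le_one a0).2 (by exact_mod_cast hK))).trans
      (sum_nonneg fun _ _ => by positivity)
  induction J with
  | zero => exact key 0 ha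
  | succ J ih =>
    rcases lt_or_ge (J + 1) a with h | h
    · exact key _ h
    · rw [sum_Icc_succ_top h]
      push_cast
      have e1 := Real.log_le_sub_one_of_pos (x := (J + 1 + 1) / (J + 1)) (by positivity)
      rw [show ((J : ℝ) + 1 + 1) / (J + 1) - 1 = 1 / (J + 1) by field_simp; ring] at e1
      rw [show ((J : ℝ) + 1 + 1) / a = (J + 1) / a * ((J + 1 + 1) / (J + 1)) by field_simp,
        Real.log_mul (by positivity) (by positivity)]
      linarith only [ih, e1]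

theorem green_lower (S : Step e) {r : ℕ} (hr : 0 < r) (L : ℕ) :
    (r : ℝ) ^ 2 / 216 * Real.log (L / (2 * (r : ℝ) ^ 2)) ≤ Ex e L (occ r 0) := by
  have r0 : (0 : ℝ) < r := by exact_mod_cast hr
  have a0 : 0 < r ^ 2 := by positivity
  have e1 : Real.log (L / (2 * (r : ℝ) ^ 2)) ≤ ∑ j ∈ Icc (r ^ 2) (L / 2), (1 / j : ℝ) := by
    rcases Nat.eq_zero_or_pos L with rfl | hL
    · simpa using sum_nonneg fun (j : ℕ) _ => (by positivity : (0 : ℝ) ≤ (j : ℝ)⁻¹)
    · refine le_trans (Real.log_le_log (by positivity) ?_) (Ret_log a0 (L / 2))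
      have : (L : ℝ) ≤ 2 * ((L / 2 : ℕ) + 1) := by exact_mod_cast (by omega : L ≤ 2 * (L / 2 + 1))
      rw [← div_div, Nat.cast_pow]
      gcongr
      linarith only [this]
  refine (mul_le_mul_of_nonneg_left e1 (by positivity)).trans ?_
  rw [Ex_occ S, mul_sum]
  refine le_trans (sum_le_sum fun j hj => ?_) (le_trans (le_of_eq (sum_image
    (g := fun j => 2 * j - 1) (f := fun i => Pr e (i + 1) 0 r) (s := Icc (r ^ 2) (L / 2)) ?_).symm)
    (sum_le_sum_of_subset_of_nonneg ?_ fun _ _ _ => (Ret_pr S _ _ _).1))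
  · have h1 := (mem_Icc.1 hj).1
    rw [show 2 * j - 1 + 1 = 2 * j by omega, div_mul_div_comm, mul_one]
    exact ret_lower S r0 (by exact_mod_cast h1)
  · intro j hj k hk h
    have h1 := (mem_Icc.1 (mem_coe.1 hj)).1
    have h2 := (mem_Icc.1 (mem_coe.1 hk)).1
    simp only at h
    omega
  · intro i hi
    obtain ⟨j, hj, rfl⟩ := mem_image.1 hi
    have h1 := mem_Icc.1 hj
    rw [mem_range]
    omega

theorem green_upper (S : Step e) (h : 0 < ρ) {L L' : ℕ} (hL : L' ≤ L) (x : ℂ) :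
    Ex e L' (occ ρ x) ≤ 36 * (1 + 2 * Ex e L (occ ρ 0)) := by
  rw [Ex_occ S, Ex_occ S]
  have e1 : ∑ i ∈ range L', Pr e (i + 1) x ρ ≤
      ∑ i ∈ range L', 36 * (Pr e (i + 1) 0 ρ + Pr e i 0 ρ) := sum_le_sum fun i _ => by
    have h1 := ret_upper S h (i + 1) x
    have h2 := (Ret_pr S i 0 ρ).1
    have h3 := (Ret_pr S (i + 1) 0 ρ).1
    rcases (by omega : 2 * ((i + 1) / 2) = i + 1 ∨ 2 * ((i + 1) / 2) = i) with g | g <;>
      rw [g] at h1 <;> linarith only [h1, h2, h3]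
  have e2 : ∑ i ∈ range L', Pr e (i + 1) 0 ρ ≤ ∑ i ∈ range L, Pr e (i + 1) 0 ρ :=
    sum_le_sum_of_subset_of_nonneg (range_mono hL) fun _ _ _ => (Ret_pr S _ _ _).1
  have e3 : ∑ i ∈ range L', Pr e i 0 ρ ≤ ∑ i ∈ range (L + 1), Pr e i 0 ρ :=
    sum_le_sum_of_subset_of_nonneg (range_mono (by omega)) fun _ _ _ => (Ret_pr S _ _ _).1
  rw [sum_range_succ'] at e3
  rw [← mul_sum, sum_add_distrib] at e1
  linarith only [e1, e2, e3, S, (Ret_pr S 0 0 ρ).2]

theorem green_in (S : Step e) (hx : ‖x‖ ≤ ρ) (L : ℕ) :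
    Ex e L (occ ρ 0) ≤ 4 * Ex e L (occ ρ x) := by
  rw [Ex_occ S, Ex_occ S, mul_sum]
  exact sum_le_sum fun i _ => ret_in S hx _

end Pool.Agent.Work.MP_31144c_an
end

-- merged part: Pool.Agent.Work.MP_31144c_an.Occ
section
/-! Large occupation times (steps B2, second half, and B3).
PLAN. `occ_sq`: induction on `L` generalising `x`; `(i + X) ^ 2 = i (1 + 2 X) + X ^ 2` for an indicator `i`.
`pz`: with `G = Ex e L (occ ρ 0) ≥ 1`, `2 U + 1 ≤ 217 G`, `λ = 868 G`: pointwise `X ≤ G / 8 + λ ind (G / 8 ≤ X) + X ^ 2 / λ`.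
`occ_super`: induction on `T₁` generalising `x` and `a > 0`; if the first step lands in the disc and `a ≤ 1` use `hβ` (monotone in the time by `occ_append`).
`bad_le`: induction on `K` with `Ex_append`, `occ_append`, `cheb`. -/

namespace Pool.Agent.Work.MP_31144c_an

open Finset Complex
open scoped BigOperators

variable {D : Type} [Fintype D] {e : D → ℂ} {ρ : ℝ} {x : ℂ}

theorem Occ_le_one (S : Step e) (n : ℕ) (p : List ℂ → Prop) : (Ex e n fun l => ind (p l)) ≤ 1 :=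
  (Ex_mono S fun _ _ _ => ind_le_one _).trans_eq (Ex_const S n 1)

theorem Occ_time (S : Step e) (T T' : ℕ) (b : ℝ) (y : ℂ) :
    (Ex e T fun l => ind (b ≤ occ ρ y l)) ≤ Ex e (T + T') fun l => ind (b ≤ occ ρ y l) := by
  rw [Ex_append]
  refine Ex_mono S fun l _ _ => (Ex_const S T' _).symm.trans_le
    (Ex_mono S fun l' _ _ => ind_mono fun h => ?_)
  rw [occ_append]
  exact h.trans (le_add_of_nonneg_right (occ_nonneg _ _ _))

theorem occ_sq (S : Step e) {L : ℕ} {U : ℝ} (hU : ∀ L' ≤ L, ∀ y, Ex e L' (occ ρ y) ≤ U) (x : ℂ) :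
    Ex e L (fun l => occ ρ x l ^ 2) ≤ (2 * U + 1) * Ex e L (occ ρ x) := by
  induction L generalizing x with
  | zero => simp [Ex, occ]
  | succ L ih =>
    simp only [Ex, occ]
    rw [mul_expect]
    refine expect_le_expect fun d _ => ?_
    have hi : ind (‖x + e d‖ ≤ ρ) ^ 2 = ind (‖x + e d‖ ≤ ρ) := by
      rw [sq, ← ind_and, and_self]
    have e1 : ∀ l, (ind (‖x + e d‖ ≤ ρ) + occ ρ (x + e d) l) ^ 2 = ind (‖x + e d‖ ≤ ρ) +
        (2 * ind (‖x + e d‖ ≤ ρ) * occ ρ (x + e d) l + occ ρ (x + e d) l ^ 2) := fun l => by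
      linear_combination hi
    simp only [e1]
    rw [Ex_add, Ex_add, Ex_add, Ex_const S, Ex_const_mul]
    have h1 := ih (fun L' h => hU L' (h.trans L.le_succ)) (x + e d)
    have h2 := mul_le_mul_of_nonneg_left (hU L L.le_succ (x + e d)) (ind_nonneg (‖x + e d‖ ≤ ρ))
    change _ + (_ * Ex e L (occ ρ (x + e d)) + _) ≤ _ * (_ + Ex e L (occ ρ (x + e d)))
    linarith only [h1, h2]

theorem pz (S : Step e) (h : 0 < ρ) (hx : ‖x‖ ≤ ρ) {L : ℕ} {γ : ℝ} (h1 : 1 ≤ γ)
    (hγ : γ ≤ Ex e L (occ ρ 0)) : 1 / 14000 ≤ Ex e L fun l => ind (γ / 8 ≤ occ ρ x l) := by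
  have h2 := occ_sq S (fun L' hL y => green_upper S h hL y) x (L := L)
  have h3 := green_in S hx L
  generalize Ex e L (occ ρ 0) = G at hγ h2 h3
  have hG : 0 < 868 * G := by linarith only [h1, hγ]
  have h4 : Ex e L (occ ρ x) ≤ Ex e L fun l => G / 8 +
      (868 * G * ind (γ / 8 ≤ occ ρ x l) + (868 * G)⁻¹ * occ ρ x l ^ 2) := by
    refine Ex_mono S fun l _ _ => ?_
    have h5 : 0 ≤ (868 * G)⁻¹ * occ ρ x l ^ 2 := by positivity
    by_cases hl : γ / 8 ≤ occ ρ x l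
    · have h6 : 0 ≤ (868 * G)⁻¹ * (occ ρ x l - 868 * G) ^ 2 := by positivity
      have h7 : (868 * G)⁻¹ * (occ ρ x l - 868 * G) ^ 2 =
          (868 * G)⁻¹ * occ ρ x l ^ 2 - 2 * occ ρ x l + 868 * G := by
        have hG0 : G ≠ 0 := by linarith only [h1, hγ]
        field_simp
        ring
      rw [ind_pos hl]
      linarith only [h1, hγ, h5, h6, h7, occ_nonneg ρ x l]
    · rw [ind_neg hl]
      linarith only [hγ, h5, hl, not_le.1 hl]
  rw [Ex_add, Ex_add, Ex_const S, Ex_const_mul, Ex_const_mul] at h4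
  have h8 : (868 * G)⁻¹ * Ex e L (fun l => occ ρ x l ^ 2) ≤ Ex e L (occ ρ x) / 4 := by
    rw [inv_mul_le_iff₀ hG]
    linarith only [h1, hγ, h2, h3, mul_nonneg_of_nonpos_of_nonpos (Mathlib.Tactic.Linarith.sub_nonpos_of_le h1) (Mathlib.Tactic.Linarith.sub_nonpos_of_le h1), mul_nonneg_of_nonpos_of_nonpos (Mathlib.Tactic.Linarith.sub_nonpos_of_le h1) (Mathlib.Tactic.Linarith.sub_nonpos_of_le hγ), mul_nonneg_of_nonpos_of_nonpos (Mathlib.Tactic.Linarith.sub_nonpos_of_le h1) (Mathlib.Tactic.Linarith.sub_nonpos_of_le h3), mul_nonneg_of_nonpos_of_nonpos (Mathlib.Tactic.Linarith.sub_nonpos_of_le hγ) (Mathlib.Tactic.Linarith.sub_nonpos_of_le hγ), mul_nonneg_of_nonpos_of_nonpos (Mathlib.Tactic.Linarith.sub_nonpos_of_le hγ) (Mathlib.Tactic.Linarith.sub_nonpos_of_le h3)]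
  refine le_of_mul_le_mul_left ?_ hG
  linarith only [h1, hγ, h3, h4, h8]

theorem occ_super (S : Step e) {T₂ : ℕ} {b β : ℝ} (h0 : 0 ≤ β)
    (hβ : ∀ y, ‖y‖ ≤ ρ → β ≤ Ex e T₂ fun l => ind (b ≤ occ ρ y l)) (T₁ : ℕ) {a : ℝ} (ha : 0 < a)
    (x : ℂ) : (Ex e T₁ fun l => ind (a ≤ occ ρ x l)) * β ≤
      Ex e (T₁ + T₂) fun l => ind (a + b ≤ occ ρ x l) := by
  induction T₁ generalizing x a with
  | zero =>
    rw [Ex, occ, ind_neg ha.not_ge, zero_mul]
    exact Ex_nonneg fun _ => ind_nonneg _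
  | succ T ih =>
    rw [Nat.add_right_comm]
    simp only [Ex, occ]
    rw [expect_mul]
    refine expect_le_expect fun d _ => ?_
    by_cases h1 : 0 < a - ind (‖x + e d‖ ≤ ρ)
    · have := ih h1 (x + e d)
      simp only [sub_add_eq_add_sub, sub_le_iff_le_add'] at this
      exact this
    · have h2 : ‖x + e d‖ ≤ ρ := by
        by_contra h2
        rw [ind_neg h2, sub_zero] at h1
        exact h1 ha
      calc _ ≤ 1 * β := mul_le_mul_of_nonneg_right (Occ_le_one S _ _) h0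
        _ ≤ _ := (one_mul β).trans_le (hβ _ h2)
        _ ≤ _ := Occ_time S T₂ T _ _
        _ ≤ _ := by
          rw [add_comm T₂]
          exact Ex_mono S fun l _ _ => ind_mono fun h => by linarith only [h1, h, not_lt.1 h1]

theorem pz_pow (S : Step e) (h : 0 < ρ) {L : ℕ} {γ : ℝ} (h1 : 1 ≤ γ) (hγ : γ ≤ Ex e L (occ ρ 0))
    (j : ℕ) (hx : ‖x‖ ≤ ρ) :
    (1 / 14000 : ℝ) ^ j ≤ Ex e (j * L) fun l => ind (j * γ / 8 ≤ occ ρ x l) := by
  induction j generalizing x with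
  | zero => rw [pow_zero, zero_mul, Ex, occ, ind_pos (by simp)]
  | succ j ih =>
    have h2 := occ_super S (by positivity) (fun y hy => ih hy) L (by linarith only [h1] : 0 < γ / 8) x
    rw [show L + j * L = (j + 1) * L by ring,
      show γ / 8 + j * γ / 8 = ((j + 1 : ℕ) : ℝ) * γ / 8 by push_cast; ring] at h2
    refine le_trans ?_ h2
    rw [pow_succ']
    exact mul_le_mul_of_nonneg_right (pz S h hx h1 hγ) (by positivity)

theorem bad_le (S : Step e) (K : ℕ) {r lam : ℕ → ℝ} {T : ℕ → ℕ} {α : ℝ} (h1 : α ≤ 1) (h0 : 0 ≤ α)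
    (hr : ∀ k < K, 0 < r k)
    (h : ∀ k < K, ∀ y, ‖y‖ ≤ r k → α ≤ Ex e (T k) fun l => ind (lam k ≤ occ (r k) y l)) :
    (Ex e (∑ k ∈ range K, T k) fun l => ind (∀ k < K, occ (r k) 0 l < lam k)) ≤
      (1 - α) ^ K + ∑ k ∈ range K, ((∑ i ∈ range k, T i : ℕ) : ℝ) / r k ^ 2 := by
  induction K with
  | zero => simpa only [sum_range_zero, pow_zero, add_zero] using Occ_le_one S 0 _
  | succ K ih =>
    have h2 := ih (fun k hk => hr k (hk.trans K.lt_succ_self)) fun k hk =>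
      h k (hk.trans K.lt_succ_self)
    have h3 := cheb S (∑ k ∈ range K, T k) (hr K K.lt_succ_self)
    have h4 : 0 ≤ ∑ k ∈ range K, ((∑ i ∈ range k, T i : ℕ) : ℝ) / r k ^ 2 :=
      sum_nonneg fun _ _ => by positivity
    have h5 : 0 ≤ 1 - α := sub_nonneg.2 h1
    rw [sum_range_succ, sum_range_succ, Ex_append]
    refine (Ex_mono S (Ψ := fun l => (1 - α) * ind (∀ k < K, occ (r k) 0 l < lam k) +
      ind (r K < ‖l.sum‖)) fun l _ _ => ?_).trans ?_
    · by_cases hl : r K < ‖l.sum‖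
      · rw [ind_pos hl]
        exact (Occ_le_one S _ _).trans
          (le_add_of_nonneg_left (mul_nonneg h5 (ind_nonneg _)))
      · rw [ind_neg hl, add_zero]
        refine (Ex_mono S (Ψ := fun l' => (1 - ind (lam K ≤ occ (r K) l.sum l')) *
          ind (∀ k < K, occ (r k) 0 l < lam k)) fun l' _ _ => ?_).trans ?_
        · rw [← ind_not, ← ind_and]
          refine ind_mono fun H => ⟨fun h6 => ?_, fun k hk => ?_⟩
          · have := H K K.lt_succ_self
            rw [occ_append, zero_add] at this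
            linarith only [h6, this, occ_nonneg (r K) 0 l]
          · have := H k (hk.trans K.lt_succ_self)
            rw [occ_append] at this
            linarith only [this, occ_nonneg (r k) (0 + l.sum) l']
        · rw [Ex_mul_const, Ex_sub, Ex_const S]
          exact mul_le_mul_of_nonneg_right
            (sub_le_sub_left (h K K.lt_succ_self _ (not_lt.1 hl)) 1) (ind_nonneg _)
    · rw [Ex_add, Ex_const_mul, pow_succ']
      linarith only [h3, h2, h5, h0, h4, mul_le_mul_of_nonneg_left h2 h5, mul_nonneg h0 h4]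

end Pool.Agent.Work.MP_31144c_an
end

-- merged part: Pool.Agent.Work.MP_31144c_an.New
section
/-! New cells and the Vitali covering (step B4).
PLAN. `new_det`: `occ_eq_sum`, `pos_add`, `pos_take`; exchange the sums; for a time `u ≤ N + T` the map `s ↦ cell (pos w s)` is injective on the new times and sends
those with `‖pos w u - pos w s‖ ≤ 1` into a box of 9 cells. `new_count`: `Ex_split`, `Ex_sum`. `cover_det`: the first time `s'` in the cell of `pos w s` is new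
(`Nat.find`); `Vitali.exists_disjoint_subfamily_covering_enlargement_closedBall` with `τ = 5` for the times `s' < N` with a scale `k s'`; every time
`u ∈ [1, N + T]` lies in at most one of the disjoint discs. -/

namespace Pool.Agent.Work.MP_31144c_an

open Finset Complex
open scoped BigOperators

variable {D : Type} [Fintype D] {e : D → ℂ}

theorem New_iff {w : List ℂ} {s : ℕ} (hs : s ≤ w.length) :
    New (w.take s) ↔ ∀ s' < s, cell (pos w s') ≠ cell (pos w s) := by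
  unfold New
  rw [List.length_take, min_eq_left hs]
  refine forall_congr' fun s' => forall_congr' fun h => ?_
  rw [pos_take w h.le]
  rfl

theorem New_occ_le {N T s : ℕ} {w : List ℂ} (hw : w.length = N + T) (hs : s < N) (ρ : ℝ) :
    occ ρ 0 ((w.drop s).take T)
      ≤ ∑ u ∈ range (N + T), ind (‖pos w (u + 1) - pos w s‖ ≤ ρ) := by
  have hl : ((w.drop s).take T).length = T := by
    rw [List.length_take, List.length_drop, hw]
    omega
  rw [occ_eq_sum, hl]
  have e1 : ∑ i ∈ range T, ind (‖0 + pos ((w.drop s).take T) (i + 1)‖ ≤ ρ)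
      = ∑ u ∈ Ico s (s + T), ind (‖pos w (u + 1) - pos w s‖ ≤ ρ) := by
    rw [Finset.sum_Ico_eq_sum_range, Nat.add_sub_cancel_left]
    refine Finset.sum_congr rfl fun i hi => ?_
    have hi' : i + 1 ≤ T := Finset.mem_range.1 hi
    rw [pos_take _ hi', zero_add, add_assoc, pos_add w s (i + 1), add_sub_cancel_left]
  rw [e1]
  refine Finset.sum_le_sum_of_subset_of_nonneg (fun u hu => ?_) fun _ _ _ => ind_nonneg _
  rw [Finset.mem_Ico] at hu
  rw [Finset.mem_range]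
  omega

theorem New_floor {a b : ℝ} (h : |a - b| ≤ 1) : ⌊b⌋ ∈ Finset.Icc (⌊a⌋ - 1) (⌊a⌋ + 1) := by
  rw [abs_le] at h
  rw [Finset.mem_Icc, ← Int.floor_sub_one, ← Int.floor_add_one]
  exact ⟨Int.floor_mono (by linarith only [h, h.2]), Int.floor_mono (by linarith [h.1])⟩

theorem New_sum_ind {ι : Type} (s : Finset ι) (p : ι → Prop) [DecidablePred p] :
    ∑ i ∈ s, ind (p i) = ((s.filter p).card : ℝ) := by
  rw [Finset.card_filter]
  push_cast
  refine Finset.sum_congr rfl fun i _ => ?_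
  by_cases h : p i
  · rw [ind_pos h, if_pos h]
  · rw [ind_neg h, if_neg h]

theorem New_nine {N : ℕ} {w : List ℂ} (hw : N ≤ w.length) (y : ℂ) :
    ∑ s ∈ range N, ind (New (w.take s)) * ind (‖y - pos w s‖ ≤ 1) ≤ 9 := by
  classical
  simp only [← ind_and]
  rw [New_sum_ind]
  have h : ((range N).filter fun s => New (w.take s) ∧ ‖y - pos w s‖ ≤ 1).card
      ≤ (Finset.Icc (⌊y.re⌋ - 1) (⌊y.re⌋ + 1) ×ˢ Finset.Icc (⌊y.im⌋ - 1) (⌊y.im⌋ + 1)).card := by
    refine Finset.card_le_card_of_injOn (fun s => cell (pos w s)) (fun s hs => ?_) ?_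
    · have hs' := (Finset.mem_filter.1 (Finset.mem_coe.1 hs)).2.2
      refine Finset.mem_coe.2 (Finset.mem_product.2 ⟨New_floor ?_, New_floor ?_⟩)
      · exact (Complex.abs_re_le_norm (y - pos w s)).trans hs'
      · exact (Complex.abs_im_le_norm (y - pos w s)).trans hs'
    · intro a ha b hb hab
      have ha' := Finset.mem_filter.1 (Finset.mem_coe.1 ha)
      have hb' := Finset.mem_filter.1 (Finset.mem_coe.1 hb)
      have ha1 : a ≤ w.length := (Finset.mem_range.1 ha'.1).le.trans hw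
      have hb1 : b ≤ w.length := (Finset.mem_range.1 hb'.1).le.trans hw
      rcases lt_trichotomy a b with h | h | h
      · exact absurd hab ((New_iff hb1).1 hb'.2.1 a h)
      · exact h
      · exact absurd hab.symm ((New_iff ha1).1 ha'.2.1 b h)
  have e : (Finset.Icc (⌊y.re⌋ - 1) (⌊y.re⌋ + 1) ×ˢ
      Finset.Icc (⌊y.im⌋ - 1) (⌊y.im⌋ + 1)).card = 9 := by
    rw [Finset.card_product, Int.card_Icc, Int.card_Icc]
    have e1 : ∀ a : ℤ, (a + 1 + 1 - (a - 1)).toNat = 3 := fun a => by omega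
    rw [e1, e1]
  rw [e] at h
  exact_mod_cast h

theorem New_cell {a b : ℂ} (h : cell a = cell b) : ‖a - b‖ ≤ 2 := by
  have h1 : ⌊a.re⌋ = ⌊b.re⌋ := congrArg Prod.fst h
  have h2 : ⌊a.im⌋ = ⌊b.im⌋ := congrArg Prod.snd h
  have h3 := Int.abs_sub_lt_one_of_floor_eq_floor h1
  have h4 := Int.abs_sub_lt_one_of_floor_eq_floor h2
  have h5 := Complex.norm_le_abs_re_add_abs_im (a - b)
  rw [Complex.sub_re, Complex.sub_im] at h5
  linarith only [h3, h4, h5]

theorem New_first {w : List ℂ} {s : ℕ} (hs : s ≤ w.length) :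
    ∃ s' ≤ s, New (w.take s') ∧ ‖pos w s - pos w s'‖ ≤ 2 := by
  classical
  have hex : ∃ s', cell (pos w s') = cell (pos w s) := ⟨s, rfl⟩
  have hle : Nat.find hex ≤ s := Nat.find_min' hex rfl
  refine ⟨Nat.find hex, hle, (New_iff (hle.trans hs)).2 fun t ht => ?_,
    New_cell (Nat.find_spec hex).symm⟩
  rw [Nat.find_spec hex]
  exact Nat.find_min hex ht

theorem new_det {N T : ℕ} {w : List ℂ} (hw : w.length = N + T) :
    ∑ s ∈ range N, ind (New (w.take s)) * occ 1 0 ((w.drop s).take T) ≤ 9 * (N + T) := by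
  calc _ ≤ ∑ s ∈ range N, ∑ u ∈ range (N + T),
          ind (New (w.take s)) * ind (‖pos w (u + 1) - pos w s‖ ≤ 1) := by
        refine Finset.sum_le_sum fun s hs => ?_
        rw [← Finset.mul_sum]
        exact mul_le_mul_of_nonneg_left (New_occ_le hw (Finset.mem_range.1 hs) 1) (ind_nonneg _)
    _ ≤ ∑ _u ∈ range (N + T), (9 : ℝ) := by
        rw [Finset.sum_comm]
        exact Finset.sum_le_sum fun u _ => New_nine (by omega) _
    _ = _ := by
        rw [Finset.sum_const, Finset.card_range, nsmul_eq_mul]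
        push_cast
        ring

theorem new_count (S : Step e) (N T : ℕ) :
    (∑ s ∈ range N, Ex e s fun l => ind (New l)) * Ex e T (occ 1 0) ≤ 9 * (N + T) := by
  rw [Finset.sum_mul]
  have e1 : ∑ s ∈ range N, (Ex e s fun l => ind (New l)) * Ex e T (occ 1 0)
      = ∑ s ∈ range N, Ex e (N + T)
          (fun w => ind (New (w.take s)) * occ 1 0 ((w.drop s).take T)) := by
    refine Finset.sum_congr rfl fun s hs => ?_
    have hs' : s < N := Finset.mem_range.1 hs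
    exact (Ex_split S (by omega : s + T ≤ N + T) (fun l => ind (New l)) (occ 1 0)).symm
  rw [e1, ← Ex_sum, ← Ex_const S (N + T) (9 * (N + T) : ℝ)]
  exact Ex_mono S fun l hl _ => new_det hl

theorem cover_det {N T K : ℕ} {w : List ℂ} (hw : w.length = N + T) {r lam : ℕ → ℝ}
    (hr : ∀ k < K, 1 ≤ r k) : ∃ (A : Finset ℕ) (κ : ℕ → ℕ), (∀ s ∈ A, κ s < K) ∧
      ∑ s ∈ A, lam (κ s) ≤ N + T ∧ ∀ s < N, (∃ s' ∈ A, ‖pos w s - pos w s'‖ ≤ 7 * r (κ s')) ∨
        ∃ s' < N, New (w.take s') ∧ (∀ k < K, occ (r k) 0 ((w.drop s').take T) < lam k) ∧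
          ‖pos w s - pos w s'‖ ≤ 2 := by
  classical
  let good : ℕ → Prop := fun s => ∃ k, k < K ∧ lam k ≤ occ (r k) 0 ((w.drop s).take T)
  let κ : ℕ → ℕ := fun s => if h : good s then h.choose else 0
  have hκ : ∀ s, good s → κ s < K ∧ lam (κ s) ≤ occ (r (κ s)) 0 ((w.drop s).take T) := by
    intro s h
    simp only [κ, dif_pos h]
    exact h.choose_spec
  obtain ⟨u, hut, hdis, hcov⟩ :=
    Vitali.exists_disjoint_subfamily_covering_enlargement_closedBall
      {s : ℕ | s < N ∧ good s} (pos w) (fun s => r (κ s)) (∑ k ∈ range K, r k)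
      (fun a ha => Finset.single_le_sum (f := r)
        (fun k hk => zero_le_one.trans (hr k (Finset.mem_range.1 hk)))
        (Finset.mem_range.2 (hκ a ha.2).1)) 5 (by norm_num)
  refine ⟨(range N).filter (· ∈ u), κ, fun s hs => ?_, ?_, fun s hs => ?_⟩
  · exact (hκ s (hut (Finset.mem_filter.1 hs).2).2).1
  · calc _ ≤ ∑ s ∈ (range N).filter (· ∈ u), ∑ v ∈ range (N + T),
            ind (‖pos w (v + 1) - pos w s‖ ≤ r (κ s)) := by
          refine Finset.sum_le_sum fun s hs => ?_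
          have h := hut (Finset.mem_filter.1 hs).2
          exact (hκ s h.2).2.trans (New_occ_le hw h.1 _)
      _ ≤ ∑ _v ∈ range (N + T), (1 : ℝ) := by
          rw [Finset.sum_comm]
          refine Finset.sum_le_sum fun v _ => ?_
          rw [New_sum_ind]
          have h1 : (((range N).filter (· ∈ u)).filter
              fun s => ‖pos w (v + 1) - pos w s‖ ≤ r (κ s)).card ≤ 1 := by
            refine Finset.card_le_one.2 fun a ha b hb => ?_
            by_contra hab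
            have ha' := Finset.mem_filter.1 ha
            have hb' := Finset.mem_filter.1 hb
            have hd := hdis (Finset.mem_filter.1 ha'.1).2 (Finset.mem_filter.1 hb'.1).2 hab
            exact Set.disjoint_left.1 hd (mem_closedBall_iff_norm.2 ha'.2)
              (mem_closedBall_iff_norm.2 hb'.2)
          exact_mod_cast h1
      _ = _ := by
          rw [Finset.sum_const, Finset.card_range, nsmul_eq_mul]
          push_cast
          ring
  · obtain ⟨s', hle, hnew, hd⟩ := New_first (w := w) (s := s) (by omega)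
    have hs' : s' < N := lt_of_le_of_lt hle hs
    by_cases hg : good s'
    · left
      obtain ⟨b, hb, hsub⟩ := hcov s' ⟨hs', hg⟩
      have hb' := hut hb
      refine ⟨b, Finset.mem_filter.2 ⟨Finset.mem_range.2 hb'.1, hb⟩, ?_⟩
      have h1 : 1 ≤ r (κ s') := hr _ (hκ s' hg).1
      have h2 : 1 ≤ r (κ b) := hr _ (hκ b hb'.2).1
      have h3 : ‖pos w s' - pos w b‖ ≤ 5 * r (κ b) :=
        mem_closedBall_iff_norm.1 (hsub (Metric.mem_closedBall_self (by linarith only [h1])))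
      have h4 := norm_sub_le_norm_sub_add_norm_sub (pos w s) (pos w s') (pos w b)
      linarith only [hd, h2, h3, h4]
    · right
      refine ⟨s', hs', hnew, fun k hk => ?_, hd⟩
      by_contra hc
      exact hg ⟨k, hk, not_lt.1 hc⟩

end Pool.Agent.Work.MP_31144c_an
end

-- merged part: Pool.Agent.Work.MP_31144c_an.Blk
section
/-! One block (steps B3, B4).
PLAN. `blk_abs`: `N = n ^ 2`, `T = ∑ k < K, j * (r k * n)`, `γ k = r k ^ 2 / 216 * log (n / (2 r k))` (`green_lower` with `L = r k * n`), `lam k = j γ k / 8`.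
Pass to lists of length `N + T` (`Ex_take`). Let `X w = ∑ s < N, ind (New (take s w)) * ind (bad future)`. From `cover_det`: discs of radius `13 r / n` about
`pos w s' / n` (`s' ∈ A`, index `2 s'`) and `8 / n` (new bad `s'`, index `2 s' + 1`); `h0 (26 r / n) ≤ 676 (r / n) ^ 2 log (n / (2 r)) Λ`,
`h0 (16 / n) ≤ 256 log n Λ / n ^ 2`. So `ind (¬ Cov) ≤ (c₁ + 256 log n Λ X / n ^ 2) / κ`. `Ex X = (∑ P(new)) P(bad)` (`Ex_split`), `new_count`,
`green_lower` with `r = 1`, `T ≥ n`, `log n ≤ 2 log (n / 2)`. `blk_par`: `K = j * 14000 ^ j`, `n = 2 ^ 3 ^ (2 K)`, `r k = 2 ^ (3 ^ (2 K) - 3 ^ (2 K - k))`,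
`Λ = 12 j`, `j` large. -/

namespace Pool.Agent.Work.MP_31144c_an

open Finset Complex
open scoped BigOperators

/-- The numerical conditions on one block. -/
structure BPar (η : ℝ) (n K j : ℕ) (r : ℕ → ℕ) : Prop where
  hK : 0 < K
  hj : 0 < j
  rpos : ∀ k < K, 0 < r k
  small : ∀ k < K, 13 * (r k : ℝ) / n ≤ η
  lg : ∀ k < K, 216 ≤ Real.log (n / (2 * r k))
  lg2 : ∀ k < K, 3 ≤ Real.log (n / (26 * r k))
  time : ∑ k ∈ range K, j * (r k * n) ≤ n ^ 2
  lll : Real.log (Real.log (Real.log n)) ≤ 12 * j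
  bad : j * ((1 - (1 / 14000 : ℝ) ^ j) ^ K +
    ∑ k ∈ range K, ((∑ i ∈ range k, j * (r i * n) : ℕ) : ℝ) / (r k : ℝ) ^ 2) ≤ 2

theorem Blk_four (K : ℕ) : 4 * K ≤ 3 ^ (K + 1) := by
  induction K with
  | zero => simp
  | succ k ih =>
    have : 1 ≤ 3 ^ k := Nat.one_le_pow _ _ (by norm_num)
    rw [pow_succ] at ih
    rw [pow_succ, pow_succ]
    omega

theorem Blk_log {M : ℕ} (hM : 1000 ≤ M) : 216 ≤ Real.log ((2 : ℝ) ^ M / 26) := by
  rw [Real.log_div (by positivity) (by norm_num), Real.log_pow]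
  have h1 := Real.log_two_gt_d9
  have h2 : Real.log 26 ≤ 26 - 1 := Real.log_le_sub_one_of_pos (by norm_num)
  have h3 : (1000 : ℝ) ≤ M := by exact_mod_cast hM
  linarith only [h2, h3, h1, mul_nonneg_of_nonpos_of_nonpos (Mathlib.Tactic.Linarith.sub_nonpos_of_le (Mathlib.Tactic.Linarith.natCast_nonneg ℝ M)) (le_of_lt (Mathlib.Tactic.Linarith.sub_neg_of_lt h1))]

theorem Blk_lll {j K : ℕ} (hj : 0 < j) (hK : K = j * 14000 ^ j) :
    Real.log (Real.log (Real.log ((2 ^ 3 ^ (2 * K) : ℕ) : ℝ))) ≤ 12 * j := by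
  have hK1 : 1 ≤ K := by rw [hK]; exact Nat.mul_pos hj (by positivity)
  have hK1' : (1 : ℝ) ≤ K := by exact_mod_cast hK1
  have l2 := Real.log_two_gt_d9
  have l2' := Real.log_two_lt_d9
  have h9 : (9 : ℝ) ≤ 3 ^ (2 * K) := by
    calc (9 : ℝ) = 3 ^ 2 := by norm_num
      _ ≤ 3 ^ (2 * K) := pow_le_pow_right₀ (by norm_num) (by omega)
  have e1 : Real.log ((2 ^ 3 ^ (2 * K) : ℕ) : ℝ) = 3 ^ (2 * K) * Real.log 2 := by
    push_cast
    rw [Real.log_pow]
    push_cast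
    rfl
  rw [e1]
  have p1 : 1 < 3 ^ (2 * K) * Real.log 2 := by linarith only [l2', h9, l2, mul_pos_of_neg_of_neg (Mathlib.Tactic.Linarith.sub_neg_of_lt l2) (Mathlib.Tactic.Linarith.sub_neg_of_lt l2), mul_pos_of_neg_of_neg (Mathlib.Tactic.Linarith.sub_neg_of_lt l2) (Mathlib.Tactic.Linarith.sub_neg_of_lt l2'), mul_nonneg_of_nonpos_of_nonpos (le_of_lt (Mathlib.Tactic.Linarith.sub_neg_of_lt l2)) (Mathlib.Tactic.Linarith.sub_nonpos_of_le h9)]
  have p2 : Real.log (3 ^ (2 * K) * Real.log 2) ≤ 4 * K := by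
    have l3 : Real.log 3 ≤ 3 - 1 := Real.log_le_sub_one_of_pos (by norm_num)
    calc Real.log (3 ^ (2 * K) * Real.log 2) ≤ Real.log (3 ^ (2 * K)) :=
          Real.log_le_log (by linarith only [l2, l2', p1]) (by linarith only [h9, l2, l2', mul_pos_of_neg_of_neg (Mathlib.Tactic.Linarith.sub_neg_of_lt l2) (Mathlib.Tactic.Linarith.sub_neg_of_lt l2), mul_pos_of_neg_of_neg (Mathlib.Tactic.Linarith.sub_neg_of_lt l2) (Mathlib.Tactic.Linarith.sub_neg_of_lt l2'), mul_pos_of_neg_of_neg (Mathlib.Tactic.Linarith.sub_neg_of_lt l2') (Mathlib.Tactic.Linarith.sub_neg_of_lt l2'), mul_nonneg_of_nonpos_of_nonpos (le_of_lt (Mathlib.Tactic.Linarith.sub_neg_of_lt l2')) (Mathlib.Tactic.Linarith.sub_nonpos_of_le h9)])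
      _ = (2 * K : ℕ) * Real.log 3 := Real.log_pow _ _
      _ ≤ 4 * K := by push_cast; linarith only [l3, mul_nonneg_of_nonpos_of_nonpos (Mathlib.Tactic.Linarith.sub_nonpos_of_le (Mathlib.Tactic.Linarith.natCast_nonneg ℝ K)) (Mathlib.Tactic.Linarith.sub_nonpos_of_le l3)]
  have p3 := Real.log_pos p1
  refine (Real.log_le_log p3 p2).trans ?_
  rw [Real.log_le_iff_le_exp (by positivity)]
  have h4 : 4 * j ≤ 4 ^ j := by
    obtain ⟨i, rfl⟩ : ∃ i, j = i + 1 := ⟨j - 1, by omega⟩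
    have : i < 4 ^ i := Nat.lt_pow_self (by norm_num)
    rw [pow_succ]
    omega
  have h5 : 4 * K ≤ 56000 ^ j := by
    calc 4 * K = (4 * j) * 14000 ^ j := by rw [hK]; ring
      _ ≤ 4 ^ j * 14000 ^ j := Nat.mul_le_mul_right _ h4
      _ = 56000 ^ j := (mul_pow 4 14000 j).symm
  have h6 : (56000 : ℝ) ≤ Real.exp 12 := by
    have := Real.exp_one_gt_d9
    calc (56000 : ℝ) ≤ 2.7 ^ 12 := by norm_num
      _ ≤ Real.exp 1 ^ 12 := pow_le_pow_left₀ (by norm_num) (by linarith only [l2, l2', this]) _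
      _ = Real.exp 12 := by rw [← Real.exp_nat_mul]; norm_num
  calc (4 * K : ℝ) ≤ 56000 ^ j := by exact_mod_cast h5
    _ ≤ Real.exp 12 ^ j := pow_le_pow_left₀ (by norm_num) h6 _
    _ = Real.exp (12 * j) := by rw [← Real.exp_nat_mul, mul_comm]

theorem blk_par {η : ℝ} (h : 0 < η) : ∃ (n K j : ℕ) (r : ℕ → ℕ), 1 / η ≤ (n : ℝ) ∧ BPar η n K j r := by
  obtain ⟨j₀, hj₀⟩ := exists_nat_ge (13 / η)
  obtain ⟨j, hjd⟩ : ∃ j, j = j₀ + 1 := ⟨_, rfl⟩
  have hj : 0 < j := by omega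
  obtain ⟨K, hK⟩ : ∃ K, K = j * 14000 ^ j := ⟨_, rfl⟩
  have h14 : 14000 ≤ 14000 ^ j := Nat.le_self_pow (by omega) _
  have hjK : j ≤ K := by rw [hK]; exact Nat.le_mul_of_pos_right _ (by omega)
  have hK14 : 14000 ≤ K := by rw [hK]; exact h14.trans (Nat.le_mul_of_pos_left _ hj)
  obtain ⟨q, hq⟩ : ∃ q, q = 3 ^ (K + 1) := ⟨_, rfl⟩
  obtain ⟨E, hE⟩ : ∃ E, E = 3 ^ (2 * K) := ⟨_, rfl⟩
  obtain ⟨M, hM⟩ : ∃ M : ℕ → ℕ, M = fun k => 3 ^ (2 * K - k) := ⟨_, rfl⟩
  have hq4 : 4 * K ≤ q := hq ▸ Blk_four K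
  have hME : ∀ k, M k ≤ E := fun k => by
    rw [hM, hE]; exact Nat.pow_le_pow_right (by norm_num) (by omega)
  have hqM : ∀ k < K, q ≤ M k := fun k hk => by
    rw [hM, hq]; exact Nat.pow_le_pow_right (by norm_num) (by omega)
  have hMM : ∀ k < K, ∀ i < k, 3 * M k ≤ M i := fun k hk i hi => by
    rw [hM]
    calc 3 * 3 ^ (2 * K - k) = 3 ^ (2 * K - k + 1) := by ring
      _ ≤ 3 ^ (2 * K - i) := Nat.pow_le_pow_right (by norm_num) (by omega)
  have hqE : q ≤ E := (hqM 0 (by omega)).trans (hME 0)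
  have hK4 : K ^ 4 ≤ 2 ^ q := by
    calc K ^ 4 ≤ (2 ^ K) ^ 4 := Nat.pow_le_pow_left (Nat.lt_two_pow_self).le _
      _ = 2 ^ (4 * K) := by rw [← pow_mul, mul_comm]
      _ ≤ 2 ^ q := Nat.pow_le_pow_right (by norm_num) hq4
  have hKK : K ≤ K ^ 4 := Nat.le_self_pow (by norm_num) _
  have hη : ∀ m, q ≤ m → 13 / η ≤ (2 : ℝ) ^ m := fun m hm => by
    have : j₀ ≤ 2 ^ m := by
      have := Nat.pow_le_pow_right (show 0 < 2 by norm_num) hm
      omega
    exact hj₀.trans (by exact_mod_cast this)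
  have hdiv : ∀ k, ((2 ^ E : ℕ) : ℝ) = ((2 ^ (E - M k) : ℕ) : ℝ) * 2 ^ M k := fun k => by
    push_cast
    rw [← pow_add, Nat.sub_add_cancel (hME k)]
  have hl : ∀ k < K, 216 ≤ Real.log (((2 ^ E : ℕ) : ℝ) / (26 * ((2 ^ (E - M k) : ℕ) : ℝ))) :=
    fun k hk => by
      have : ((2 ^ E : ℕ) : ℝ) / (26 * ((2 ^ (E - M k) : ℕ) : ℝ)) = 2 ^ M k / 26 := by
        rw [hdiv k]; field_simp
      rw [this]
      exact Blk_log (by have := hqM k hk; omega)
  refine ⟨2 ^ E, K, j, fun k => 2 ^ (E - M k), ?_, by omega, hj, fun k _ => by positivity,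
    fun k hk => ?_, fun k hk => ?_, fun k hk => ?_, ?_, ?_, ?_⟩
  · have := hη E hqE
    push_cast
    refine le_trans ?_ this
    gcongr
    norm_num
  · have h1 := hη _ (hqM k hk)
    rw [div_le_iff₀ h] at h1
    rw [div_le_iff₀ (by positivity), hdiv k]
    have : (0 : ℝ) < ((2 ^ (E - M k) : ℕ) : ℝ) := by positivity
    linarith only [h1, mul_nonneg_of_nonpos_of_nonpos (Mathlib.Tactic.Linarith.sub_nonpos_of_le (Mathlib.Tactic.Linarith.natCast_nonneg ℝ ((2 : ℕ) ^ (E - M k)))) (Mathlib.Tactic.Linarith.sub_nonpos_of_le h1)]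
  · refine (hl k hk).trans (Real.log_le_log (by positivity) ?_)
    gcongr
    norm_num
  · exact le_trans (by norm_num) (hl k hk)
  · calc ∑ k ∈ range K, j * (2 ^ (E - M k) * 2 ^ E) ≤ ∑ k ∈ range K, K * (2 ^ (E - q) * 2 ^ E) :=
          sum_le_sum fun k hk => Nat.mul_le_mul hjK (Nat.mul_le_mul_right _
            (Nat.pow_le_pow_right (by norm_num) (by have := hqM k (mem_range.1 hk); omega)))
      _ = K ^ 2 * (2 ^ (E - q) * 2 ^ E) := by rw [sum_const, card_range, smul_eq_mul]; ring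
      _ ≤ 2 ^ q * (2 ^ (E - q) * 2 ^ E) := Nat.mul_le_mul_right _
            ((Nat.pow_le_pow_right (by omega) (by norm_num)).trans hK4)
      _ = (2 ^ E) ^ 2 := by rw [← mul_assoc, ← pow_add, Nat.add_sub_cancel' hqE]; ring
  · rw [hE]; exact Blk_lll hj hK
  · have a1 : (j : ℝ) * (1 - (1 / 14000 : ℝ) ^ j) ^ K ≤ 1 := by
      have b0 : (1 / 14000 : ℝ) ^ j ≤ 1 := pow_le_one₀ (by norm_num) (by norm_num)
      have b1 : (1 - (1 / 14000 : ℝ) ^ j) ^ K ≤ Real.exp (-(1 / 14000 : ℝ) ^ j) ^ K :=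
        pow_le_pow_left₀ (by linarith only [b0]) (by linarith only [Real.add_one_le_exp (-(1 / 14000 : ℝ) ^ j)]) _
      have b2 : Real.exp (-(1 / 14000 : ℝ) ^ j) ^ K = Real.exp (-j) := by
        rw [← Real.exp_nat_mul, hK]
        congr 1
        push_cast
        have : (14000 : ℝ) ^ j * (1 / 14000 : ℝ) ^ j = 1 := by rw [← mul_pow]; norm_num
        linear_combination (-(j : ℝ)) * this
      have b3 : (j : ℝ) * Real.exp (-j) ≤ 1 := by
        rw [Real.exp_neg, ← div_eq_mul_inv, div_le_one (Real.exp_pos _)]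
        linarith only [Real.add_one_le_exp (j : ℝ)]
      calc (j : ℝ) * (1 - (1 / 14000 : ℝ) ^ j) ^ K ≤ j * Real.exp (-j) := by
            rw [← b2]; gcongr
        _ ≤ 1 := b3
    have a2 : ∀ k ∈ range K, ((∑ i ∈ range k, j * (2 ^ (E - M i) * 2 ^ E) : ℕ) : ℝ) /
        ((2 ^ (E - M k) : ℕ) : ℝ) ^ 2 ≤ (K : ℝ) ^ 2 / 2 ^ q := fun k hk => by
      have hk := mem_range.1 hk
      rw [div_le_div_iff₀ (by positivity) (by positivity)]
      have : (∑ i ∈ range k, j * (2 ^ (E - M i) * 2 ^ E)) * 2 ^ q ≤ K ^ 2 * (2 ^ (E - M k)) ^ 2 := by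
        rw [sum_mul]
        calc ∑ i ∈ range k, j * (2 ^ (E - M i) * 2 ^ E) * 2 ^ q
            ≤ ∑ i ∈ range k, K * (2 ^ (E - M k)) ^ 2 := sum_le_sum fun i hi => by
              rw [mul_assoc, ← pow_add, ← pow_add, ← pow_mul]
              refine Nat.mul_le_mul hjK (Nat.pow_le_pow_right (by norm_num) ?_)
              have := hMM k hk i (mem_range.1 hi)
              have := hME i
              have := hqM k hk
              omega
          _ = k * (K * (2 ^ (E - M k)) ^ 2) := by rw [sum_const, card_range, smul_eq_mul]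
          _ ≤ K * (K * (2 ^ (E - M k)) ^ 2) := Nat.mul_le_mul_right _ hk.le
          _ = K ^ 2 * (2 ^ (E - M k)) ^ 2 := by ring
      exact_mod_cast this
    have a3 := sum_le_sum a2
    rw [sum_const, card_range, nsmul_eq_mul] at a3
    have a4 : (j : ℝ) * (K * ((K : ℝ) ^ 2 / 2 ^ q)) ≤ 1 := by
      have c1 : (j : ℝ) ≤ K := by exact_mod_cast hjK
      have c2 : (K : ℝ) ^ 4 ≤ 2 ^ q := by exact_mod_cast hK4
      calc (j : ℝ) * (K * ((K : ℝ) ^ 2 / 2 ^ q)) ≤ K * (K * ((K : ℝ) ^ 2 / 2 ^ q)) := by gcongr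
        _ = (K : ℝ) ^ 4 / 2 ^ q := by ring
        _ ≤ 1 := by rw [div_le_one (by positivity)]; exact c2
    have a5 := mul_le_mul_of_nonneg_left a3 (Nat.cast_nonneg (α := ℝ) j)
    rw [mul_add]
    linarith only [a1, a4, a5]

theorem Blk_h0 {n a b j : ℝ} (hb : 0 < b) (hba : b ≤ a) (ha : 1 ≤ a) (hn : 0 < n)
    (h3 : 3 ≤ Real.log (n / a)) (hj : 0 ≤ j) (hl : Real.log (Real.log (Real.log n)) ≤ j) :
    h0 (a / n) ≤ (a / n) ^ 2 * (Real.log (n / b) * j) := by
  unfold h0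
  rw [one_div_div]
  have h1 : Real.log (n / a) ≤ Real.log (n / b) :=
    Real.log_le_log (by positivity) (by gcongr)
  have h2 : Real.log (n / a) ≤ Real.log n :=
    Real.log_le_log (by positivity) (div_le_self hn.le ha)
  have h4 : 0 < Real.log (Real.log (n / a)) := Real.log_pos (by linarith only [h3])
  have h5 : Real.log (Real.log (Real.log (n / a))) ≤ j :=
    (Real.log_le_log h4 (Real.log_le_log (by linarith only [h3]) h2)).trans hl
  refine mul_le_mul_of_nonneg_left ?_ (by positivity)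
  calc _ ≤ Real.log (n / a) * j := mul_le_mul_of_nonneg_left h5 (by linarith only [h3])
    _ ≤ _ := mul_le_mul_of_nonneg_right h1 hj

theorem Blk_ball {x y : ℂ} {n a b : ℝ} (hn : 0 < n) (h : ‖x - y‖ ≤ a) (hab : a + 6 ≤ b) :
    Metric.closedBall (x / n) (6 / n) ⊆ Metric.closedBall (y / n) (b / n) := by
  refine Metric.closedBall_subset_closedBall' ?_
  rw [dist_eq_norm, ← sub_div, norm_div, Complex.norm_real, Real.norm_of_nonneg hn.le, ← add_div]
  gcongr
  linarith only [h, hab]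

theorem Blk_n {η : ℝ} {n K j : ℕ} {r : ℕ → ℕ} (P : BPar η n K j r) :
    0 < (n : ℝ) ∧ 3 ≤ Real.log (n / 16) := by
  have h := P.lg2 0 P.hK
  have hr : (1 : ℝ) ≤ r 0 := by exact_mod_cast P.rpos 0 P.hK
  have hn : 0 < (n : ℝ) := by
    rcases (Nat.cast_nonneg (α := ℝ) n).eq_or_lt with h0 | h0
    · rw [← h0] at h
      norm_num at h
    · exact h0
  refine ⟨hn, h.trans (Real.log_le_log (by positivity) ?_)⟩
  gcongr
  linarith only [hr]

theorem Blk_det {η : ℝ} {n K j : ℕ} {r : ℕ → ℕ} (P : BPar η n K j r) {T : ℕ} (hT : T ≤ n ^ 2)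
    {w : List ℂ} (hw : w.length = n ^ 2 + T) {lam : ℕ → ℝ}
    (hlam : ∀ k, lam k = j * ((r k : ℝ) ^ 2 / 216 * Real.log (n / (2 * r k))) / 8) {κ : ℝ}
    (hκ : 28035072 + 3072 * j * Real.log n / (n : ℝ) ^ 2 * ∑ s ∈ range (n ^ 2),
      ind (New (w.take s)) * ind (∀ k < K, occ (r k) 0 ((w.drop s).take T) < lam k) ≤ κ) :
    Cov n η κ (w.take (n ^ 2)) := by
  classical
  obtain ⟨hn, h16⟩ := Blk_n P
  have hr : ∀ k < K, (1 : ℝ) ≤ r k := fun k hk => by exact_mod_cast P.rpos k hk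
  obtain ⟨A, m, hm, hsum, hcov⟩ := cover_det (K := K) (r := fun k => (r k : ℝ)) (lam := lam) hw hr
  obtain ⟨B, hB⟩ : ∃ B, B = (range (n ^ 2)).filter fun s =>
    New (w.take s) ∧ ∀ k < K, occ (r k) 0 ((w.drop s).take T) < lam k := ⟨_, rfl⟩
  have hcard : ∑ s ∈ range (n ^ 2), ind (New (w.take s)) *
      ind (∀ k < K, occ (r k) 0 ((w.drop s).take T) < lam k) = B.card := by
    rw [hB, card_filter]
    push_cast
    refine sum_congr rfl fun s _ => ?_
    rw [← ind_and]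
    split_ifs with h
    · exact ind_pos h
    · exact ind_neg h
  rw [hcard] at hκ
  have hj : (0 : ℝ) ≤ 12 * j := by positivity
  refine ⟨A.image (fun s => 2 * s) ∪ B.image (fun s => 2 * s + 1), fun i => pos w (i / 2) / n,
    fun i => if i % 2 = 0 then 13 * r (m (i / 2)) / n else 8 / n, ?_, ?_, ?_⟩
  · intro i hi
    rcases mem_union.1 hi with hi | hi
    · obtain ⟨s, hs, rfl⟩ := mem_image.1 hi
      have e1 : 2 * s % 2 = 0 := by omega
      have e2 : 2 * s / 2 = s := by omega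
      have := hr _ (hm s hs)
      simp only [e1, e2, if_true]
      exact ⟨by positivity, P.small _ (hm s hs)⟩
    · obtain ⟨s, hs, rfl⟩ := mem_image.1 hi
      have e1 : ¬ (2 * s + 1) % 2 = 0 := by omega
      have := hr 0 P.hK
      simp only [e1, if_false]
      refine ⟨by positivity, le_trans ?_ (P.small 0 P.hK)⟩
      gcongr
      linarith only [this]
  · rw [sum_union, sum_image (fun a _ b _ h => by simpa using h),
      sum_image (fun a _ b _ h => by simpa using h)]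
    · have a1 : ∑ s ∈ A, h0 (2 * (if 2 * s % 2 = 0 then 13 * (r (m (2 * s / 2)) : ℝ) / n else 8 / n))
          ≤ ∑ s ∈ A, 14017536 / (n : ℝ) ^ 2 * lam (m s) := sum_le_sum fun s hs => by
        have e1 : 2 * s % 2 = 0 := by omega
        have e2 : 2 * s / 2 = s := by omega
        have h1 := hr _ (hm s hs)
        simp only [e1, e2, if_true]
        have e3 : 2 * (13 * (r (m s) : ℝ) / n) = 26 * r (m s) / n := by ring
        rw [e3]
        refine (Blk_h0 (b := 2 * r (m s)) (by positivity) (by linarith only [h1]) (by linarith only [h1]) hn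
          (P.lg2 _ (hm s hs)) hj P.lll).trans (le_of_eq ?_)
        rw [hlam]
        ring
      have a2 : ∑ s ∈ B, h0 (2 * (if (2 * s + 1) % 2 = 0 then
          13 * (r (m ((2 * s + 1) / 2)) : ℝ) / n else 8 / n))
          ≤ ∑ s ∈ B, 3072 * j * Real.log n / (n : ℝ) ^ 2 := sum_le_sum fun s hs => by
        have e1 : ¬ (2 * s + 1) % 2 = 0 := by omega
        simp only [e1, if_false]
        have e3 : 2 * (8 / (n : ℝ)) = 16 / n := by ring
        rw [e3]
        refine (Blk_h0 (b := 1) one_pos (by norm_num) (by norm_num) hn h16 hj P.lll).trans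
          (le_of_eq ?_)
        rw [div_one]
        ring
      rw [← mul_sum] at a1
      rw [sum_const, nsmul_eq_mul] at a2
      have hT' : (T : ℝ) ≤ (n : ℝ) ^ 2 := by exact_mod_cast hT
      have a3 : 14017536 / (n : ℝ) ^ 2 * ∑ s ∈ A, lam (m s) ≤ 28035072 := by
        rw [div_mul_eq_mul_div, div_le_iff₀ (by positivity)]
        push_cast at hsum
        linarith only [hT', hsum]
      linarith only [hκ, a1, a2, a3]
    · rw [disjoint_left]
      intro i h1 h2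
      obtain ⟨s, -, rfl⟩ := mem_image.1 h1
      obtain ⟨t, -, h⟩ := mem_image.1 h2
      omega
  · intro s hs
    rw [pos_take w hs.le]
    rcases hcov s hs with ⟨t, ht, h⟩ | ⟨t, ht, h1, h2, h⟩
    · refine Set.subset_iUnion₂_of_subset (2 * t) (mem_union_left _ (mem_image_of_mem _ ht)) ?_
      have e1 : 2 * t % 2 = 0 := by omega
      have e2 : 2 * t / 2 = t := by omega
      have := hr _ (hm t ht)
      simp only [e1, e2, if_true]
      exact Blk_ball hn h (by linarith only [this])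
    · refine Set.subset_iUnion₂_of_subset (2 * t + 1) (mem_union_right _ (mem_image_of_mem _ ?_)) ?_
      · rw [hB]
        exact mem_filter.2 ⟨mem_range.2 ht, h1, h2⟩
      have e1 : ¬ (2 * t + 1) % 2 = 0 := by omega
      have e2 : (2 * t + 1) / 2 = t := by omega
      simp only [e1, e2, if_false]
      exact Blk_ball hn h (by norm_num)

theorem Blk_bad {η : ℝ} {n K j : ℕ} {r : ℕ → ℕ} (P : BPar η n K j r) {D : Type} [Fintype D]
    {e : D → ℂ} (S : Step e) {lam : ℕ → ℝ}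
    (hlam : ∀ k, lam k = j * ((r k : ℝ) ^ 2 / 216 * Real.log (n / (2 * r k))) / 8) :
    j * (Ex e (∑ k ∈ range K, j * (r k * n)) fun l => ind (∀ k < K, occ (r k) 0 l < lam k)) ≤ 2 := by
  refine le_trans (mul_le_mul_of_nonneg_left ?_ (Nat.cast_nonneg j)) P.bad
  refine bad_le S K (r := fun k => (r k : ℝ)) (T := fun k => j * (r k * n))
    (pow_le_one₀ (by norm_num) (by norm_num)) (by positivity)
    (fun k hk => by exact_mod_cast P.rpos k hk) fun k hk y hy => ?_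
  have hr : (1 : ℝ) ≤ r k := by exact_mod_cast P.rpos k hk
  have hl := P.lg k hk
  rw [hlam]
  refine pz_pow S (by linarith only [hr]) ?_ ?_ j hy
  · have : (1 : ℝ) ≤ (r k : ℝ) ^ 2 := one_le_pow₀ hr
    linarith only [this, hl, mul_nonneg_of_nonpos_of_nonpos (Mathlib.Tactic.Linarith.sub_nonpos_of_le (sq_nonneg ↑(r k))) (Mathlib.Tactic.Linarith.sub_nonpos_of_le hl)]
  · refine le_trans (le_of_eq ?_) (green_lower S (P.rpos k hk) (r k * n))
    congr 2
    push_cast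
    field_simp

theorem Blk_new {η : ℝ} {n K j : ℕ} {r : ℕ → ℕ} (P : BPar η n K j r) {D : Type} [Fintype D]
    {e : D → ℂ} (S : Step e) :
    Real.log n * ∑ s ∈ range (n ^ 2), (Ex e s fun l => ind (New l)) ≤ 7776 * (n : ℝ) ^ 2 := by
  obtain ⟨hn, h16⟩ := Blk_n P
  have h1 := new_count S (n ^ 2) n
  have h2 := green_lower S one_pos n
  have hn1 : n ≤ n ^ 2 := Nat.le_self_pow (by norm_num) _
  have hn2 : (n : ℝ) ≤ (n : ℝ) ^ 2 := by exact_mod_cast hn1
  have h3 : 0 ≤ ∑ s ∈ range (n ^ 2), (Ex e s fun l => ind (New l)) :=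
    sum_nonneg fun s _ => Ex_nonneg fun l => ind_nonneg _
  have h4 : Real.log n ≤ 2 * Real.log (n / 2) := by
    have a1 : Real.log (n / 16) ≤ Real.log (n / 2) :=
      Real.log_le_log (by positivity) (by gcongr; norm_num)
    have a2 := Real.log_two_lt_d9
    have a3 : Real.log (n / 2) = Real.log n - Real.log 2 := Real.log_div hn.ne' (by norm_num)
    linarith only [h16, a1, a2, a3]
  simp only [Nat.cast_one, one_pow, mul_one] at h2
  push_cast at h1
  have h5 := mul_le_mul_of_nonneg_left h2 h3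
  have h6 := mul_le_mul_of_nonneg_left h4 h3
  linarith only [hn2, h1, h5, h6]

theorem blk_abs : ∃ C₀ : ℝ, 0 ≤ C₀ ∧ ∀ (η : ℝ) (n K j : ℕ) (r : ℕ → ℕ), BPar η n K j r →
    ∀ (D : Type) [Fintype D] (e : D → ℂ), Step e → ∀ κ : ℝ, 0 < κ →
      (Ex e (n ^ 2) fun l => ind (¬ Cov n η κ l)) ≤ C₀ / κ := by
  refine ⟨28035072 + 3072 * 7776 * 2, by norm_num, fun η n K j r P D _ e S κ hκ => ?_⟩
  obtain ⟨hn, h16⟩ := Blk_n P
  obtain ⟨lam, hlam⟩ : ∃ lam : ℕ → ℝ,
      ∀ k, lam k = j * ((r k : ℝ) ^ 2 / 216 * Real.log (n / (2 * r k))) / 8 := ⟨_, fun _ => rfl⟩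
  have hbad := Blk_bad P S hlam
  have hnew := Blk_new P S
  have hT := P.time
  generalize ∑ k ∈ range K, j * (r k * n) = T at hbad hT
  have hlog : 0 ≤ Real.log n :=
    le_trans (by linarith only [h16]) (Real.log_le_log (by positivity) (div_le_self hn.le (by norm_num)) :
      Real.log (n / 16) ≤ Real.log n)
  rw [← Ex_take S (n ^ 2) T]
  have hX : Ex e (n ^ 2 + T) (fun w => ∑ s ∈ range (n ^ 2), ind (New (w.take s)) *
      ind (∀ k < K, occ (r k) 0 ((w.drop s).take T) < lam k)) =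
      (∑ s ∈ range (n ^ 2), (Ex e s fun l => ind (New l))) *
        Ex e T fun l => ind (∀ k < K, occ (r k) 0 l < lam k) := by
    rw [Ex_sum, sum_mul]
    exact sum_congr rfl fun s hs => Ex_split S (by have := mem_range.1 hs; omega)
      (fun l => ind (New l)) fun l => ind (∀ k < K, occ (r k) 0 l < lam k)
  calc _ ≤ Ex e (n ^ 2 + T) fun w => (28035072 + 3072 * j * Real.log n / (n : ℝ) ^ 2 *
        ∑ s ∈ range (n ^ 2), ind (New (w.take s)) *
          ind (∀ k < K, occ (r k) 0 ((w.drop s).take T) < lam k)) * κ⁻¹ := by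
        refine Ex_mono S fun w hw _ => ?_
        by_cases h : Cov n η κ (w.take (n ^ 2))
        · rw [ind_neg (not_not.2 h)]
          have : 0 ≤ ∑ s ∈ range (n ^ 2), ind (New (w.take s)) *
              ind (∀ k < K, occ (r k) 0 ((w.drop s).take T) < lam k) :=
            sum_nonneg fun s _ => mul_nonneg (ind_nonneg _) (ind_nonneg _)
          positivity
        · rw [ind_pos h, ← div_eq_mul_inv, one_le_div hκ]
          exact le_of_not_ge fun h' => h (Blk_det P hT hw hlam h')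
    _ ≤ _ := by
        rw [Ex_mul_const, Ex_add, Ex_const S, Ex_const_mul, hX, ← div_eq_mul_inv]
        have h0 : 0 ≤ j * Ex e T fun l => ind (∀ k < K, occ (r k) 0 l < lam k) :=
          mul_nonneg (Nat.cast_nonneg j) (Ex_nonneg fun l => ind_nonneg _)
        have h1 := mul_le_mul hnew hbad h0 (by positivity)
        refine div_le_div_of_nonneg_right (add_le_add le_rfl ?_) hκ.le
        rw [div_mul_eq_mul_div, div_le_iff₀ (by positivity)]
        linarith only [h1]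

theorem block : ∃ C₀ : ℝ, 0 ≤ C₀ ∧ ∀ η : ℝ, 0 < η → ∃ n : ℕ, 1 / η ≤ (n : ℝ) ∧
    ∀ (D : Type) [Fintype D] (e : D → ℂ), Step e → ∀ κ : ℝ, 0 < κ →
      (Ex e (n ^ 2) fun l => ind (¬ Cov n η κ l)) ≤ C₀ / κ := by
  obtain ⟨C₀, h0, h⟩ := blk_abs
  refine ⟨C₀, h0, fun η hη => ?_⟩
  obtain ⟨n, K, j, r, h1, h2⟩ := blk_par hη
  exact ⟨n, h1, h η n K j r h2⟩

end Pool.Agent.Work.MP_31144c_an
end

-- merged part: Pool.Agent.Work.MP_31144c_an.Exm
section
/-! The example, part (B) (step B5).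
PLAN. `not_typeA`: for `c > 0` and `b₀`, the set of `x ∈ [0, 1)` that stay in all blocks `b ≥ b₀` has measure `≤ (c + 2 / n b) ^ 2` for each `b ≥ b₀` (`vol_dl`, `stay`), so
`≤ 4 c ^ 2`; monotone union (`Monotone.measure_iUnion`). `haus_zero`: `Measure.mkMetric_le_liminf_tsum` with index `ℕ × ℕ`, the sets are the translated discs
for `b ≥ b₀`, `i ∈ F b`, else empty; `Metric.diam_closedBall_eq`. `exists_par`: recursion. `partB`: apply to `|g| + 4`, `Measure.mkMetric_mono`, `Measure.le_mkMetric` for the area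
(`s ⊆ closedBall x (diam s)`), `ae_eventually_notMem`, `ae_circle`. -/

namespace Pool.Agent.Work.MP_31144c_an

open Set Filter Topology MeasureTheory Complex

variable {n m : ℕ → ℕ}

theorem Exm_m (h : Par n m) (b : ℕ) : 0 < m b :=
  lt_of_lt_of_le (Nat.mul_pos b.succ_pos (lt_of_lt_of_le (b + 1).succ_pos (h.big _))) (h.m2 b)

theorem Exm_vol (h : Par n m) (b : ℕ) (Φ : List ℂ → Prop) :
    volume {x ∈ Ico (0 : ℝ) 1 | Φ (bl n m b x)} ≤
      ENNReal.ofReal (Ex (fun d : Fin (m b) => rt (m b) d) (n b ^ 2) fun l => ind (Φ l)) :=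
  vol_dl (Exm_m h b) _ (nu_pos h _) Φ

theorem not_typeA (h : Par n m) :
    ∀ᵐ x : ℝ, x ∈ Ico (0 : ℝ) 1 → ¬ TypeA (fex n m) (exp (2 * Real.pi * I * x)) := by
  have key : ∀ c : ℝ, 0 < c → volume {x ∈ Ico (0 : ℝ) 1 |
      TypeA (fex n m) (exp (2 * Real.pi * I * x))} ≤ ENNReal.ofReal ((2 * c) ^ 2) := fun c hc => by
    let S : ℕ → Set ℝ := fun B =>
      {x ∈ Ico (0 : ℝ) 1 | ∀ b ≥ B, ∀ s < n b ^ 2, ‖pos (bl n m b x) s‖ ≤ c * n b + 1}
    have h1 : Monotone S := fun B B' hB x hx => ⟨hx.1, fun b hb => hx.2 b (hB.trans hb)⟩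
    refine (measure_mono (t := ⋃ B, S B) fun x hx => ?_).trans ?_
    · obtain ⟨B, hB⟩ := eventually_atTop.1 (stay_of_typeA h x hx.2 hc)
      exact mem_iUnion.2 ⟨B, hx.1, hB⟩
    rw [h1.measure_iUnion]
    refine iSup_le fun B => ?_
    obtain ⟨k, hk⟩ := exists_nat_ge (2 / c)
    have h2 : (k : ℝ) + 1 ≤ n (B + k) := by
      have := h.big (B + k)
      exact_mod_cast (by omega : k + 1 ≤ n (B + k))
    have h3 : (0 : ℝ) < n (B + k) := lt_of_lt_of_le (by positivity) h2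
    have h4 : 2 ≤ c * n (B + k) := by
      rw [div_le_iff₀ hc] at hk
      (refine le_of_not_gt fun h_nl => ?_; linarith only [h_nl, h2, hk, mul_nonneg_of_nonpos_of_nonpos (Mathlib.Tactic.Linarith.sub_nonpos_of_le (Mathlib.Tactic.Linarith.natCast_nonneg ℝ k)) (le_of_lt (Mathlib.Tactic.Linarith.sub_neg_of_lt h_nl)), mul_nonneg_of_nonpos_of_nonpos (Mathlib.Tactic.Linarith.sub_nonpos_of_le (Mathlib.Tactic.Linarith.natCast_nonneg ℝ (n (B + k)))) (Mathlib.Tactic.Linarith.sub_nonpos_of_le hk)])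
    refine (measure_mono (t := {x ∈ Ico (0 : ℝ) 1 | ∀ s < n (B + k) ^ 2,
      ‖pos (bl n m (B + k) x) s‖ ≤ c * n (B + k) + 1})
        fun x hx => ⟨hx.1, hx.2 _ (Nat.le_add_right B k)⟩).trans ?_
    refine (Exm_vol h (B + k) fun l => ∀ s < n (B + k) ^ 2, ‖pos l s‖ ≤ c * n (B + k) + 1).trans
      (ENNReal.ofReal_le_ofReal ((stay (step_rt (Exm_m h _) (h.dvd _))
        (pow_pos (by exact_mod_cast h3) 2) (by positivity)).trans ?_))
    rw [Nat.cast_pow, ← div_pow]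
    refine pow_le_pow_left₀ (by positivity) ?_ 2
    rw [div_le_iff₀ h3]
    linarith only [h4]
  have h0 : volume {x ∈ Ico (0 : ℝ) 1 | TypeA (fex n m) (exp (2 * Real.pi * I * x))} = 0 := by
    refine nonpos_iff_eq_zero.1 (ENNReal.le_of_forall_pos_le_add fun ε hε _ => ?_)
    have h1 := key (√ε / 2) (by positivity)
    rw [mul_div_cancel₀ _ two_ne_zero, Real.sq_sqrt ε.coe_nonneg, ENNReal.ofReal_coe_nnreal] at h1
    rwa [zero_add]
  filter_upwards [measure_eq_zero_iff_ae_notMem.1 h0] with x hx h1 h2 using hx ⟨h1, h2⟩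

theorem haus_zero (h : Par n m) {g : ℝ → ℝ} {η : ℕ → ℝ} (hη : Tendsto η atTop (𝓝 0))
    (hg0 : ∀ d, 0 ≤ g d)
    (hg : ∀ b, ∀ d ∈ Ioc 0 (2 * η b), d ^ 2 * g d ≤ (1 / 4) ^ b * h0 d) {x : ℝ}
    (hx : ∀ᶠ b in atTop, Cov (n b) (η b) (2 ^ b) (bl n m b x)) (C δ : ℝ) :
    haus g (vals (fex n m) (exp (2 * Real.pi * I * x)) (stolz (exp (2 * Real.pi * I * x)) C δ)) = 0 := by
  obtain ⟨B, hB⟩ := eventually_atTop.1 hx
  choose! F c R hR hS hC using hB
  set P := exp (2 * Real.pi * I * x)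
  have hr : Tendsto (fun k => ⨆ j, ENNReal.ofReal (2 * η (j + k))) atTop (𝓝 0) := by
    refine ENNReal.tendsto_nhds_zero.2 fun ε hε => ?_
    have h1 := ENNReal.tendsto_ofReal (hη.const_mul 2)
    rw [mul_zero, ENNReal.ofReal_zero] at h1
    obtain ⟨N, hN⟩ := eventually_atTop.1 (ENNReal.tendsto_nhds_zero.1 h1 ε hε)
    filter_upwards [eventually_ge_atTop N] with k hk using iSup_le fun j => hN _ (by omega)
  refine nonpos_iff_eq_zero.1 ((Measure.mkMetric_le_liminf_tsum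
    (ι := fun k => Σ j : ℕ, F (j + k)) _ _ hr (fun k p => Metric.closedBall
      (psum n m P (st n (p.1 + k)) + c (p.1 + k) p.2) (R (p.1 + k) p.2)) ?_ ?_ _).trans
        (Tendsto.liminf_eq ?_).le)
  · filter_upwards [eventually_ge_atTop B] with k hk p
    refine le_iSup_of_le p.1 (Metric.ediam_le_of_forall_dist_le fun y hy z hz => ?_)
    have := (hR (p.1 + k) (by omega) p.2 p.2.2).2
    linarith only [this, hy, hz, dist_triangle_right y z (psum n m P (st n (p.1 + k)) + c (p.1 + k) p.2),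
      Metric.mem_closedBall.1 hy, Metric.mem_closedBall.1 hz]
  · filter_upwards [eventually_ge_atTop B] with k hk w hw
    obtain ⟨δ', h1, h2⟩ := sausage h x C k
    obtain ⟨z, hz, rfl⟩ := vals_subset _ _ C δ h1 hw
    obtain ⟨b, hb, s, hs, h3⟩ := h2 z hz
    obtain ⟨j, rfl⟩ := Nat.exists_eq_add_of_le' hb
    obtain ⟨i, hi, h4⟩ := mem_iUnion₂.1 (hC (j + k) (by omega) s hs h3)
    refine mem_iUnion.2 ⟨⟨j, i, hi⟩, ?_⟩
    rw [mem_closedBall_iff_norm] at h4 ⊢
    rwa [← sub_sub]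
  · refine tendsto_of_tendsto_of_tendsto_of_le_of_le' tendsto_const_nhds
      (ENNReal.tendsto_sum_nat_add (fun b => ENNReal.ofReal ((1 / 2) ^ b))
        summable_geometric_two.tsum_ofReal_ne_top) (Eventually.of_forall fun _ => zero_le) ?_
    filter_upwards [eventually_ge_atTop B] with k hk
    rw [ENNReal.tsum_sigma']
    refine ENNReal.tsum_le_tsum fun j => ?_
    have hb : j + k ≥ B := by omega
    rw [tsum_fintype, ← ENNReal.ofReal_sum_of_nonneg fun i _ => mul_nonneg (sq_nonneg _) (hg0 _)]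
    refine ENNReal.ofReal_le_ofReal ((Finset.sum_le_sum (g := fun i : F (j + k) =>
      (1 / 4) ^ (j + k) * h0 (2 * R (j + k) i)) fun i _ => ?_).trans ?_)
    · have h1 := hR _ hb i i.2
      have h2 := Metric.diam_closedBall_eq (psum n m P (st n (j + k)) + c (j + k) i) h1.1.le
      rw [Metric.diam] at h2
      rw [h2]
      exact hg _ _ ⟨by linarith only [h1], by linarith only [h1]⟩
    · rw [← Finset.mul_sum, Finset.sum_coe_sort (F (j + k)) fun i => h0 (2 * R (j + k) i)]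
      refine (mul_le_mul_of_nonneg_left (hS _ hb) (by positivity)).trans ?_
      rw [← mul_pow]
      norm_num

theorem exists_par {η : ℕ → ℝ} (hη : ∀ b, 0 < η b) : ∃ n m, Par n m ∧
    ∀ᵐ x : ℝ, x ∈ Ico (0 : ℝ) 1 → ∀ᶠ b in atTop, Cov (n b) (η b) (2 ^ b) (bl n m b x) := by
  obtain ⟨C₀, -, hC⟩ := block
  have h1 : ∀ b k : ℕ, ∃ N : ℕ, k + 1 ≤ N ∧ ∀ (D : Type) [Fintype D] (e : D → ℂ), Step e →
      (Ex e (N ^ 2) fun l => ind (¬ Cov N (η b) (2 ^ b) l)) ≤ C₀ / 2 ^ b := fun b k => by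
    have h2 : 0 < min (η b) (1 / (k + 1 : ℝ)) := lt_min (hη b) (by positivity)
    obtain ⟨N, h3, h4⟩ := hC _ h2
    refine ⟨N, ?_, fun D _ e S => (Ex_mono S fun l _ _ => ind_mono fun h5 ⟨F, c, R, h6, h7⟩ =>
      h5 ⟨F, c, R, fun i hi => ⟨(h6 i hi).1, (h6 i hi).2.trans (min_le_left _ _)⟩, h7⟩).trans
        (h4 D e S _ (by positivity))⟩
    have h5 := (one_div_le_one_div_of_le h2 (min_le_right _ _)).trans h3
    rw [one_div_one_div] at h5
    exact_mod_cast h5
  choose N h2 h3 using h1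
  let n : ℕ → ℕ := fun b => Nat.rec (N 0 0) (fun b k => N (b + 1) k) b
  have h4 : ∀ b, n b + 1 ≤ n (b + 1) := fun b => h2 (b + 1) (n b)
  have h5 : ∀ b, ∃ k, n b = N b k := fun b => by
    cases b with
    | zero => exact ⟨0, rfl⟩
    | succ b => exact ⟨n b, rfl⟩
  have h : Par n fun b => 4 * (7 * n b ^ 2 + (b + 1) * n (b + 1)) := by
    refine ⟨monotone_nat_of_le_succ fun b => (Nat.le_succ _).trans (h4 b), fun b => ?_,
      fun b => Nat.dvd_mul_right _ _, fun b => by omega, fun b => by omega⟩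
    induction b with
    | zero => exact h2 0 0
    | succ b ih => exact (Nat.succ_le_succ ih).trans (h4 b)
  refine ⟨n, _, h, ?_⟩
  have h6 : ∀ b, volume {x ∈ Ico (0 : ℝ) 1 | ¬ Cov (n b) (η b) (2 ^ b)
      (bl n (fun b => 4 * (7 * n b ^ 2 + (b + 1) * n (b + 1))) b x)} ≤
        ENNReal.ofReal (C₀ * (1 / 2) ^ b) := fun b => by
    refine (Exm_vol h b fun l => ¬ Cov (n b) (η b) (2 ^ b) l).trans (ENNReal.ofReal_le_ofReal ?_)
    have h7 := step_rt (Exm_m h b) (h.dvd b)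
    obtain ⟨k, hk⟩ := h5 b
    have h8 := h3 b k _ _ h7
    rwa [← hk, div_eq_mul_one_div, ← one_div_pow] at h8
  filter_upwards [ae_eventually_notMem (ne_top_of_le_ne_top
    (summable_geometric_two.mul_left C₀).tsum_ofReal_ne_top (ENNReal.tsum_le_tsum h6))] with x hx h7
  filter_upwards [hx] with b hb using by_contra fun h8 => hb ⟨h7, h8⟩

theorem partB {g : ℝ → ℝ} (hg : Tendsto (fun r => g r /
    (Real.log (1 / r) * Real.log (Real.log (Real.log (1 / r))))) (𝓝[>] 0) (𝓝 0)) :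
    ∃ f : ℂ → ℂ, DifferentiableOn ℂ f (Metric.ball 0 1) ∧ ∀ᵐ θ : ℝ, ¬ TypeA f (exp (θ * I)) ∧
      ∀ C δ : ℝ, haus g (vals f (exp (θ * I)) (stolz (exp (θ * I)) C δ)) = 0 ∧
        volume (vals f (exp (θ * I)) (stolz (exp (θ * I)) C δ)) = 0 := by
  have hl : Tendsto (fun r : ℝ => Real.log (1 / r)) (𝓝[>] 0) atTop := by
    simp only [one_div]
    exact Real.tendsto_log_atTop.comp tendsto_inv_nhdsGT_zero
  have hL := hl.atTop_mul_atTop₀ (Real.tendsto_log_atTop.comp (Real.tendsto_log_atTop.comp hl))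
  have h1 : ∀ b : ℕ, ∃ u > 0, ∀ d ∈ Ioc (0 : ℝ) u, d ^ 2 * (|g d| + 4) ≤ (1 / 4) ^ b * h0 d := by
    intro b
    have h2 := hg.abs.add (hL.const_div_atTop 4)
    rw [abs_zero, add_zero] at h2
    have h3 := (h2.eventually (gt_mem_nhds (show (0 : ℝ) < (1 / 4) ^ b by positivity))).and
      (hL.eventually_gt_atTop 0)
    obtain ⟨u, hu, h4⟩ := mem_nhdsGT_iff_exists_Ioc_subset.1 h3
    refine ⟨u, hu, fun d hd => ?_⟩
    obtain ⟨h5, h6⟩ := h4 hd
    simp only [Function.comp_apply] at h5 h6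
    rw [abs_div, abs_of_pos h6, ← add_div, div_lt_iff₀ h6] at h5
    rw [h0, mul_left_comm]
    exact mul_le_mul_of_nonneg_left h5.le (sq_nonneg d)
  choose u hu h2 using h1
  have h3 : ∀ b : ℕ, 0 < min (u b / 2) (1 / (b + 1 : ℝ)) := fun b =>
    lt_min (half_pos (hu b)) (by positivity)
  obtain ⟨n, m, h, h4⟩ := exists_par h3
  refine ⟨fex n m, fex_diff h, ae_circle (p := fun P => ¬ TypeA (fex n m) P ∧ ∀ C δ : ℝ,
    haus g (vals (fex n m) P (stolz P C δ)) = 0 ∧ volume (vals (fex n m) P (stolz P C δ)) = 0) ?_⟩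
  filter_upwards [not_typeA h, h4] with x h5 h6 hx
  refine ⟨h5 hx, fun C δ => ?_⟩
  have h7 := haus_zero h (g := fun d => |g d| + 4) (squeeze_zero (fun b => (h3 b).le)
    (fun b => min_le_right _ _) tendsto_one_div_add_atTop_nhds_zero_nat) (fun d => by positivity)
    (fun b d hd => h2 b d ⟨hd.1, by linarith only [hd, hd.2, min_le_left (u b / 2) (1 / (b + 1 : ℝ))]⟩)
    (h6 hx) C δ
  refine ⟨nonpos_iff_eq_zero.1 (le_trans (Measure.le_iff'.1 ?_ _) h7.le),
    nonpos_iff_eq_zero.1 (le_trans (Measure.le_iff'.1 ?_ _) h7.le)⟩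
  · exact Measure.mkMetric_mono (Eventually.of_forall fun d => ENNReal.ofReal_le_ofReal
      (mul_le_mul_of_nonneg_left (by linarith only [le_abs_self (g d.toReal)]) (sq_nonneg _)))
  · refine Measure.le_mkMetric _ _ 1 one_pos fun s hs => ?_
    rcases s.eq_empty_or_nonempty with rfl | ⟨y, hy⟩
    · exact measure_empty.trans_le zero_le
    refine (measure_mono (t := Metric.closedBall y (Metric.diam s)) fun z hz =>
      Metric.dist_le_diam_of_mem' (ne_top_of_le_ne_top ENNReal.one_ne_top hs) hz hy).trans ?_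
    rw [Complex.volume_closedBall, ← ENNReal.ofReal_pow Metric.diam_nonneg,
      ← ENNReal.ofReal_coe_nnreal, ← ENNReal.ofReal_mul (sq_nonneg _)]
    refine ENNReal.ofReal_le_ofReal (mul_le_mul_of_nonneg_left ?_ (sq_nonneg _))
    linarith only [abs_nonneg (g (Metric.ediam s).toReal), Real.pi_le_four, NNReal.coe_real_pi]

end Pool.Agent.Work.MP_31144c_an
end
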