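import Pool.Agent.Work.MP_31144c_an.Cover
import Pool.Agent.Work.MP_31144c_an.Exm

/-! The exact exponent, part (C).
PLAN. `a > 1`: `partA` with `r₀ = 1 / 2`; a primitive of `1 / (r (log (1 / r)) ^ a)` is `(log (1 / r)) ^ (1 - a) / (a - 1)`
(`intervalIntegral.integrableOn_deriv_of_nonneg`, the primitive is continuous on `[0, 1 / 2]`). `a ≤ 1`: `partB`, `U = univ`, `C = 2`, `δ = 1`. -/

namespace Pool.Agent.Work.MP_31144c_an

open Set Filter Topology MeasureTheory Complex

lemma Main_log : Tendsto (fun r : ℝ => Real.log (1 / r)) (𝓝[>] 0) atTop := by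
  simp only [one_div, Real.log_inv]
  exact tendsto_neg_atBot_atTop.comp Real.tendsto_log_nhdsGT_zero

lemma Main_pos {r : ℝ} (h0 : 0 < r) (h1 : r < 1) : 0 < Real.log (1 / r) :=
  Real.log_pos (one_lt_one_div h0 h1)

lemma Main_int {a : ℝ} (ha : 1 < a) :
    IntegrableOn (fun r : ℝ => 1 / (r * Real.log (1 / r) ^ a)) (Ioo 0 (1 / 2)) := by
  have hd : ∀ r ∈ Ioo (0 : ℝ) 1, HasDerivAt (fun r : ℝ => Real.log (1 / r) ^ (1 - a) / (a - 1))
      (1 / (r * Real.log (1 / r) ^ a)) r := by
    intro r hr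
    have h1 : HasDerivAt (fun r : ℝ => Real.log (1 / r)) (-r⁻¹) r := by
      simp only [one_div, Real.log_inv]
      exact (Real.hasDerivAt_log hr.1.ne').neg
    have hL := Main_pos hr.1 hr.2
    refine ((h1.rpow_const (p := 1 - a) (Or.inl hL.ne')).div_const (a - 1)).congr_deriv ?_
    have h2 : a - 1 ≠ 0 := by linarith
    have h3 := hr.1.ne'
    have h4 := (Real.rpow_pos_of_pos hL a).ne'
    rw [show 1 - a - 1 = -a by ring, Real.rpow_neg hL.le]
    field_simp
    ring
  refine (intervalIntegral.integrableOn_deriv_of_nonneg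
    (g := fun r : ℝ => Real.log (1 / r) ^ (1 - a) / (a - 1)) (fun r hr => ?_)
    (fun r hr => hd r ⟨hr.1, by linarith [hr.2]⟩) fun r hr => ?_).mono_set Ioo_subset_Ioc_self
  · rcases hr.1.eq_or_lt with h | h
    · subst h
      have h1 : Tendsto (fun r : ℝ => Real.log (1 / r) ^ (1 - a) / (a - 1)) (𝓝[>] 0) (𝓝 0) := by
        have := ((tendsto_rpow_neg_atTop (sub_pos.2 ha)).comp Main_log).div_const (a - 1)
        simpa only [neg_sub, zero_div, Function.comp_apply] using this
      refine (continuousWithinAt_Ioi_iff_Ici.1 ?_).mono Icc_subset_Ici_self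
      have e : Real.log (1 / (0 : ℝ)) ^ (1 - a) / (a - 1) = 0 := by
        rw [div_zero, Real.log_zero, Real.zero_rpow (by linarith), zero_div]
      rw [ContinuousWithinAt, e]
      exact h1
    · exact (hd r ⟨h, by linarith [hr.2]⟩).continuousAt.continuousWithinAt
  · have := Real.rpow_pos_of_pos (Main_pos hr.1 (by linarith [hr.2])) a
    have := hr.1
    positivity

lemma Main_small {a : ℝ} (ha : a ≤ 1) : Tendsto (fun r : ℝ => Real.log (1 / r) ^ a /
    (Real.log (1 / r) * Real.log (Real.log (Real.log (1 / r))))) (𝓝[>] 0) (𝓝 0) := by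
  have h3 := Real.tendsto_log_atTop.comp (Real.tendsto_log_atTop.comp Main_log)
  refine squeeze_zero' ?_ ?_ h3.inv_tendsto_atTop
  · filter_upwards [Main_log.eventually_ge_atTop 1, h3.eventually_gt_atTop 0] with r h1 h2
    exact div_nonneg (Real.rpow_nonneg (by linarith) _) (mul_nonneg (by linarith) h2.le)
  · filter_upwards [Main_log.eventually_ge_atTop 1, h3.eventually_gt_atTop 0] with r h1 h2
    have h4 : Real.log (1 / r) ^ a ≤ Real.log (1 / r) :=
      (Real.rpow_le_rpow_of_exponent_le h1 ha).trans_eq (Real.rpow_one _)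
    rw [← div_div]
    exact (div_le_div_of_nonneg_right (div_le_one_of_le₀ h4 (by linarith)) h2.le).trans_eq
      (one_div _)

theorem partC (a : ℝ) : Strong (fun r => Real.log (1 / r) ^ a) ↔ 1 < a := by
  refine ⟨fun h => ?_, fun ha => partA (r₀ := 1 / 2) (by norm_num) (fun r hr r' hr' hle => ?_)
    (fun r hr => Real.rpow_pos_of_pos (Main_pos hr.1 (by linarith [hr.2])) a) (Main_int ha)⟩
  · by_contra ha
    obtain ⟨f, hf, h1⟩ := partB (Main_small (not_lt.1 ha))
    obtain ⟨θ, h2, h3⟩ := ((h f hf).and h1).exists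
    have h4 := h2.resolve_left h3.1 2 1 (by norm_num) one_pos univ isOpen_univ univ_nonempty
    rw [inter_univ, (h3.2 2 1).1] at h4
    exact ENNReal.zero_ne_top h4
  · exact Real.rpow_le_rpow (Main_pos hr'.1 (by linarith [hr'.2])).le
      (Real.log_le_log (one_div_pos.2 hr'.1) (one_div_le_one_div_of_le hr.1 hle)) (by linarith)

theorem partC' (a : ℝ) : List.TFAE [1 < a, Strong fun r => Real.log (1 / r) ^ a,
    ∀ f : ℂ → ℂ, DifferentiableOn ℂ f (Metric.ball 0 1) → ∀ᵐ θ : ℝ,
      TypeA f (exp (θ * I)) ∨ ∀ C δ : ℝ, 1 < C → 0 < δ →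
        haus (fun r => Real.log (1 / r) ^ a) (vals f (exp (θ * I)) (stolz (exp (θ * I)) C δ)) ≠ 0] := by
  tfae_have 1 → 2 := (partC a).2
  tfae_have 2 → 3 := fun h f hf => (h f hf).mono fun θ h1 => h1.imp_right fun h2 C δ hC hδ => by
    have h3 := h2 C δ hC hδ univ isOpen_univ univ_nonempty
    rw [inter_univ] at h3
    rw [h3]
    exact ENNReal.top_ne_zero
  tfae_have 3 → 1 := fun h => by
    by_contra ha
    obtain ⟨f, hf, h1⟩ := partB (Main_small (not_lt.1 ha))
    obtain ⟨θ, h2, h3⟩ := ((h f hf).and h1).exists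
    exact h2.resolve_left h3.1 2 1 (by norm_num) one_pos (h3.2 2 1).1
  tfae_finish

end Pool.Agent.Work.MP_31144c_an
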